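import Pool.Agent.HEC.Defs
import Pool.Agent.HERN.VQa

/-!
# HEC, statements P: the order of a locally finite closure operator in a large structure

Every module proves `thm_XXX : St_XXX` in `Pool/Agent/HEC/XXX.lean` (imports: this file, Mathlib
files and the files named in the docstring); statements used are taken as hypotheses, e.g.
`theorem thm_VSH (h1 : St_VSO) : St_VSH`. Conventions: `Ge S g y x`: `x` is below `y`; `ω` is
`Ordinal.omega0`; levels of `BFR` are lowered with `BFR.mono`, sets of pairs are made smaller with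
`BFR.anti`.
-/

set_option autoImplicit false
set_option linter.unusedVariables false

namespace HEC

open Set Pool.Agent.Helper5.DU Pool.Agent.Helper6.Str Pool.Agent.Helper79.VC
  Pool.Agent.Helper97.LO Pool.Agent.Helper97.VC HER HERN

/-! ## Large structures of a class -/

/-- [HFC] (0.7 h; no other module) The large structure is locally finite and its closed
substructures are in the class.

Proof. Second part: copy `HER/HF.lean` (`HER.thm_HF`) with these changes: the functions `g F` are
also closed: `Cld S g (range (g F))` (by contradiction as there); the closed countable set `B` is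
obtained from `exists_closed (fun F => T F ∪ range (g F))` as there; NOTE that `B` itself need not
be closed under steps, because only `pl S f ∈ K` is used for it (`range f = B`), this comes from
`hV.clos`. At the end `HerC` for `pl S f` is applied to `h` (`f ∘ h = g ..`): `range h` is closed
in `pl S f`: if `a = h n` and `Stp (pl S f) g a b`, then `Stp S g (f a) (f b)` (the pulled back
relation at `![a, b]` is `S.RelMap R (fun i => f (![a, b] i))`, rewrite by `funext` and
`Fin.cases`), `f a` is in the closed set `range (g ..)`, hence `f b = g .. m = f (h m)` and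
`b = h m`.
First part: let `a : M`, suppose `dn S g a` is infinite. By `hV.lev` take `S' ∈ K` with
`BFR S S' univ univ (ω + ω + 1) ∅`, and by `BFR.forth` an element `a'` with
`BFR S S' univ univ (ω + ω) {(a, a')}`. `dn S' g a'` is finite (`HerC`), say with `k` elements.
Take `k + 1` different elements `x i` of `dn S g a` (`Set.Infinite.exists_subset_card_eq` or
`Set.Infinite.natEmbedding`), by `BFR.forth_many` elements `x' i` with `BFR S S' univ univ ω` of
all the pairs; they are different by `AtEq`, and in `dn S' g a'`, which is a contradiction. For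
the last claim use: if `BFR S S' univ univ ω q`, `(y, y') ∈ q`, `(x, x') ∈ q`, `Ge S g y x`, then
`Ge S' g y' x'`. This is `St_VSO` for `X = univ`; prove it by
`Relation.ReflTransGen.head_induction_on` for the predicate
`P y := ∃ n : ℕ, ∀ q y', (y, y') ∈ q → (x, x') ∈ q → BFR S S' univ univ n q → Ge S' g y' x'`
(for `Stp S g y z` take an answer `z'` to `z`; `Stp S' g y' z'` by `AtEq` with
`v = ![(y, y'), (z, z')]`), or take `St_VSO` as a hypothesis: `thm_HFC (h : St_VSO)`. -/
def St_HFC : Prop := ∀ (L : FirstOrder.Language.{0, 0}) [∀ n, IsEmpty (L.Functions n)]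
  [∀ n, Countable (L.Relations n)] (g : Set (L.Relations 2)) (K : Set (L.Structure ℕ))
  (δ : Ordinal.{0}) (M : Type) (S : L.Structure M), VSt K δ S → HerC g K →
  LF S g ∧ ∃ F : Set M, F.Finite ∧ HerCS g K S F

/-- [PGC] (0.2 h; no other module) Pigeonhole for closed substructures.

Proof. Copy `HER/PIG.lean` (`HER.thm_PIG`); the only change is that in `hmem` the hypothesis
`hS : HerCS g K S F` also wants `Cld S g (range (e f))`, which is `(hX f).2.2.2` after
`rw [he2]`. -/
def St_PGC : Prop := ∀ (L : FirstOrder.Language.{0, 0}) [∀ n, IsEmpty (L.Functions n)]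
  [∀ n, Countable (L.Relations n)] (g : Set (L.Relations 2)) (K : Set (L.Structure ℕ))
  (M : Type) (S : L.Structure M) (F : Set M), Scat K → HerCS g K S F → PigC S g F

/-- [VQL] (0.3 h; no other module) Limits of finite approximations, strong form.

Proof. Copy the proof of `HERN.VQ_lim` (`HERN/VQa.lean`); only the last step changes: there
`AtEq.comp' h3.atEq (hT0 j)`, here `h3.trans (hbf δ le_rfl j)` with the same pairs. -/
def St_VQL : Prop := ∀ (L : FirstOrder.Language.{0, 0}) [∀ n, IsEmpty (L.Functions n)]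
  [∀ n, Countable (L.Relations n)] (V : Type) [Countable V] (K : Set (L.Structure ℕ))
  (δ : Ordinal.{0}) (M : Type) (S : L.Structure M), VSt K δ S →
  ∀ (E : ℕ → Set V) (x : ℕ → V → M), (∀ i j, i ≤ j → E i ⊆ E j) → (∀ e, ∃ j, e ∈ E j) →
  (∀ i j, i ≤ j → BFR S S univ univ δ (VQ_pr (E i) (x i) (x j))) →
  (∀ j, ∀ γ < δ, ∀ z : M, ∃ i, j ≤ i ∧ ∃ e ∈ E i,
    BFR S S univ univ γ (insert (z, x i e) (VQ_pr (E j) (x j) (x i)))) →
  ∃ T ∈ K, ∃ π : V → ℕ, ∀ j, BFR T S univ univ δ ((fun e => (π e, x j e)) '' E j)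

/-- [VQC] (0.5 h; uses `St_VQL`; import also `Pool.Agent.HERN.VQ`) Copies of `ω₁`-sequences along
the rationals in members of the class, strong form.

Proof. The definitions and lemmas `VQ_...` of `HERN/VQ.lean` are imported. Copy the proof of
`HERN.thm_VQ` (the last theorem there) with these changes: there is no hypothesis `HerK K`; in
place of `VQ_lim hS` apply `hVQL L _ K δ M S hS`, which gives
`hπ : ∀ j, BFR T' S univ univ δ (..)`; the result is `⟨T', hT'K, fun i => π (Sum.inl i),
fun x p => π (Sum.inr (Sum.inl (x, p))), ..⟩`; in the last step replace `AtEq.symm' (hπ ..)` by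
`(hπ ..).symm`, with the same pairs. -/
def St_VQC : Prop := ∀ (L : FirstOrder.Language.{0, 0}) [∀ n, IsEmpty (L.Functions n)]
  [∀ n, Countable (L.Relations n)] (K : Set (L.Structure ℕ)) (δ : Ordinal.{0}) (M : Type)
  (S : L.Structure M), VSt K δ S →
  ∀ (β : Type) [Finite β] (m : ℕ) (W : Om → β → M) (c : Fin m → M),
    (∀ a p a' p', W a p = W a' p' → a = a' ∧ p = p') →
    ∃ T ∈ K, ∃ (c' : Fin m → ℕ) (u : ℚ → β → ℕ), ∀ (s : ℕ) (q : Fin s → ℚ), StrictMono q →
      ∃ a : Fin s → Om, StrictMono a ∧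
        BFR S T univ univ δ (prs c c' ∪ ⋃ j, prs (W (a j)) (u (q j)))

/-! ## Visibility -/

/-- [VSO] (0.4 h; no other module) The order is visible in closed sets.

Proof. By symmetry (`BFR.symm`, `Prod.swap`) it is enough to show `→` for all structures. Let
`b ∈ p` be fixed. For `y : M` let `P y := ∃ n : ℕ, ∀ q y', (y, y') ∈ q → b ∈ q → y ∈ X →
BFR S T X X' n q → Ge T g y' b.2`. Show `Ge S g y b.1 → P y` by
`Relation.ReflTransGen.head_induction_on`. For `y = b.1`: `y' = b.2` by `AtEq`. If `Stp S g y z`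
(by the symbol `R`) and `P z` with `n`: take `n + 1`; `z ∈ X` by `Cld`; `BFR.forth` gives `z'`
with `BFR S T X X' n (insert (z, z') q)`; `AtEq` with `v = ![(y, y'), (z, z')]` gives
`Stp T g y' z'` (rewrite `fun i => (v i).1` as `![y, z]` with `funext`, `Fin.cases`/`fin_cases`);
`Ge T g z' b.2` by `P z`; `Relation.ReflTransGen.head`. At the end `n ≤ ω ≤ γ`
(`Ordinal.natCast_lt_omega0`). -/
def St_VSO : Prop := ∀ (L : FirstOrder.Language.{0, 0}) (M N : Type) (S : L.Structure M)
  (T : L.Structure N) (g : Set (L.Relations 2)) (X : Set M) (X' : Set N) (γ : Ordinal.{0})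
  (p : Set (M × N)), Cld S g X → Cld T g X' → Ordinal.omega0 ≤ γ → BFR S T X X' γ p →
  ∀ a ∈ p, ∀ b ∈ p, a.1 ∈ X → a.2 ∈ X' → (Ge S g a.1 b.1 ↔ Ge T g a.2 b.2)

/-- [VSH] (0.4 h; uses `St_VSO`) The height is visible in closed sets.

Proof. By symmetry it is enough to show `ht S g a.1 ≤ ht T g a.2` for all structures. Note
`dn S g a.1 ⊆ X` (induction along the path, `Cld`). Let `k = ht S g a.1`, enumerate the finite set
`dn S g a.1` by an injective `x : Fin k → M`; `BFR.forth_many` (level `ω + k ≤ ω + ω ≤ γ`) gives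
`x' : Fin k → N`, all in `X'`, with `BFR S T X X' ω (p ∪ range fun i => (x i, x' i))`; `x'` is
injective by `AtEq`, and `Ge T g a.2 (x' i)` by `St_VSO`. So `k ≤ (dn T g a.2).ncard`
(`Set.ncard_le_ncard`, `Set.ncard_range_of_injective` or `Set.ncard_image_of_injective`), using
`LF T g`. -/
def St_VSH : Prop := ∀ (L : FirstOrder.Language.{0, 0}) (M N : Type) (S : L.Structure M)
  (T : L.Structure N) (g : Set (L.Relations 2)) (X : Set M) (X' : Set N) (γ : Ordinal.{0})
  (p : Set (M × N)), LF S g → LF T g → Cld S g X → Cld T g X' →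
  Ordinal.omega0 + Ordinal.omega0 ≤ γ → BFR S T X X' γ p →
  ∀ a ∈ p, a.1 ∈ X → a.2 ∈ X' → ht S g a.1 = ht T g a.2

/-- [VSA] (0.3 h; uses `St_VSO`, `St_VSH`) The set `Hv n` is visible in the closed sets which
contain it.

Proof. By symmetry only `→`. Let `Ge S g y a.1`, `n < ht S g y`. Then `y ∈ Hv S g n ⊆ X` (as
`Ge S g y y`). `BFR.forth` gives `y' ∈ X'` with `BFR S T X X' (ω + ω) (insert (y, y') p)`.
`Ge T g y' a.2` by `St_VSO` for the pairs `(y, y')`, `a`; `ht T g y' = ht S g y` by `St_VSH`. -/
def St_VSA : Prop := ∀ (L : FirstOrder.Language.{0, 0}) (M N : Type) (S : L.Structure M)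
  (T : L.Structure N) (g : Set (L.Relations 2)) (X : Set M) (X' : Set N) (γ : Ordinal.{0})
  (p : Set (M × N)) (n : ℕ), LF S g → LF T g → Cld S g X → Cld T g X' → Hv S g n ⊆ X →
  Hv T g n ⊆ X' → Ordinal.omega0 + Ordinal.omega0 + 1 ≤ γ → BFR S T X X' γ p →
  ∀ a ∈ p, (a.1 ∈ Hv S g n ↔ a.2 ∈ Hv T g n)

/-- [VSC] (0.6 h; uses `St_VSO`) The components are visible.

Proof. By symmetry only `→` (the hypothesis on `A`, `A'` for the exchanged structures follows from
the given one, for `q' ⊇ Prod.swap ⁻¹' p` take `q = Prod.swap ⁻¹' q'`). Fix `b ∈ p` with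
`b.1 ∈ X`, `b.2 ∈ X'`. For `y : M` let `P y := ∃ n : ℕ, ∀ q y', p ⊆ q → (y, y') ∈ q → y ∈ X →
y' ∈ X' → BFR S T X X' (κ + ω + n) q → Cn T g X' A' y' b.2`. Show `Cn S g X A y b.1 → P y` by
`Relation.ReflTransGen.head_induction_on`. `y = b.1`: `y' = b.2` by `AtEq` (`b ∈ p ⊆ q`). If
`Adj S g X A y z` and `P z` with `n`: take `n + 1`; `BFR.forth` gives `z' ∈ X'` with
`BFR S T X X' (κ + ω + n) (insert (z, z') q)`; `y' ∉ A'`, `z' ∉ A'` by the hypothesis (level
`≥ κ`), `Ge T g y' z' ∨ Ge T g z' y'` by `St_VSO` (level `≥ ω`, as `ω ≤ κ + ω ≤ κ + ω + n`; use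
`le_add_self`, `le_self_add`). At the end `κ + ω + n ≤ κ + ω + ω ≤ γ`. -/
def St_VSC : Prop := ∀ (L : FirstOrder.Language.{0, 0}) (M N : Type) (S : L.Structure M)
  (T : L.Structure N) (g : Set (L.Relations 2)) (X A : Set M) (X' A' : Set N)
  (κ γ : Ordinal.{0}) (p : Set (M × N)), Cld S g X → Cld T g X' →
  (∀ q, p ⊆ q → BFR S T X X' κ q → ∀ a ∈ q, a.1 ∈ X → a.2 ∈ X' → (a.1 ∈ A ↔ a.2 ∈ A')) →
  κ + Ordinal.omega0 + Ordinal.omega0 ≤ γ → BFR S T X X' γ p →
  ∀ a ∈ p, ∀ b ∈ p, a.1 ∈ X → a.2 ∈ X' → b.1 ∈ X → b.2 ∈ X' →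
    (Cn S g X A a.1 b.1 ↔ Cn T g X' A' a.2 b.2)

/-- [VSZ] (0.6 h; uses `St_VSC`) The finite sizes of the components are visible.

Proof. Let `x ∈ X \ A`, `(bk S g X A x).encard = n`. `bk S g X A x ⊆ X \ A` (a path from `x` stays
in `X \ A`, and `x` is in it). `BFR.forth` (level `κ + ω + ω + (n + 1) + 1 ≤ γ` as all finite
numbers are below `ω`) gives `x' ∈ X'` with
`BFR S T X X' (κ + ω + ω + (n + 1)) (insert (x, x') p)`, and `x' ∉ A'` by the hypothesis.
`(bk T g X' A' x').encard ≥ n`: enumerate `bk S g X A x` by an injective `y : Fin n → M`,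
`BFR.forth_many` gives different `y' i ∈ X'` at level `κ + ω + ω`, in `bk T g X' A' x'` by `St_VSC`
(applied to `insert (x, x') p ∪ range ..`, the hypothesis on `q` for a larger `p` follows).
`(bk T g X' A' x').encard ≤ n`: otherwise there are `n + 1` different elements `w' : Fin (n + 1) →
N` in it (`Set.exists_subset_encard_eq`), all in `X'`; `BFR.back_many` gives different
`w i ∈ X` at level `κ + ω + ω`, in `bk S g X A x` by `St_VSC`, contradiction to
`(bk S g X A x).encard = n`. -/
def St_VSZ : Prop := ∀ (L : FirstOrder.Language.{0, 0}) (M N : Type) (S : L.Structure M)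
  (T : L.Structure N) (g : Set (L.Relations 2)) (X A : Set M) (X' A' : Set N)
  (κ γ : Ordinal.{0}) (p : Set (M × N)), Cld S g X → Cld T g X' →
  (∀ q, p ⊆ q → BFR S T X X' κ q → ∀ a ∈ q, a.1 ∈ X → a.2 ∈ X' → (a.1 ∈ A ↔ a.2 ∈ A')) →
  κ + Ordinal.omega0 + Ordinal.omega0 + Ordinal.omega0 ≤ γ → BFR S T X X' γ p →
  Sz S g X A ⊆ Sz T g X' A'

/-! ## The order -/

/-- [ANT] (0.8 h; uses `St_VSO`, `St_VSH`) There are no infinite antichains with increasing
heights.

Proof. Facts for `LF S g`: `Ge S g y x → dn S g x ⊆ dn S g y` (transitivity), hence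
`ht S g x ≤ ht S g y`; `clo S g F` is finite and closed, its elements have height at most
`c := (clo S g F).ncard` (as `dn S g y ⊆ clo S g F` for `y` in it). Let `y` be the sequence.
`n ≤ ht S g (y n)` (`StrictMono.id_le`). Put `z n := y (n + c + 1)`: `c < ht S g (z n)`. For
`f : ℕ → Bool` let `ι f n := 2 * n + (if f n then 1 else 0)` and
`X f := clo S g F ∪ ⋃ n, dn S g (z (ι f n))`. It is countable, closed, contains `F`, and infinite
(it contains the `z (ι f n)`, which are different because their heights are). Let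
`Z X := {k | ∃ y ∈ X, ht S g y = k ∧ c < k ∧ ∀ w ∈ X, Ge S g w y → Ge S g y w}`.
(1) `Z (X f) = {k | ∃ n, ht S g (z (ι f n)) = k}`. `⊆`: `y ∈ X f` of height `> c` is not in
`clo S g F`, so `Ge S g (z (ι f n)) y` for some `n`, hence `Ge S g y (z (ι f n))`, and the heights
are equal. `⊇`: `y = z (ι f n)`: let `w ∈ X f`, `Ge S g w y`. `w ∉ clo S g F` (otherwise `y` is in
it). So `Ge S g (z (ι f n')) w`, hence `Ge S g (z (ι f n')) y`, `z (ι f n') = y` by the antichain
condition, so `Ge S g y w`.
(2) If `BFR S S X X' (ω + ω + ω) p`, `X`, `X'` closed, then `Z X ⊆ Z X'`: for `y ∈ X` take an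
answer `y'` (level `ω + ω + 1`), the heights are equal by `St_VSH`; for `w' ∈ X'` with
`Ge S g w' y'` take an answer `w ∈ X` (level `ω + ω`), `Ge S g w y` by `St_VSO`, so `Ge S g y w`
and `Ge S g y' w'` by `St_VSO`.
(3) `PigC` with `G = F`, `γ = ω + ω + ω` (`add_lt_om1`, `omega_lt_om1`) gives `f ≠ f'` with
`Z (X f) ⊆ Z (X f')`, and by (2) for the symmetric relation (`BFR.symm`) also `⊇`. Take `n` with
`f n ≠ f' n`. By (1) `ht (z (ι f n)) = ht (z (ι f' n'))` for some `n'`, so `ι f n = ι f' n'` by
strict monotonicity, `omega` gives `n = n'` and `f n = f' n`, contradiction. -/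
def St_ANT : Prop := ∀ (L : FirstOrder.Language.{0, 0}) (M : Type) (S : L.Structure M)
  (g : Set (L.Relations 2)) (F : Set M), F.Finite → LF S g → PigC S g F → NoAnt S g

/-- [CNN] (0.5 h; no other module) The elements which are below high elements are below
arbitrarily high elements.

Proof. `Cc S g ⊆ Hv S g n` always. Suppose `Hv S g n ≠ Cc S g` for all `n`. Then for all `n`
there is `y ∉ Cc S g` with `n < ht S g y`: take `x ∈ Hv S g n`, `x ∉ Cc S g`, and `y` with
`Ge S g y x`, `n < ht S g y`; if `y ∈ Cc S g` then `x ∈ Cc S g` (transitivity). For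
`y ∉ Cc S g` there is `B y : ℕ` with `y ∉ Hv S g (B y)`, that is `ht S g w ≤ B y` whenever
`Ge S g w y`. Choose `Y n` for every `n : ℕ` with `Y n ∉ Cc S g`, `n < ht S g (Y n)`. Define
`b : ℕ → ℕ` by `b 0 = 0`, `b (n + 1) = max (b n) (B (Y (b n)))` and `y n := Y (b n)`. Then
`b n < ht S g (y n) ≤ B (y n) ≤ b (n + 1)` (as `Ge (y n) (y n)`), so the heights are strictly
increasing (`strictMono_nat_of_lt_succ`). For `i < j`: if `Ge S g (y j) (y i)`, then
`ht S g (y j) ≤ B (y i) ≤ b (i + 1) ≤ b j < ht S g (y j)`. If `Ge S g (y i) (y j)`, then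
`ht S g (y j) ≤ ht S g (y i)` (`Set.ncard_le_ncard`, `LF`), contradiction. So `NoAnt` fails. -/
def St_CNN : Prop := ∀ (L : FirstOrder.Language.{0, 0}) (M : Type) (S : L.Structure M)
  (g : Set (L.Relations 2)), LF S g → NoAnt S g → ∃ n, Hv S g n = Cc S g

/-- [CCT] (1 h; no other module) `Cc` is countable.

Proof. Suppose not. (1) For every `n` there is `H > n` such that `{y | ht S g y = H}` is not
countable: otherwise `{y | n < ht S g y}` is countable (a countable union over `H`), and `Cc S g`
is contained in the union of the finite sets `dn S g y` over these `y`. So there is a strictly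
increasing `H : ℕ → ℕ` with `V0 j := {y | ht S g y = H j}` not countable (recursion, or
`Nat.exists_strictMono_subsequence`-like lemmas, or `Filter.extraction_of_frequently_atTop`).
(2) A family `V : ℕ → Set M` is good if for all `j` `V j` is not countable and `ht S g y = H j`
for `y ∈ V j`. If `V` is good and `n : ℕ`, there is `y ∈ V n` such that
`fun j => V j \ {z | Ge S g z y}` is good: let `D j := {x | (V j \ {z | Ge S g z x}).Countable}`.
`D j` is finite, with at most `H j` elements: if `x : Fin (H j + 1) → M` is injective with values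
in `D j`, then the union of the countable sets `V j \ {z | Ge S g z (x i)}` does not contain `V j`,
so there is `z ∈ V j` with `Ge S g z (x i)` for all `i`, and `H j + 1 ≤ (dn S g z).ncard = H j`,
contradiction. So `⋃ j, D j` is countable and there is `y ∈ V n` outside of it.
(3) Recursion: `s : ℕ → {V // good V}` with `s 0 = V0` and `s (n + 1)` given by (2) for `V = s n`
and `n`, with `y n ∈ s n n`. The sets decrease in `n`, so for `i < n`: `y n ∈ s n n ⊆ s (i + 1) n`,
hence not `Ge S g (y n) (y i)`. `ht S g (y n) = H n` is strictly increasing, hence not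
`Ge S g (y i) (y n)` for `i < n` (heights). Contradiction to `NoAnt`. -/
def St_CCT : Prop := ∀ (L : FirstOrder.Language.{0, 0}) (M : Type) (S : L.Structure M)
  (g : Set (L.Relations 2)), LF S g → NoAnt S g → (Cc S g).Countable

/-- [SZL] (1 h; uses `St_VSZ`) There is no sequence of disjoint connected finite sets of
increasing sizes outside of a visible countable closed set.

Proof. Let `W` be such a sequence. For `f : ℕ → Bool` let `ι f n := 2 * n + (if f n then 1 else
0)` and `X f := A ∪ ⋃ n, W (ι f n)`. It is countable, closed (every `W m ∪ A` is), infinite (the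
sets `W m \ A` are nonempty and pairwise disjoint, an injection `n ↦` element of
`W (ι f n) \ A`), and contains `G ∪ F`.
(1) For `x ∈ W m \ A`, `m = ι f n`: `bk S g (X f) A x = W m \ A`. `⊇`: `Cn` is monotone in `X`
(`Relation.ReflTransGen.mono`). `⊆`: by induction along the path the elements are in `W m \ A`:
let `y ∈ W m \ A`, `Adj S g (X f) A y z`; `z ∈ X f \ A`, so `z ∈ W m'` with `m' = ι f n'`. If
`Ge S g y z`, then `z ∈ W m ∪ A` (closed), so `z ∈ W m`. If `Ge S g z y`, then `y ∈ W m' ∪ A`, so
`y ∈ W m'`, and `m = m'` because otherwise `y ∈ W m ∩ W m' ⊆ A`.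
(2) So `Sz S g (X f) A = {k | ∃ n, (W (ι f n) \ A).ncard = k}` (`Set.Finite.cast_ncard_eq`).
(3) `PigC` with the constants `G ∪ F` and the level `γ = κ + ω + ω + ω` gives `f ≠ f'` with
`BFR S S (X f) (X f') γ (dg (G ∪ F))`; `St_VSZ` gives `Sz S g (X f) A ⊆ Sz S g (X f') A` (the
hypothesis on `q ⊇ dg (G ∪ F)` follows from `Vis`, with `BFR.anti` for
`insert a (dg G) ⊆ q`), and, with `BFR.symm`, also `⊇`. Take `n` with `f n ≠ f' n`; by (2)
`(W (ι f n) \ A).ncard = (W (ι f' n') \ A).ncard` for some `n'`, so `ι f n = ι f' n'` (strictly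
increasing sizes), hence `n = n'` and `f n = f' n` by `omega`. -/
def St_SZL : Prop := ∀ (L : FirstOrder.Language.{0, 0}) (M : Type) (S : L.Structure M)
  (g : Set (L.Relations 2)) (F A G : Set M) (κ : Ordinal.{0}), F.Finite → PigC S g F →
  A.Countable → Cld S g A → F ⊆ A → G.Finite → G ⊆ A → κ < om1 → Vis S g A G κ →
  ¬ ∃ W : ℕ → Set M, (∀ m, (W m).Finite ∧ Cld S g (W m ∪ A) ∧ (W m \ A).Nonempty ∧
      ∀ x ∈ W m \ A, ∀ y ∈ W m \ A, Cn S g (W m) A x y) ∧
    (∀ m n, m ≠ n → W m ∩ W n ⊆ A) ∧ StrictMono fun m => (W m \ A).ncard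

/-- [SQW] (0.4 h; no other module) A sequence of finite sets.

Proof. Choose by recursion, with `D` the union of the previous sets and `k` one more than the
maximum of the previous sizes: let `R D k W` be the relation in the hypothesis; `choose! w hw`
(`w : Set M → ℕ → Set M`), define `s : ℕ → {D : Set M // D.Finite} × ℕ` by `s 0 = (∅, 0)`,
`s (n + 1) = (s n ∪ w (s n).1 (s n).2, (w ..  \ A).ncard + 1 + (s n).2)`, and
`W n := w (s n).1 (s n).2`. For `m < n`: `W m ⊆ (s n).1` and `(W m \ A).ncard < (s n).2 ≤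
(W n \ A).ncard`. -/
def St_SQW : Prop := ∀ (M : Type) (A : Set M) (P : Set M → Prop),
  (∀ (D : Set M) (k : ℕ), D.Finite → ∃ W : Set M, W.Finite ∧ P W ∧ W ∩ D ⊆ A ∧
    k ≤ (W \ A).ncard) →
  ∃ W : ℕ → Set M, (∀ m, (W m).Finite ∧ P (W m)) ∧ (∀ m n, m ≠ n → W m ∩ W n ⊆ A) ∧
    StrictMono fun m => (W m \ A).ncard

/-- [USR] (0.8 h; no other module) Roots: infinitely many sets of bounded size which contain `z`.

Proof. Let `𝓤 := Filter.hyperfilter ℕ` (an ultrafilter on `ℕ`, `Filter.hyperfilter_le_cofinite`).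
Let `y i : ℕ → M` be an injective enumeration of an infinite subset of the infinite set
`{y | z i ∈ d y}` (`Set.Infinite.natEmbedding`). Let `r i := {x | ∀ᶠ l in 𝓤, x ∈ d (y i l)}`. It
has at most `N` elements: for finitely many `x 0, ..., x N` in it different, almost all (in
particular one, `Filter.Eventually.exists`) `l` satisfy `x 0, ..., x N ∈ d (y i l)`, contradiction
to `(d ..).ncard ≤ N` (use `Set.Finite.subset`-free argument: if the set `r i` is infinite or has
more than `N` elements take a finite subset with `N + 1` elements). In the same way let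
`ρ := {x | ∀ᶠ i in 𝓤, x ∈ r i}`; it is finite. For `D` finite and `k`: for almost all `i`:
`r i ∩ D ⊆ ρ` (for every `x ∈ D` with `x ∉ ρ` almost all `i` satisfy `x ∉ r i`,
`Ultrafilter.eventually_not`) and `z i ∉ D` (`z` is injective, `D` finite, the hyperfilter is not
principal: `{i | z i ∈ D}` is finite, its complement is cofinite); fix such an `i`. For almost all
`l`: `d (y i l) ∩ D ⊆ r i`. The set of these `l` is infinite (`Filter.hyperfilter`: a finite set is
not in it, `Filter.notMem_hyperfilter_of_finite`), take a finite subset `s` with `k` elements and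
`Y := y i '' s`. Then `z i ∉ D`, `∀ y ∈ Y, z i ∈ d y`, `∀ y ∈ Y, d y ∩ D ⊆ r i ∩ D ⊆ ρ`. For the
closedness property: `x ∈ ρ`, and `∀ w, x ∈ d w → x' ∈ d w`; then `x' ∈ ρ`
(`Filter.Eventually.mono` twice). -/
def St_USR : Prop := ∀ (M : Type) (d : M → Set M) (N : ℕ) (z : ℕ → M), Function.Injective z →
  (∀ i, {y | z i ∈ d y}.Infinite) → (∀ i y, z i ∈ d y → (d y).Finite ∧ (d y).ncard ≤ N) →
  ∃ ρ : Set M, ρ.Finite ∧ (∀ x ∈ ρ, ∀ x', (∀ w, x ∈ d w → x' ∈ d w) → x' ∈ ρ) ∧
    ∀ (D : Set M) (k : ℕ), D.Finite → ∃ (i : ℕ) (Y : Set M), z i ∉ D ∧ Y.Finite ∧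
      Y.ncard = k ∧ ∀ y ∈ Y, z i ∈ d y ∧ d y ∩ D ⊆ ρ

/-- [USF] (0.8 h; uses `St_SZL`, `St_SQW`, `St_USR`) Only finitely many elements outside of `Cc`
have infinitely many elements above them.

Proof. Suppose the set is infinite, let `z : ℕ → M` be an injective sequence in it
(`Set.Infinite.natEmbedding`). Let `d y := dn S g y`. If `z i ∈ d y`, then `ht S g y ≤ n`
because `z i ∉ Cc S g = Hv S g n`. So `St_USR` with `N = n` gives `ρ`. Let
`A := clo S g F ∪ ρ`: finite (`LF`), closed (`ρ` is: if `x ∈ ρ`, `Stp S g x x'`, then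
`x ∈ dn S g w → x' ∈ dn S g w`, `Relation.ReflTransGen.tail`), `F ⊆ A`. `Vis S g A A 0`: by
`AtEq` (if `x ∈ A` then `(x, x) ∈ dg A`, so `x = x' ` and conversely).
Let `P W := Cld S g (W ∪ A) ∧ (W \ A).Nonempty ∧ ∀ x ∈ W \ A, ∀ y ∈ W \ A, Cn S g W A x y`. The
hypothesis of `St_SQW` for `A` and `P`: given `D` finite and `k`, apply the property of `ρ` to
`D ∪ A` and `k + 1`: `i`, `Y`. Let `W := ⋃ y ∈ Y, dn S g y`, finite and closed.
`W ∩ (D ∪ A) ⊆ ρ ⊆ A`. No element `y` of `Y` is in `A`: otherwise `z i ∈ A` (closed). So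
`Y ⊆ W \ A`, `k + 1 ≤ (W \ A).ncard`. `z i ∈ W \ A`. Connected: for `x ∈ W \ A` there is `y ∈ Y`
with `Ge S g y x`; `x, y, z i` are adjacent: `Adj S g W A x y`, `Adj S g W A y (z i)`, so every
`x ∈ W \ A` is connected with `z i` in both directions (`Adj` is symmetric). `St_SQW` gives the
sequence which contradicts `St_SZL` (for `A`, `G := A`, `κ := 0`). -/
def St_USF : Prop := ∀ (L : FirstOrder.Language.{0, 0}) (M : Type) (S : L.Structure M)
  (g : Set (L.Relations 2)) (F : Set M) (n : ℕ), F.Finite → LF S g → PigC S g F →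
  Hv S g n = Cc S g → {z | z ∉ Cc S g ∧ {y | Ge S g y z}.Infinite}.Finite

/-- [CMG] (1 h; no other module) Large connected sets in infinite locally finite connected graphs.

Proof. Let `C := {y | Relation.ReflTransGen r x y}` be the infinite component. For `u : M` let
`R u := {y | Relation.ReflTransGen (fun a b => r a b ∧ a ∉ D ∧ b ∉ D) u y}`.
(1) Some `u ∈ C \ D` has infinite `R u`. If `D ∩ C = ∅`: `u = x`, `R x = C` (a path in `C` avoids
`D`). Otherwise let `B := {u | ∃ d ∈ D, r d u} ∪ {x}`, finite. Every `y ∈ C \ D` is in `R u` for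
some `u ∈ B \ D` with `u ∈ C`: induction along the path from `x` to `y`: the start `x` (if
`x ∉ D`, `x ∈ R x`); for a step `a → b`, `b ∉ D`: if `a ∉ D` then `a ∈ R u` and `b ∈ R u`; if
`a ∈ D` then `b ∈ B`, `b ∈ R b`. If all these `R u` are finite, then `C ⊆ D ∪ ⋃ u ∈ B, R u` is
finite (treat `u` with infinite `R u` as the ones we look for).
(2) Let `R u` be infinite, `u ∉ D`. By induction on `k` there is a finite set `E ⊆ R u` with
`u ∈ E`, `E.ncard = k + 1`, and every element of `E` is connected with `u` within `E`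
(`Relation.ReflTransGen (fun a b => a ∈ E ∧ b ∈ E ∧ r a b) u e`): `E = {u}`; if `E` is given, some
`y ∈ R u` is not in `E`, and on the path from `u ∈ E` to `y` there is a step `a → b` with
`a ∈ E`, `b ∉ E` (induction along the path); take `insert b E`. Elements of `R u` are not in `D`
and in `C` (if `u ∈ C`). By the symmetry of `r` (`Relation.ReflTransGen.symmetric`) all pairs of
elements of `E` are connected within `E`. -/
def St_CMG : Prop := ∀ (M : Type) (r : M → M → Prop) (x : M) (D : Set M) (k : ℕ),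
  (∀ a b, r a b → r b a) → (∀ a, {b | r a b}.Finite) → D.Finite →
  {y | Relation.ReflTransGen r x y}.Infinite →
  ∃ E : Set M, E.Finite ∧ k ≤ E.ncard ∧ (∀ e ∈ E, e ∉ D ∧ Relation.ReflTransGen r x e) ∧
    ∀ a ∈ E, ∀ b ∈ E, Relation.ReflTransGen (fun u v => u ∈ E ∧ v ∈ E ∧ r u v) a b

/-- [CMF] (0.8 h; uses `St_SZL`, `St_SQW`, `St_CMG`) The components outside of `A` are finite.

Proof. Suppose `x ∉ A` and `bk S g univ A x` is infinite. Let `r := Adj S g univ A`; it is
symmetric and locally finite: for `a ∉ A` the elements `b` with `Ge S g a b` are finitely many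
(`LF`) and those with `Ge S g b a` too (hypothesis); for `a ∈ A` there are none.
Let `P W := Cld S g (W ∪ A) ∧ (W \ A).Nonempty ∧ ∀ x ∈ W \ A, ∀ y ∈ W \ A, Cn S g W A x y`. The
hypothesis of `St_SQW` for `A` and `P`: given `D` finite and `k`, let
`D' := {y | ∃ d ∈ D, d ∉ A ∧ Ge S g y d}` (finite, a union over `D \ A`). `St_CMG` for `r`, `x`,
`D'`, `k + 2` gives `E`. `E` has at least two elements and is connected by `r`, so all its
elements are outside of `A` (the first step of a path from `a` to a different `b`; or: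
`e ∈ E` is reached from `x ∉ A` by `r`, and `r`-steps end outside of `A`). Let
`W := ⋃ e ∈ E, dn S g e`, finite, closed, `E ⊆ W \ A`, so `k ≤ (W \ A).ncard`. `W ∩ D ⊆ A`: if
`d ∈ D`, `d ∉ A`, `Ge S g e d`, then `e ∈ D'`, contradiction. Connected: every `w ∈ W \ A` is
adjacent (in `W \ A`) to some `e ∈ E`, and the elements of `E` are connected within `E ⊆ W`.
`St_SQW` gives the sequence which contradicts `St_SZL`. -/
def St_CMF : Prop := ∀ (L : FirstOrder.Language.{0, 0}) (M : Type) (S : L.Structure M)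
  (g : Set (L.Relations 2)) (F A G : Set M) (κ : Ordinal.{0}), F.Finite → LF S g →
  PigC S g F → A.Countable → Cld S g A → F ⊆ A → G.Finite → G ⊆ A → κ < om1 →
  Vis S g A G κ → (∀ z ∉ A, {y | Ge S g y z}.Finite) → ∀ x ∉ A, (bk S g univ A x).Finite

/-! ## Automorphisms of the countable part -/

/-- [NPM] (0.6 h; no other module; Mathlib `Mathlib.GroupTheory.CosetCover`) P. M. Neumann's
separation lemma.

Proof. Suppose for every `h` there are `b ∈ B` and `c ∈ B'` with `h • b = c`. Let `I` be the finite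
set of all `(b, c) ∈ B ×ˢ B'` such that some `h` satisfies `h • b = c`, and choose `h b c` such.
`{h | h • b = c}` is the left coset `h b c • (MulAction.stabilizer G b : Set G)`. So finitely many
left cosets of the stabilisers of elements of `B` cover `G`. By
`Subgroup.exists_finiteIndex_of_leftCoset_cover` one of these stabilisers has finite index, so the
orbit is finite (`MulAction.orbitEquivQuotientStabilizer`, `Subgroup.FiniteIndex` gives
`Finite (G ⧸ H)`), contradiction. -/
def St_NPM : Prop := ∀ (G : Type) [Group G] (α : Type) [MulAction G α] (B B' : Set α),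
  B.Finite → B'.Finite → (∀ b ∈ B, (MulAction.orbit G b).Infinite) →
  ∃ h : G, ∀ b ∈ B, h • b ∉ B'

/-- [AUT] (0.8 h; no other module) Extension to automorphisms at a Scott level.

Proof. As `iso_of_system` and `scott` in `VB/B.lean`. First: if `q` is a finite subset of
`A ×ˢ A` and `BFR S S A A κ q`, then (by `SL`, level `κ + 1 < om1`) for every `x ∈ A` there is
`y ∈ A` with `BFR S S A A κ (insert (x, y) q)`, and for every `y ∈ A` there is such an `x ∈ A`.
If `A` is empty take the identity. Otherwise enumerate `A` by a surjective `e : ℕ → A`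
(`exists_surjective_nat`, `A.Countable`). Build an increasing sequence `s n` of finite subsets of
`A ×ˢ A` with `BFR S S A A κ (s n)`, `s 0 = p`, such that `e n` is a first and a second
coordinate of a pair of `s (n + 1)`. The union is the graph of a permutation of `A` (functional and
injective by `AtEq`, total and onto by construction): construct `σ := Equiv.ofBijective` on the
subtype `A`. Relations are preserved because every tuple is contained in some `s n`
(`Finset.univ.sup`), `σ` fixes `F1` because `(x, x) ∈ dg F1 ⊆ p`. -/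
def St_AUT : Prop := ∀ (L : FirstOrder.Language.{0, 0}) (M : Type) (S : L.Structure M)
  (A F1 : Set M) (κ : Ordinal.{0}) (p : Set (M × M)), A.Countable → κ < om1 → SL S A κ →
  p.Finite → (∀ a ∈ p, a.1 ∈ A ∧ a.2 ∈ A) → dg F1 ⊆ p → BFR S S A A κ p →
  ∃ σ : Equiv.Perm A, Aut1 S A F1 σ ∧ ∀ a b : A, ((a : M), (b : M)) ∈ p → σ a = b

/-- [NEA] (1 h; uses `St_NPM`) The orbits of the automorphism group of the countable part are
finite.

Proof. Let `A := Cc S g ∪ F1`, it is closed under steps (`Cc` is, by transitivity). Let `H` be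
the subgroup of `Equiv.Perm A` of all `σ` with `Aut1 S A F1 σ` (closed under products and
inverses; for the inverse apply the equivalence to `σ⁻¹ ∘ v`). It acts on `A` (`Subgroup`
`MulAction`, `σ • a = σ a`). Facts for `σ ∈ H`, `x y : A`: `Ge S g x y ↔ Ge S g (σ x) (σ y)` (a
path which starts in `A` stays in `A`; induct along the path, steps are preserved by `Aut1`; the
other direction by `σ⁻¹`); hence `dn S g (σ y)` is the image of `dn S g y` (subsets of `A`) and
`ht S g (σ y) = ht S g y`.
Suppose the orbit of `a0 : A` is infinite. `a0 ∉ F1` (elements of `F1` are fixed), so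
`a0 ∈ Cc S g`. If `y : A` with `Ge S g y a0` then the orbit of `y` is infinite: otherwise the orbit
of `a0` is contained in the finite union of the `dn S g y'` over `y'` in the orbit of `y`. For
every `k` there is `y : A` with `Ge S g y a0`, `k < ht S g y`: `a0 ∈ Cc S g` gives `y` above `a0`
with height `> max k n`, `y ∈ Hv S g n = Cc S g ⊆ A`; choose `Y k` such.
Build by recursion elements `w i : A` with strictly increasing heights, infinite orbits, which are
pairwise incomparable: if `w 0, ..., w (i - 1)` are given (as a finite set `D ⊆ A` with a bound `k`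
of the heights, all with infinite orbits), let `y := Y k` and
`B := {y} ∪ {v : A | Ge S g y v ∧ orbit of v infinite}`,
`B' := D ∪ {v : A | ∃ d ∈ D, Ge S g d v}`, both finite; `St_NPM` gives `σ ∈ H` with `σ b ∉ B'` for
`b ∈ B`; put `w i := σ y`, of height `ht S g y > k`. `¬ Ge S g d (σ y)` for `d ∈ D` as
`σ y ∉ B'`. `¬ Ge S g (σ y) d`: otherwise `v := σ⁻¹ d` satisfies `Ge S g y v` and has an infinite
orbit, so `v ∈ B` and `σ v = d ∈ D ⊆ B'`, contradiction. (A convenient form of the recursion:
`exists_seq_of_forall_finset_exists` or `Nat.rec` on pairs of a finite set and a bound.) The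
sequence `w` contradicts `NoAnt`. -/
def St_NEA : Prop := ∀ (L : FirstOrder.Language.{0, 0}) (M : Type) (S : L.Structure M)
  (g : Set (L.Relations 2)) (F1 A : Set M) (n : ℕ), LF S g → NoAnt S g → Hv S g n = Cc S g →
  F1.Finite → Cld S g F1 → A = Cc S g ∪ F1 → ∀ a : A, {b : A | ∃ σ, Aut1 S A F1 σ ∧ σ a = b}.Finite

/-- [NEU] (0.6 h; uses `St_AUT`, `St_NEA`) An invariant finite-to-one map on the countable part.

Proof. Let `κ < om1` be a Scott level of `A` (`exists_SL_of_countable`). Let `e : A → ℕ` be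
injective (`A.Countable`). For `x ∈ A` let `O x := {b : A | ∃ σ, Aut1 S A F1 σ ∧ σ x = b}`, finite
by `St_NEA`, containing `x`. Let `ν x := sInf (e '' O x)` for `x ∈ A` and `0` otherwise. If
`x, x' ∈ A` and `BFR S S A A κ (insert (x, x') (dg F1))`, then by `St_AUT` there is `σ` with
`Aut1 S A F1 σ`, `σ x = x'`; `O x = O x'` (`Aut1` is closed under composition and inverses), so
`ν x = ν x'`. The set `{x ∈ A | ν x = k}` is finite: `ν x = k` implies that `k = e b` for some
`b ∈ O x` (`Nat.sInf_mem`), and then `x ∈ O b`; as `e` is injective there is at most one `b` with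
`e b = k`, and `O b` is finite. -/
def St_NEU : Prop := ∀ (L : FirstOrder.Language.{0, 0}) (M : Type) (S : L.Structure M)
  (g : Set (L.Relations 2)) (F1 A : Set M) (n : ℕ), LF S g → NoAnt S g → Hv S g n = Cc S g →
  F1.Finite → Cld S g F1 → A = Cc S g ∪ F1 → A.Countable →
  ∃ (ν : M → ℕ) (κ : Ordinal.{0}), κ < om1 ∧ (∀ k, {x | x ∈ A ∧ ν x = k}.Finite) ∧
    ∀ x ∈ A, ∀ x' ∈ A, BFR S S A A κ (insert (x, x') (dg F1)) → ν x = ν x'

/-- [DTS] (0.8 h; uses `St_VSA`, `St_ANT`, `St_CNN`, `St_CCT`, `St_USF`, `St_CMF`, `St_NEU`) The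
labels of a large structure.

Proof. `NoAnt S g` by `St_ANT`; `n` by `St_CNN`; `Cc S g` is countable by `St_CCT`; the set `U` of
`St_USF` is finite. Let `F1 := clo S g F ∪ clo S g U`, finite (`LF`) and closed; `F ⊆ F1`, `U ⊆ F1`
(`Relation.ReflTransGen.refl`). Let `A := Cc S g ∪ F1 = Hv S g n ∪ F1`, countable and closed.
`Vis S g A F1 (ω + ω + 1)`: for closed `X, X' ⊇ A` and a pair `(x, x')`: `x ∈ Hv S g n ↔
x' ∈ Hv S g n` by `St_VSA`, and `x ∈ F1 ↔ x' ∈ F1` by `AtEq` (if `x ∈ F1` then `(x, x) ∈ dg F1`,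
so `x' = x`; similarly for `x'`). For `z ∉ A`: `{y | Ge S g y z}` is finite, as `z ∉ U`. So
`St_CMF` (with `G = F1`) gives the finiteness of `bk S g univ A x` for `x ∉ A`. `St_NEU` gives `ν`,
`κ`. Let `f : Fin m → M` enumerate `F1` (`Set.Finite.fin_param` or `hF1.toFinset.equivFin`):
`range f = F1`, `prs f f = dg F1` (as sets of pairs `(f i, f i)`), `AA S g n f = A`. -/
def St_DTS : Prop := ∀ (L : FirstOrder.Language.{0, 0}) (M : Type) (S : L.Structure M)
  (g : Set (L.Relations 2)) (F : Set M), F.Finite → LF S g → PigC S g F →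
  ∃ (n m : ℕ) (f : Fin m → M) (ν : M → ℕ) (κ : Ordinal.{0}), κ < om1 ∧ F ⊆ range f ∧
    LDat S g n f ν κ

end HEC
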