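import Mathlib
import Pool.Agent.HEC.StP

/-!
# HEC, ANT: no infinite antichains with increasing heights (helper35)
-/

set_option autoImplicit false
set_option linter.unusedVariables false

namespace HEC

open Set Pool.Agent.Helper5.DU Pool.Agent.Helper6.Str Pool.Agent.Helper79.VC
  Pool.Agent.Helper97.LO Pool.Agent.Helper97.VC HER HERN

variable {L : FirstOrder.Language.{0, 0}} {M N : Type}

private theorem ANT_dn_cld (S : L.Structure M) (g : Set (L.Relations 2)) (a : M) :
    Cld S g (dn S g a) := fun _ hb _ hc => Relation.ReflTransGen.tail hb hc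

private theorem ANT_clo_cld (S : L.Structure M) (g : Set (L.Relations 2)) (F : Set M) :
    Cld S g (clo S g F) := by
  rintro b ⟨a, ha, hb⟩ c hc
  exact ⟨a, ha, Relation.ReflTransGen.tail hb hc⟩

private theorem ANT_ht {S : L.Structure M} {g : Set (L.Relations 2)} (lf : LF S g) {x y : M}
    (h : Ge S g y x) : ht S g x ≤ ht S g y :=
  ncard_le_ncard (fun _ hz => Relation.ReflTransGen.trans h hz) (lf y)

private theorem ANT_clo_fin {S : L.Structure M} {g : Set (L.Relations 2)} (lf : LF S g) {F : Set M}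
    (hF : F.Finite) : (clo S g F).Finite := by
  have : clo S g F = ⋃ a ∈ F, dn S g a := by
    ext b
    simp only [clo, dn, mem_iUnion, Set.mem_ofPred_eq, exists_prop]
  rw [this]
  exact hF.biUnion fun a _ => lf a

private theorem ANT_clo_ht {S : L.Structure M} {g : Set (L.Relations 2)} (lf : LF S g) {F : Set M}
    (hF : F.Finite) {y : M} (hy : y ∈ clo S g F) : ht S g y ≤ (clo S g F).ncard := by
  obtain ⟨a, ha, hb⟩ := hy
  exact ncard_le_ncard (fun z hz => ⟨a, ha, Relation.ReflTransGen.trans hb hz⟩) (ANT_clo_fin lf hF)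

/-- the heights above `c` of the maximal elements -/
private def ANT_Z (S : L.Structure M) (g : Set (L.Relations 2)) (c : ℕ) (X : Set M) : Set ℕ :=
  {k | ∃ y ∈ X, ht S g y = k ∧ c < k ∧ ∀ w ∈ X, Ge S g w y → Ge S g y w}

private theorem ANT_Z_sub (h1 : St_VSO) (h2 : St_VSH) {S : L.Structure M} {g : Set (L.Relations 2)}
    (lf : LF S g) (c : ℕ) {X X' : Set M} (cX : Cld S g X) (cX' : Cld S g X') {p : Set (M × M)}
    (hB : BFR S S X X' (Ordinal.omega0 + Ordinal.omega0 + Ordinal.omega0) p) :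
    ANT_Z S g c X ⊆ ANT_Z S g c X' := by
  rintro k ⟨y, hy, hk, hc, hmax⟩
  have l1 : Ordinal.omega0.{0} + Ordinal.omega0 + 1 < Ordinal.omega0 + Ordinal.omega0 + Ordinal.omega0 :=
    add_lt_add_right Ordinal.one_lt_omega0 _
  obtain ⟨y', hy', hB1⟩ := hB.forth l1 hy
  have l2 : Ordinal.omega0.{0} + Ordinal.omega0 < Ordinal.omega0 + Ordinal.omega0 + 1 :=
    lt_add_of_pos_right _ zero_lt_one
  have e1 : ht S g y = ht S g y' := h2 L M M S S g X X' _ _ lf lf cX cX' l2.le hB1 (y, y')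
    (mem_insert _ _) hy hy'
  refine ⟨y', hy', e1 ▸ hk, hc, fun w' hw' hge => ?_⟩
  obtain ⟨w, hw, hB2⟩ := hB1.back l2 hw'
  have l3 : Ordinal.omega0.{0} ≤ Ordinal.omega0 + Ordinal.omega0 := le_self_add
  have e2 := h1 L M M S S g X X' _ _ cX cX' l3 hB2 (w, w') (mem_insert _ _) (y, y')
    (mem_insert_of_mem _ (mem_insert _ _)) hw hw'
  have e3 := h1 L M M S S g X X' _ _ cX cX' l3 hB2 (y, y') (mem_insert_of_mem _ (mem_insert _ _))
    (w, w') (mem_insert _ _) hy hy'
  exact e3.1 (hmax w hw (e2.2 hge))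

/-- the index -/
private def ANT_i (f : ℕ → Bool) (n : ℕ) : ℕ := 2 * n + (if f n then 1 else 0)

private theorem ANT_i_inj {f f' : ℕ → Bool} {n n' : ℕ} (h : ANT_i f n = ANT_i f' n') :
    n = n' ∧ f n = f' n' := by
  unfold ANT_i at h
  cases hf : f n <;> cases hf' : f' n' <;> simp [hf, hf'] at h ⊢ <;> omega

/-- the closed sets -/
private def ANT_X (S : L.Structure M) (g : Set (L.Relations 2)) (F : Set M) (z : ℕ → M)
    (f : ℕ → Bool) : Set M := clo S g F ∪ ⋃ n, dn S g (z (ANT_i f n))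

private theorem ANT_X_cld (S : L.Structure M) (g : Set (L.Relations 2)) (F : Set M) (z : ℕ → M)
    (f : ℕ → Bool) : Cld S g (ANT_X S g F z f) := by
  rintro a (ha | ha) b hb
  · exact Or.inl (ANT_clo_cld S g F a ha b hb)
  · obtain ⟨n, hn⟩ := mem_iUnion.1 ha
    exact Or.inr (mem_iUnion.2 ⟨n, ANT_dn_cld S g _ a hn b hb⟩)

private theorem ANT_X_mem (S : L.Structure M) (g : Set (L.Relations 2)) (F : Set M) (z : ℕ → M)
    (f : ℕ → Bool) (n : ℕ) : z (ANT_i f n) ∈ ANT_X S g F z f :=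
  Or.inr (mem_iUnion.2 ⟨n, Relation.ReflTransGen.refl⟩)

private theorem ANT_Z_eq {S : L.Structure M} {g : Set (L.Relations 2)} {F : Set M} (hF : F.Finite)
    (lf : LF S g) {z : ℕ → M} (hz : ∀ m n, m ≠ n → ¬ Ge S g (z m) (z n))
    (hc : ∀ n, (clo S g F).ncard < ht S g (z n)) (f : ℕ → Bool) :
    ANT_Z S g (clo S g F).ncard (ANT_X S g F z f) = {k | ∃ n, ht S g (z (ANT_i f n)) = k} := by
  ext k
  constructor
  · rintro ⟨y, hy, hk, hck, hmax⟩
    rcases hy with hy | hy
    · have := ANT_clo_ht lf hF hy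
      omega
    · obtain ⟨n, hn⟩ := mem_iUnion.1 hy
      have h1 : Ge S g (z (ANT_i f n)) y := hn
      have h2 := hmax _ (ANT_X_mem S g F z f n) h1
      exact ⟨n, by rw [← hk]; exact le_antisymm (ANT_ht lf h2) (ANT_ht lf h1)⟩
  · rintro ⟨n, rfl⟩
    refine ⟨z (ANT_i f n), ANT_X_mem S g F z f n, rfl, hc _, fun w hw hge => ?_⟩
    rcases hw with hw | hw
    · have h1 : z (ANT_i f n) ∈ clo S g F := by
        obtain ⟨a, ha, hb⟩ := hw
        exact ⟨a, ha, Relation.ReflTransGen.trans hb hge⟩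
      have h2 := ANT_clo_ht lf hF h1
      have h3 := hc (ANT_i f n)
      omega
    · obtain ⟨n', hn'⟩ := mem_iUnion.1 hw
      have h1 : Ge S g (z (ANT_i f n')) w := hn'
      have h2 : Ge S g (z (ANT_i f n')) (z (ANT_i f n)) := Relation.ReflTransGen.trans h1 hge
      have h3 : ANT_i f n' = ANT_i f n := by
        by_contra hne
        exact hz _ _ hne h2
      rw [← h3]
      exact h1

/-- [ANT] no infinite antichain with increasing heights -/
theorem thm_ANT (h1 : St_VSO) (h2 : St_VSH) : St_ANT := by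
  intro L M S g F hF lf hP
  rintro ⟨y, hanti, hmono⟩
  set c := (clo S g F).ncard with hc
  set z : ℕ → M := fun n => y (n + c + 1) with hz
  have hzm : StrictMono fun n => ht S g (z n) := fun m n hmn => hmono (by omega)
  have hza : ∀ m n, m ≠ n → ¬ Ge S g (z m) (z n) := fun m n hmn => hanti _ _ (by omega)
  have hzc : ∀ n, c < ht S g (z n) := by
    intro n
    have h3 := hmono.le_apply (x := n + c + 1)
    have h4 : n + c + 1 ≤ ht S g (z n) := h3
    omega
  have hX : ∀ f, (ANT_X S g F z f).Countable ∧ (ANT_X S g F z f).Infinite ∧ F ⊆ ANT_X S g F z f ∧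
      Cld S g (ANT_X S g F z f) := by
    intro f
    refine ⟨(ANT_clo_fin lf hF).countable.union (countable_iUnion fun n => (lf _).countable), ?_, ?_,
      ANT_X_cld S g F z f⟩
    · refine infinite_of_injective_forall_mem (f := fun n => z (ANT_i f n)) ?_
        (ANT_X_mem S g F z f)
      intro m n hmn
      have h3 : (fun n => ht S g (z n)) (ANT_i f m) = (fun n => ht S g (z n)) (ANT_i f n) :=
        congrArg (ht S g) hmn
      exact (ANT_i_inj (hzm.injective h3)).1
    · intro x hx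
      exact Or.inl ⟨x, hx, Relation.ReflTransGen.refl⟩
  obtain ⟨f, f', hne, hB⟩ := hP (ANT_X S g F z) F (Ordinal.omega0 + Ordinal.omega0 + Ordinal.omega0)
    hF subset_rfl (add_lt_om1 (add_lt_om1 omega_lt_om1 omega_lt_om1) omega_lt_om1) hX
  have hB' : BFR S S (ANT_X S g F z f') (ANT_X S g F z f)
      (Ordinal.omega0 + Ordinal.omega0 + Ordinal.omega0) ∅ := hB.symm fun a ha => ha.elim
  have e1 := ANT_Z_sub h1 h2 lf c (hX f).2.2.2 (hX f').2.2.2 hB
  have e2 := ANT_Z_sub h1 h2 lf c (hX f').2.2.2 (hX f).2.2.2 hB'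
  have e3 : ANT_Z S g c (ANT_X S g F z f) = ANT_Z S g c (ANT_X S g F z f') :=
    Subset.antisymm e1 e2
  rw [ANT_Z_eq hF lf hza hzc f, ANT_Z_eq hF lf hza hzc f'] at e3
  apply hne
  funext n
  have h3 : ht S g (z (ANT_i f n)) ∈ {k | ∃ n, ht S g (z (ANT_i f n)) = k} := ⟨n, rfl⟩
  rw [e3] at h3
  obtain ⟨n', hn'⟩ := h3
  obtain ⟨h4, h5⟩ := ANT_i_inj (hzm.injective hn')
  rw [h4] at h5
  exact h5.symm

end HEC
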