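import Pool.Agent.HEC.StP

/-!
# HEC [AUT]: extension to automorphisms at a Scott level (helper33)
-/

set_option autoImplicit false
set_option linter.unusedVariables false

namespace HEC

open Set Pool.Agent.Helper5.DU Pool.Agent.Helper6.Str Pool.Agent.Helper79.VC
  Pool.Agent.Helper97.LO Pool.Agent.Helper97.VC HER HERN

theorem thm_AUT : St_AUT := by
  intro L M S A F1 κ p hA hκ hSL hp hpA hF1 hbf
  classical
  rcases A.eq_empty_or_nonempty with rfl | hne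
  · exact ⟨Equiv.refl _, ⟨fun n R v => Iff.rfl, fun x _ => rfl⟩,
      fun a => absurd a.2 (notMem_empty _)⟩
  have hcA : Countable A := hA.to_subtype
  have hnA : Nonempty A := hne.to_subtype
  obtain ⟨e, he⟩ := exists_surjective_nat A
  have hlt : κ < κ + 1 := Order.lt_add_one_iff.mpr le_rfl
  have h1 : ∀ q : Set (M × M), q.Finite → (∀ a ∈ q, a.1 ∈ A ∧ a.2 ∈ A) → BFR S S A A κ q →
      ∀ x : A, ∃ y : A, BFR S S A A κ (insert ((x : M), (y : M)) q) := by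
    intro q hq hqA hqb x
    obtain ⟨y, hy, h⟩ := (hSL q hq hqA hqb (κ + 1) (add_one_lt_om1 hκ)).forth hlt x.2
    exact ⟨⟨y, hy⟩, h⟩
  have h2 : ∀ q : Set (M × M), q.Finite → (∀ a ∈ q, a.1 ∈ A ∧ a.2 ∈ A) → BFR S S A A κ q →
      ∀ y : A, ∃ x : A, BFR S S A A κ (insert ((x : M), (y : M)) q) := by
    intro q hq hqA hqb y
    obtain ⟨x, hx, h⟩ := (hSL q hq hqA hqb (κ + 1) (add_one_lt_om1 hκ)).back hlt y.2
    exact ⟨⟨x, hx⟩, h⟩
  have hstep : ∀ (k : ℕ) (q : {q : Set (M × M) // q.Finite ∧ (∀ a ∈ q, a.1 ∈ A ∧ a.2 ∈ A) ∧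
      BFR S S A A κ q}), ∃ q' : {q : Set (M × M) // q.Finite ∧ (∀ a ∈ q, a.1 ∈ A ∧ a.2 ∈ A) ∧
      BFR S S A A κ q}, q.1 ⊆ q'.1 ∧ (∃ y : A, ((e k : M), (y : M)) ∈ q'.1) ∧
        ∃ x : A, ((x : M), (e k : M)) ∈ q'.1 := by
    rintro k ⟨q, hq, hqA, hqb⟩
    obtain ⟨y, hy⟩ := h1 q hq hqA hqb (e k)
    have hqA' : ∀ a ∈ insert ((e k : M), (y : M)) q, a.1 ∈ A ∧ a.2 ∈ A := by
      rintro a (rfl | ha)
      · exact ⟨(e k).2, y.2⟩
      · exact hqA a ha
    obtain ⟨x, hx⟩ := h2 _ (hq.insert _) hqA' hy (e k)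
    refine ⟨⟨_, (hq.insert _).insert _, ?_, hx⟩, (subset_insert _ _).trans (subset_insert _ _),
      ⟨y, mem_insert_of_mem _ (mem_insert _ _)⟩, ⟨x, mem_insert _ _⟩⟩
    rintro a (rfl | ha)
    · exact ⟨x.2, (e k).2⟩
    · exact hqA' a ha
  choose nx hnx1 hnx2 hnx3 using hstep
  let s : ℕ → {q : Set (M × M) // q.Finite ∧ (∀ a ∈ q, a.1 ∈ A ∧ a.2 ∈ A) ∧
      BFR S S A A κ q} := fun n => n.rec ⟨p, hp, hpA, hbf⟩ (fun k q => nx k q)
  have hs0 : (s 0).1 = p := rfl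
  have hs : ∀ n, s (n + 1) = nx n (s n) := fun n => rfl
  have hmono : ∀ n m, n ≤ m → (s n).1 ⊆ (s m).1 := by
    intro n m hnm
    induction m, hnm using Nat.le_induction with
    | base => exact Subset.rfl
    | succ m _ ih => rw [hs]; exact ih.trans (hnx1 m (s m))
  have hf : ∀ x : A, ∃ (n : ℕ) (y : A), ((x : M), (y : M)) ∈ (s n).1 := by
    intro x
    obtain ⟨n, rfl⟩ := he x
    obtain ⟨y, hy⟩ := hnx2 n (s n)
    exact ⟨n + 1, y, by rw [hs]; exact hy⟩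
  choose N f hf using hf
  have hat : ∀ n, AtEq S S (s n).1 := fun n => (s n).2.2.2.atEq
  have huniq : ∀ (a b : A) (n : ℕ), ((a : M), (b : M)) ∈ (s n).1 → f a = b := by
    intro a b n hn
    have h3 := hmono _ (max (N a) n) (le_max_left _ _) (hf a)
    have h4 := hmono _ (max (N a) n) (le_max_right _ _) hn
    exact Subtype.ext (((hat _).1 _ h3 _ h4).mp rfl)
  have hinj : Function.Injective f := by
    intro a b hab
    have ha := hmono _ (max (N a) (N b)) (le_max_left _ _) (hf a)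
    have hb := hmono _ (max (N a) (N b)) (le_max_right _ _) (hf b)
    exact Subtype.ext (((hat _).1 _ ha _ hb).mpr (congrArg Subtype.val hab))
  have hsurj : Function.Surjective f := by
    intro y
    obtain ⟨n, rfl⟩ := he y
    obtain ⟨x, hx⟩ := hnx3 n (s n)
    rw [← hs] at hx
    exact ⟨x, huniq x _ (n + 1) hx⟩
  refine ⟨Equiv.ofBijective f ⟨hinj, hsurj⟩, ⟨fun n R v => ?_, fun x hx => ?_⟩, fun a b hab => ?_⟩
  · let m := Finset.univ.sup fun i => N (v i)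
    have hm : ∀ i, ((v i : M), (f (v i) : M)) ∈ (s m).1 := fun i =>
      hmono _ m (Finset.le_sup (f := fun i => N (v i)) (Finset.mem_univ i)) (hf (v i))
    exact (hat m).2 n R (fun i => ((v i : M), (f (v i) : M))) hm
  · refine huniq x x 0 ?_
    rw [hs0]
    exact hF1 ⟨(x : M), hx, rfl⟩
  · refine huniq a b 0 ?_
    rw [hs0]
    exact hab

end HEC
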