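import Pool.Agent.HEC.StQ

/-!
# HEC [BKX]: pieces which are unions of blocks (helper42)
-/

set_option autoImplicit false
set_option linter.unusedVariables false

namespace HEC

open Set Pool.Agent.Helper5.DU Pool.Agent.Helper6.Str Pool.Agent.Helper79.VC
  Pool.Agent.Helper97.LO Pool.Agent.Helper97.VC HER HERN

section

variable {L : FirstOrder.Language.{0, 0}} {M : Type} {S : L.Structure M}
  {g : Set (L.Relations 2)} {A : Set M} {ν : M → ℕ}

private theorem BKX_in {x : M} (h : x ∈ A) : lb S g A ν x = Sum.inr (ν x) := by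
  unfold lb
  rw [dif_pos h]

private theorem BKX_out {x : M} (h : x ∉ A) :
    lb S g A ν x = Sum.inl ⟨bk S g univ A x, x, h, rfl⟩ := by
  unfold lb
  rw [dif_neg h]

private theorem BKX_symm {X : Set M} {x y : M} (h : Cn S g X A x y) : Cn S g X A y x := by
  induction h with
  | refl => exact Relation.ReflTransGen.refl
  | tail _ hbc ih => exact Relation.ReflTransGen.head ⟨hbc.2.1, hbc.1, hbc.2.2.symm⟩ ih

private theorem BKX_three {x y : M} (hx : x ∉ A) (hy : y ∉ A) :
    lb S g A ν x = lb S g A ν y ↔ Cn S g univ A x y := by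
  rw [BKX_out hx, BKX_out hy]
  constructor
  · intro h
    have h1 : bk S g univ A x = bk S g univ A y := congrArg Subtype.val (Sum.inl_injective h)
    have h2 : y ∈ bk S g univ A y := Relation.ReflTransGen.refl
    rw [← h1] at h2
    exact h2
  · intro h
    have h1 : bk S g univ A x = bk S g univ A y := by
      ext z
      exact ⟨fun hz => (BKX_symm h).trans hz, fun hz => h.trans hz⟩
    exact congrArg Sum.inl (Subtype.ext h1)

private theorem BKX_Xs {U : Set (QB S g A)} {x y : M} (h : lb S g A ν x = lb S g A ν y)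
    (hx : x ∈ Xs (lb S g A ν) U) : y ∈ Xs (lb S g A ν) U := fun b hb => hx b (h.trans hb)

end

theorem thm_BKX : St_BKX := by
  intro L M S g A ν U hA
  refine ⟨?_, ?_, fun x hx y hy => BKX_three hx hy, ?_⟩
  · intro a ha b hab
    by_cases hb : b ∈ A
    · intro β hβ
      rw [BKX_in hb] at hβ
      cases hβ
    · have ha' : a ∉ A := fun h => hb (hA a h b hab)
      have h1 : Cn S g univ A a b := Relation.ReflTransGen.single
        ⟨⟨mem_univ _, ha'⟩, ⟨mem_univ _, hb⟩, Or.inl (Relation.ReflTransGen.single hab)⟩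
      exact BKX_Xs ((BKX_three ha' hb).2 h1) ha
  · intro x hx hxA y
    constructor
    · intro h
      induction h with
      | refl => exact Relation.ReflTransGen.refl
      | @tail b c hxb hbc ih =>
        have hb : b ∈ Xs (lb S g A ν) U := BKX_Xs ((BKX_three hxA hbc.1.2).2 hxb) hx
        have hc : c ∈ Xs (lb S g A ν) U :=
          BKX_Xs ((BKX_three hxA hbc.2.1.2).2 (Relation.ReflTransGen.tail hxb hbc)) hx
        exact Relation.ReflTransGen.tail ih ⟨⟨hb, hbc.1.2⟩, ⟨hc, hbc.2.1.2⟩, hbc.2.2⟩
    · intro h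
      induction h with
      | refl => exact Relation.ReflTransGen.refl
      | @tail b c _ hab ih =>
        exact Relation.ReflTransGen.tail ih ⟨⟨mem_univ _, hab.1.2⟩, ⟨mem_univ _, hab.2.1.2⟩,
          hab.2.2⟩
  · intro a ha β hβ
    rw [BKX_in ha] at hβ
    cases hβ

end HEC
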