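import Pool.Agent.HEC.StQ

/-!
# HEC, module BQQ: equivalence of pieces gives equivalence of the quotients
-/

set_option autoImplicit false
set_option linter.unusedVariables false

namespace HEC

open Set Pool.Agent.Helper5.DU Pool.Agent.Helper6.Str Pool.Agent.Helper79.VC
  Pool.Agent.Helper97.LO Pool.Agent.Helper97.VC HER HERN

private theorem BQQ_rho_fin {Q Q' : Type} (k : ℕ) {pq : Set (Q × Q')} (h : pq.Finite) :
    (rho k pq).Finite :=
  (h.image _).union ((finite_lt_nat k).image _)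

/-- the atomic part: lifts -/
private theorem BQQ_at (hMVS : St_MVS) {L : FirstOrder.Language.{0, 0}} {M M' Q Q' : Type}
    (S : L.Structure M) (lab : M → Q ⊕ ℕ) (S' : L.Structure M') (lab' : M' → Q' ⊕ ℕ)
    (c : Set (M × M')) (γ0 : Ordinal.{0}) (U : Set Q) (V : Set Q') (hF : Fib lab)
    (hF' : Fib lab') (hVL : VL S S' lab lab' c γ0 (Xs lab U) (Xs lab' V)) (γ : Ordinal.{0})
    (p : Set (M × M')) (pq : Set (Q × Q')) (hpq : pq.Finite) (hcp : c ⊆ p)
    (hpU : ∀ a ∈ p, a.1 ∈ Xs lab U ∧ a.2 ∈ Xs lab' V)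
    (hrep : ∀ r ∈ pq, ∃ a ∈ p, lab a.1 = Sum.inl r.1 ∧ lab' a.2 = Sum.inl r.2)
    (h : BFR S S' (Xs lab U) (Xs lab' V) (γ0 + Ordinal.omega0 + γ) p) (k : ℕ) :
    ∃ p, AtEq S S' p ∧ Lft lab lab' (rho k pq) p := by
  have hfin := BQQ_rho_fin k hpq
  have hD : {x | lab x ∈ Prod.fst '' rho k pq}.Finite :=
    (hfin.image Prod.fst).preimage' fun l _ => hF.fin l
  have hE : {y | lab' y ∈ Prod.snd '' rho k pq}.Finite :=
    (hfin.image Prod.snd).preimage' fun l _ => hF'.fin l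
  have hDU : {x | lab x ∈ Prod.fst '' rho k pq} ⊆ Xs lab U := by
    rintro x ⟨r, hr, hx⟩ b hb
    rcases hr with ⟨s, hs, rfl⟩ | ⟨j, hj, rfl⟩
    · obtain ⟨a, ha, h1, h2⟩ := hrep s hs
      refine (hpU a ha).1 b ?_
      rw [h1, ← hb, ← hx]
    · exact absurd (hx.trans hb) (by simp)
  have hEV : {y | lab' y ∈ Prod.snd '' rho k pq} ⊆ Xs lab' V := by
    rintro x ⟨r, hr, hx⟩ b hb
    rcases hr with ⟨s, hs, rfl⟩ | ⟨j, hj, rfl⟩
    · obtain ⟨a, ha, h1, h2⟩ := hrep s hs
      refine (hpU a ha).2 b ?_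
      rw [h2, ← hb, ← hx]
    · exact absurd (hx.trans hb) (by simp)
  obtain ⟨q, -, hq, hqD, hqE, hB⟩ := hMVS L M M' S S' (Xs lab U) (Xs lab' V) γ0
    (γ0 + Ordinal.omega0 + γ) p _ _ hD hE hDU hEV le_self_add h
  have hmem : ∀ a ∈ p ∪ q, a.1 ∈ Xs lab U ∧ a.2 ∈ Xs lab' V := by
    rintro a (ha | ha)
    · exact hpU a ha
    · exact hq a ha
  obtain ⟨hL1, hL2⟩ := hVL (p ∪ q) (hcp.trans subset_union_left) hmem hB
  have key : ∀ r ∈ rho k pq, ∀ x y, (x, y) ∈ q → (lab x = r.1 ↔ lab' y = r.2) := by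
    intro r hr x y hxy
    rcases hr with ⟨s, hs, rfl⟩ | ⟨j, hj, rfl⟩
    · obtain ⟨a, ha, h1, h2⟩ := hrep s hs
      have := hL2 (x, y) (Or.inr hxy) a (Or.inl ha)
      dsimp only at this ⊢
      rw [← h1, ← h2]
      exact this
    · exact hL1 (x, y) (Or.inr hxy) j
  refine ⟨{a | a ∈ p ∪ q ∧ (lab a.1, lab' a.2) ∈ rho k pq},
    AtEq.anti (fun a ha => ha.1) hB.atEq, fun a ha => ha.2, ?_, ?_⟩
  · intro r hr x hx
    obtain ⟨y, hxy⟩ := hqD x ⟨r, hr, hx.symm⟩
    have hy : lab' y = r.2 := (key r hr x y hxy).1 hx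
    refine ⟨y, hy, Or.inr hxy, ?_⟩
    change (lab x, lab' y) ∈ _
    rw [hx, hy]
    exact hr
  · intro r hr y hy
    obtain ⟨x, hxy⟩ := hqE y ⟨r, hr, hy.symm⟩
    have hx : lab x = r.1 := (key r hr x y hxy).2 hy
    refine ⟨x, hx, Or.inr hxy, ?_⟩
    change (lab x, lab' y) ∈ _
    rw [hx, hy]
    exact hr

/-- Equivalence of pieces gives equivalence of the quotients. -/
theorem thm_BQQ (hQBB : St_QBB) (hMVS : St_MVS) : St_BQQ := by
  intro L M0 M M' Q0 Q Q' S0 lab0 S lab S' lab' c γ0 U V hF hF' hVL γ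
  induction γ using WellFoundedLT.induction with
  | _ γ ih =>
    intro p pq hpq hcp hpU hrep h
    rw [BFR.def]
    refine ⟨hQBB L M0 M M' Q0 Q Q' S0 lab0 S lab S' lab' pq hF hF' fun k =>
      BQQ_at hMVS S lab S' lab' c γ0 U V hF hF' hVL γ p pq hpq hcp hpU hrep h k,
      fun β hβ => ⟨?_, ?_⟩⟩
    · intro b hb
      obtain ⟨x, hx⟩ := hF.ne b
      have hxU : x ∈ Xs lab U := by
        intro b' hb'
        rw [hx] at hb'
        exact Sum.inl_injective hb' ▸ hb
      obtain ⟨y, hy, hB⟩ := h.forth (β := γ0 + Ordinal.omega0 + β) (by gcongr) hxU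
      have hmem : ∀ a ∈ insert (x, y) p, a.1 ∈ Xs lab U ∧ a.2 ∈ Xs lab' V := by
        rintro a (rfl | ha)
        · exact ⟨hxU, hy⟩
        · exact hpU a ha
      have hc' : c ⊆ insert (x, y) p := hcp.trans (subset_insert _ _)
      have hLR := hVL (insert (x, y) p) hc' hmem
        (hB.mono (le_self_add.trans le_self_add))
      cases hb' : lab' y with
      | inl b' =>
        refine ⟨b', hy b' hb', ih β hβ (insert (x, y) p) (insert (b, b') pq)
          (hpq.insert _) hc' hmem ?_ hB⟩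
        rintro r (rfl | hr)
        · exact ⟨(x, y), mem_insert _ _, hx, hb'⟩
        · obtain ⟨a, ha, h1⟩ := hrep r hr
          exact ⟨a, mem_insert_of_mem _ ha, h1⟩
      | inr j =>
        have := (hLR.1 (x, y) (mem_insert _ _) j).2 hb'
        exact absurd (hx.symm.trans this) (by simp)
    · intro b hb
      obtain ⟨y, hy⟩ := hF'.ne b
      have hyV : y ∈ Xs lab' V := by
        intro b' hb'
        rw [hy] at hb'
        exact Sum.inl_injective hb' ▸ hb
      obtain ⟨x, hx, hB⟩ := h.back (β := γ0 + Ordinal.omega0 + β) (by gcongr) hyV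
      have hmem : ∀ a ∈ insert (x, y) p, a.1 ∈ Xs lab U ∧ a.2 ∈ Xs lab' V := by
        rintro a (rfl | ha)
        · exact ⟨hx, hyV⟩
        · exact hpU a ha
      have hc' : c ⊆ insert (x, y) p := hcp.trans (subset_insert _ _)
      have hLR := hVL (insert (x, y) p) hc' hmem
        (hB.mono (le_self_add.trans le_self_add))
      cases hb' : lab x with
      | inl b' =>
        refine ⟨b', hx b' hb', ih β hβ (insert (x, y) p) (insert (b', b) pq)
          (hpq.insert _) hc' hmem ?_ hB⟩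
        rintro r (rfl | hr)
        · exact ⟨(x, y), mem_insert _ _, hb', hy⟩
        · obtain ⟨a, ha, h1⟩ := hrep r hr
          exact ⟨a, mem_insert_of_mem _ ha, h1⟩
      | inr j =>
        have := (hLR.1 (x, y) (mem_insert _ _) j).1 hb'
        exact absurd (hy.symm.trans this) (by simp)

end HEC
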