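import Pool.Agent.HEC.StP

/-!
# HEC [CCT]: `Cc` is countable
-/

set_option autoImplicit false
set_option linter.unusedVariables false

namespace HEC

open Set Pool.Agent.Helper5.DU Pool.Agent.Helper6.Str Pool.Agent.Helper79.VC
  Pool.Agent.Helper97.LO Pool.Agent.Helper97.VC HER HERN

section

variable {L : FirstOrder.Language.{0, 0}} {M : Type} {S : L.Structure M} {g : Set (L.Relations 2)}

theorem CCT_ht (hLF : LF S g) {a b : M} (h : Ge S g a b) : ht S g b ≤ ht S g a :=
  Set.ncard_le_ncard (fun _ hx => Relation.ReflTransGen.trans h hx) (hLF a)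

/-- unboundedly many levels are not countable -/
theorem CCT_lev (hLF : LF S g) (hC : ¬ (Cc S g).Countable) :
    ∃ H : ℕ → ℕ, StrictMono H ∧ ∀ n, ¬ {y | ht S g y = H n}.Countable := by
  refine Nat.exists_strictMono_subsequence (P := fun n => ¬ {y | ht S g y = n}.Countable) fun n => ?_
  by_contra hcon
  push Not at hcon
  apply hC
  have h1 : {y | n < ht S g y}.Countable := by
    have h2 : {y | n < ht S g y} ⊆ ⋃ H ∈ {H : ℕ | n < H}, {y | ht S g y = H} := by
      intro y hy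
      rw [Set.mem_iUnion₂]
      exact ⟨ht S g y, hy, rfl⟩
    exact (Set.Countable.biUnion (Set.to_countable _) fun H hH => hcon H hH).mono h2
  have h3 : Cc S g ⊆ ⋃ y ∈ {y | n < ht S g y}, dn S g y := by
    intro x hx
    obtain ⟨y, hy1, hy2⟩ := hx n
    rw [Set.mem_iUnion₂]
    exact ⟨y, hy2, hy1⟩
  exact (h1.biUnion fun y _ => (hLF y).countable).mono h3

/-- good families -/
def CCT_good (S : L.Structure M) (g : Set (L.Relations 2)) (H : ℕ → ℕ) (V : ℕ → Set M) : Prop :=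
  ∀ j, ¬ (V j).Countable ∧ ∀ y ∈ V j, ht S g y = H j

theorem CCT_step (hLF : LF S g) {H : ℕ → ℕ} {V : ℕ → Set M} (hV : CCT_good S g H V) (n : ℕ) :
    ∃ y ∈ V n, CCT_good S g H fun j => V j \ {z | Ge S g z y} := by
  have hD : ∀ j, {x | (V j \ {z | Ge S g z x}).Countable}.Finite := by
    intro j
    by_contra hinf
    obtain ⟨t, ht1, ht2⟩ := Set.Infinite.exists_subset_card_eq hinf (H j + 1)
    have h1 : (⋃ x ∈ (t : Set M), (V j \ {z | Ge S g z x})).Countable :=
      Set.Countable.biUnion t.finite_toSet.countable fun x hx => ht1 hx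
    have h2 : ∃ z ∈ V j, z ∉ ⋃ x ∈ (t : Set M), (V j \ {z | Ge S g z x}) := by
      by_contra hcon
      push Not at hcon
      exact (hV j).1 (h1.mono hcon)
    obtain ⟨z, hz1, hz2⟩ := h2
    have h3 : (t : Set M) ⊆ dn S g z := by
      intro x hx
      by_contra hxz
      exact hz2 (Set.mem_iUnion₂.2 ⟨x, hx, hz1, hxz⟩)
    have h4 := Set.ncard_le_ncard h3 (hLF z)
    rw [Set.ncard_coe_finset, ht2] at h4
    have h5 := (hV j).2 z hz1
    unfold ht at h5
    omega
  have h1 : (⋃ j, {x | (V j \ {z | Ge S g z x}).Countable}).Countable :=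
    Set.countable_iUnion fun j => (hD j).countable
  have h2 : ∃ y ∈ V n, y ∉ ⋃ j, {x | (V j \ {z | Ge S g z x}).Countable} := by
    by_contra hcon
    push Not at hcon
    exact (hV n).1 (h1.mono hcon)
  obtain ⟨y, hy1, hy2⟩ := h2
  refine ⟨y, hy1, fun j => ⟨fun hj => hy2 (Set.mem_iUnion.2 ⟨j, hj⟩), ?_⟩⟩
  intro x hx
  exact (hV j).2 x hx.1

end

theorem thm_CCT : St_CCT := by
  intro L M S g hLF hNo
  by_contra hC
  obtain ⟨H, hH, hV0⟩ := CCT_lev hLF hC
  obtain ⟨V0, hV0d⟩ : ∃ V0 : ℕ → Set M, V0 = fun j => {y | ht S g y = H j} := ⟨_, rfl⟩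
  have hgood : CCT_good S g H V0 := by
    intro j
    rw [hV0d]
    exact ⟨hV0 j, fun y hy => hy⟩
  have hstep : ∀ (V : {V : ℕ → Set M // CCT_good S g H V}) (n : ℕ),
      ∃ y ∈ V.1 n, CCT_good S g H fun j => V.1 j \ {z | Ge S g z y} :=
    fun V n => CCT_step hLF V.2 n
  choose Y hY1 hY2 using hstep
  let s : ℕ → {V : ℕ → Set M // CCT_good S g H V} := fun n =>
    Nat.rec ⟨V0, hgood⟩ (fun n V => ⟨fun j => V.1 j \ {z | Ge S g z (Y V n)}, hY2 V n⟩) n
  have hs : ∀ n j, (s (n + 1)).1 j = (s n).1 j \ {z | Ge S g z (Y (s n) n)} := fun _ _ => rfl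
  have hanti : ∀ j, Antitone fun n => (s n).1 j := by
    intro j
    refine antitone_nat_of_succ_le fun n => ?_
    rw [hs]
    exact Set.sdiff_subset
  have hht : ∀ n, ht S g (Y (s n) n) = H n := fun n => ((s n).2 n).2 _ (hY1 _ _)
  refine hNo ⟨fun n => Y (s n) n, ?_, ?_⟩
  · intro m n hmn hge
    rcases lt_or_gt_of_ne hmn with h | h
    · have h1 := CCT_ht hLF hge
      rw [hht, hht] at h1
      exact absurd (hH h) (not_lt.2 h1)
    · have h1 : Y (s m) m ∈ (s (n + 1)).1 m := hanti m (Nat.succ_le_of_lt h) (hY1 _ _)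
      rw [hs] at h1
      exact h1.2 hge
  · intro m n hmn
    show ht S g (Y (s m) m) < ht S g (Y (s n) n)
    rw [hht, hht]
    exact hH hmn

end HEC
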