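import Pool.Agent.HEC.StP

/-!
# HEC, module CMF: the components outside of `A` are finite (helper34)
-/

set_option autoImplicit false
set_option linter.unusedVariables false

namespace HEC

open Set Pool.Agent.Helper5.DU Pool.Agent.Helper6.Str Pool.Agent.Helper79.VC
  Pool.Agent.Helper97.LO Pool.Agent.Helper97.VC HER HERN

theorem thm_CMF (hSZL : St_SZL) (hSQW : St_SQW) (hCMG : St_CMG) : St_CMF := by
  intro L M S g F A G κ hF hLF hPig hAc hAcl hFA hG hGA hκ hVis hup x hx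
  by_contra hinf
  have hinf' : {y | Relation.ReflTransGen (Adj S g univ A) x y}.Infinite := hinf
  have hsym : ∀ a b, Adj S g univ A a b → Adj S g univ A b a :=
    fun a b h => ⟨h.2.1, h.1, h.2.2.symm⟩
  have hlf : ∀ a, {b | Adj S g univ A a b}.Finite := by
    intro a
    by_cases ha : a ∈ A
    · refine Set.finite_empty.subset ?_
      intro b hb
      exact absurd ha hb.1.2
    · refine ((hLF a).union (hup a ha)).subset ?_
      intro b hb
      exact hb.2.2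
  have hP := hSQW M A (fun W => Cld S g (W ∪ A) ∧ (W \ A).Nonempty ∧
    ∀ x ∈ W \ A, ∀ y ∈ W \ A, Cn S g W A x y) ?_
  · obtain ⟨W, h1, h2, h3⟩ := hP
    exact hSZL L M S g F A G κ hF hPig hAc hAcl hFA hG hGA hκ hVis
      ⟨W, fun m => ⟨(h1 m).1, (h1 m).2⟩, h2, h3⟩
  intro D k hD
  have hD' : {y | ∃ d ∈ D, d ∉ A ∧ Ge S g y d}.Finite := by
    refine ((hD.subset (sdiff_subset : D \ A ⊆ D)).biUnion fun d hd => hup d hd.2).subset ?_
    rintro y ⟨d, hd, hdA, hyd⟩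
    exact mem_iUnion₂.2 ⟨d, ⟨hd, hdA⟩, hyd⟩
  obtain ⟨E, hEf, hEk, hED, hEc⟩ := hCMG M (Adj S g univ A) x _ (k + 2) hsym hlf hD' hinf'
  have hEA : ∀ e ∈ E, e ∉ A := by
    intro e he
    rcases Relation.ReflTransGen.cases_tail (hED e he).2 with h | ⟨c, _, hc⟩
    · rw [h]
      exact hx
    · exact hc.2.1.2
  have hWf : (⋃ e ∈ E, dn S g e).Finite := hEf.biUnion fun e _ => hLF e
  have hEW : ∀ e ∈ E, e ∈ ⋃ e ∈ E, dn S g e := fun e he =>
    mem_iUnion₂.2 ⟨e, he, Relation.ReflTransGen.refl⟩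
  have hadj : ∀ w ∈ (⋃ e ∈ E, dn S g e) \ A, ∃ e ∈ E,
      Adj S g (⋃ e ∈ E, dn S g e) A e w := by
    rintro w ⟨hw, hwA⟩
    obtain ⟨e, he, hew⟩ := mem_iUnion₂.1 hw
    exact ⟨e, he, ⟨hEW e he, hEA e he⟩, ⟨hw, hwA⟩, Or.inl hew⟩
  refine ⟨⋃ e ∈ E, dn S g e, hWf, ⟨?_, ?_, ?_⟩, ?_, ?_⟩
  · rintro a (ha | ha) b hab
    · obtain ⟨e, he, hea⟩ := mem_iUnion₂.1 ha
      exact Or.inl (mem_iUnion₂.2 ⟨e, he, Relation.ReflTransGen.tail hea hab⟩)
    · exact Or.inr (hAcl a ha b hab)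
  · have hne : E.Nonempty := by
      by_contra h0
      rw [Set.not_nonempty_iff_eq_empty] at h0
      rw [h0, Set.ncard_empty] at hEk
      omega
    obtain ⟨e, he⟩ := hne
    exact ⟨e, hEW e he, hEA e he⟩
  · intro a ha b hb
    obtain ⟨e, he, hea⟩ := hadj a ha
    obtain ⟨e', he', heb⟩ := hadj b hb
    have h1 : Cn S g (⋃ e ∈ E, dn S g e) A e e' := by
      refine Relation.ReflTransGen.lift id ?_ _ _ (hEc e he e' he')
      rintro u v ⟨hu, hv, huv⟩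
      exact ⟨⟨hEW u hu, hEA u hu⟩, ⟨hEW v hv, hEA v hv⟩, huv.2.2⟩
    have h2 : Adj S g (⋃ e ∈ E, dn S g e) A a e := ⟨hea.2.1, hea.1, hea.2.2.symm⟩
    exact (Relation.ReflTransGen.head h2 h1).tail heb
  · rintro d ⟨hdW, hdD⟩
    by_contra hdA
    obtain ⟨e, he, hed⟩ := mem_iUnion₂.1 hdW
    exact (hED e he).1 ⟨d, hdD, hdA, hed⟩
  · have h1 : E ⊆ (⋃ e ∈ E, dn S g e) \ A := fun e he => ⟨hEW e he, hEA e he⟩
    have h2 := Set.ncard_le_ncard h1 (hWf.subset sdiff_subset)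
    omega

end HEC
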