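import Pool.Agent.HEC.StP

/-!
# HEC, module CMG: large connected sets in infinite locally finite connected graphs
-/

set_option autoImplicit false

namespace HEC

open Set

/-- the relation without the points of `D` -/
private def CMG_s {M : Type} (r : M → M → Prop) (D : Set M) (a b : M) : Prop :=
  r a b ∧ a ∉ D ∧ b ∉ D

private theorem CMG_one {M : Type} {r : M → M → Prop} {x : M} {D : Set M}
    (hfin : ∀ a, {b | r a b}.Finite) (hD : D.Finite)
    (hinf : {y | Relation.ReflTransGen r x y}.Infinite) :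
    ∃ u, u ∉ D ∧ Relation.ReflTransGen r x u ∧
      {y | Relation.ReflTransGen (CMG_s r D) u y}.Infinite := by
  by_contra hcon
  have hcon' : ∀ u, u ∉ D → Relation.ReflTransGen r x u →
      {y | Relation.ReflTransGen (CMG_s r D) u y}.Finite := by
    intro u h1 h2
    by_contra h3
    exact hcon ⟨u, h1, h2, h3⟩
  have hB : ({u | ∃ d ∈ D, r d u} ∪ {x} : Set M).Finite := by
    refine Set.Finite.union ?_ (Set.finite_singleton x)
    have : {u | ∃ d ∈ D, r d u} = ⋃ d ∈ D, {u | r d u} := by
      ext u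
      simp
    rw [this]
    exact hD.biUnion fun d _ => hfin d
  have hcl : ∀ y, Relation.ReflTransGen r x y → y ∈ D ∨
      ∃ u ∈ ({u | ∃ d ∈ D, r d u} ∪ {x} : Set M), u ∉ D ∧ Relation.ReflTransGen r x u ∧
        Relation.ReflTransGen (CMG_s r D) u y := by
    intro y hy
    induction hy with
    | refl =>
      by_cases hx : x ∈ D
      · exact Or.inl hx
      · exact Or.inr ⟨x, Or.inr rfl, hx, .refl, .refl⟩
    | tail hab hbc ih =>
      rename_i a b
      by_cases hb : b ∈ D
      · exact Or.inl hb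
      · refine Or.inr ?_
        by_cases ha : a ∈ D
        · exact ⟨b, Or.inl ⟨a, ha, hbc⟩, hb, hab.tail hbc, .refl⟩
        · rcases ih with ih | ⟨u, hu, hu1, hu2, hu3⟩
          · exact absurd ih ha
          · exact ⟨u, hu, hu1, hu2, hu3.tail ⟨hbc, ha, hb⟩⟩
  refine hinf ((hD.union (((hB.subset (Set.inter_subset_left (t :=
    {u | u ∉ D ∧ Relation.ReflTransGen r x u}))).biUnion (t := fun u =>
      {y | Relation.ReflTransGen (CMG_s r D) u y}) fun u hu => hcon' u hu.2.1 hu.2.2))).subset ?_)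
  intro y hy
  rcases hcl y hy with h | ⟨u, hu, hu1, hu2, hu3⟩
  · exact Or.inl h
  · exact Or.inr (Set.mem_biUnion (show u ∈ _ ∩ _ from ⟨hu, hu1, hu2⟩) hu3)

private theorem CMG_step {M : Type} {s : M → M → Prop} {E : Set M} {u y : M} (hu : u ∈ E)
    (hp : Relation.ReflTransGen s u y) (hy : y ∉ E) :
    ∃ a b, Relation.ReflTransGen s u a ∧ s a b ∧ a ∈ E ∧ b ∉ E := by
  induction hp with
  | refl => exact absurd hu hy
  | tail hab hbc ih =>
    rename_i a b
    by_cases ha : a ∈ E
    · exact ⟨a, b, hab, hbc, ha, hy⟩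
    · exact ih ha

private theorem CMG_two {M : Type} {r : M → M → Prop} {D : Set M} {u : M}
    (hinf : {y | Relation.ReflTransGen (CMG_s r D) u y}.Infinite) (k : ℕ) :
    ∃ E : Set M, E.Finite ∧ E.ncard = k + 1 ∧ u ∈ E ∧
      (∀ e ∈ E, Relation.ReflTransGen (CMG_s r D) u e) ∧
      ∀ e ∈ E, Relation.ReflTransGen (fun a b => a ∈ E ∧ b ∈ E ∧ r a b) u e := by
  induction k with
  | zero =>
    refine ⟨{u}, Set.finite_singleton u, Set.ncard_singleton u, rfl, ?_, ?_⟩
    · rintro e rfl
      exact .refl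
    · rintro e rfl
      exact .refl
  | succ k ih =>
    obtain ⟨E, hE, hc, hu, h1, h2⟩ := ih
    obtain ⟨y, hy, hyE⟩ := hinf.exists_notMem_finite hE
    obtain ⟨a, b, hua, hab, ha, hb⟩ := CMG_step hu hy hyE
    refine ⟨insert b E, hE.insert b, ?_, Set.mem_insert_of_mem _ hu, ?_, ?_⟩
    · rw [Set.ncard_insert_of_notMem hb hE, hc]
    · rintro e (rfl | he)
      · exact hua.tail hab
      · exact h1 e he
    · have hmono : ∀ e, Relation.ReflTransGen (fun a b => a ∈ E ∧ b ∈ E ∧ r a b) u e →
          Relation.ReflTransGen (fun v w => v ∈ insert b E ∧ w ∈ insert b E ∧ r v w) u e := by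
        intro e he
        exact Relation.ReflTransGen.mono (fun v w hvw =>
          ⟨Set.mem_insert_of_mem _ hvw.1, Set.mem_insert_of_mem _ hvw.2.1, hvw.2.2⟩) _ _ he
      rintro e (rfl | he)
      · exact (hmono a (h2 a ha)).tail
          ⟨Set.mem_insert_of_mem _ ha, Set.mem_insert _ _, hab.1⟩
      · exact hmono e (h2 e he)

private theorem CMG_symm {M : Type} {s : M → M → Prop} (hs : ∀ a b, s a b → s b a) {a b : M}
    (h : Relation.ReflTransGen s a b) : Relation.ReflTransGen s b a := by
  induction h with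
  | refl => exact .refl
  | tail _ hbc ih => exact ih.head (hs _ _ hbc)

theorem thm_CMG : St_CMG := by
  intro M r x D k hsym hfin hD hinf
  obtain ⟨u, huD, hxu, hu⟩ := CMG_one hfin hD hinf
  obtain ⟨E, hE, hc, -, h1, h2⟩ := CMG_two hu k
  refine ⟨E, hE, by omega, ?_, ?_⟩
  · intro e he
    constructor
    · rcases Relation.ReflTransGen.cases_tail (h1 e he) with h | ⟨c, -, h⟩
      · rw [h]
        exact huD
      · exact h.2.2
    · exact hxu.trans (Relation.ReflTransGen.mono (fun a b h => h.1) _ _ (h1 e he))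
  · intro a ha b hb
    exact (CMG_symm (fun a b h => ⟨h.2.1, h.1, hsym _ _ h.2.2⟩) (h2 a ha)).trans (h2 b hb)

end HEC
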