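import Pool.Agent.HEC.StP

/-!
# HEC, [CNN]: the elements which are below high elements are below arbitrarily high elements
-/

set_option autoImplicit false
set_option linter.unusedVariables false

namespace HEC

open Set

variable {L : FirstOrder.Language.{0, 0}} {M : Type}

private theorem CNN_sub (S : L.Structure M) (g : Set (L.Relations 2)) (n : ℕ)
    (h : ¬ Hv S g n = Cc S g) : ∃ y, y ∉ Cc S g ∧ n < ht S g y := by
  have hsub : Cc S g ⊆ Hv S g n := fun x hx => hx n
  have h2 : ¬ Hv S g n ⊆ Cc S g := fun h3 => h (Subset.antisymm h3 hsub)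
  rw [Set.not_subset] at h2
  obtain ⟨x, hx, hxC⟩ := h2
  obtain ⟨y, hyx, hy⟩ := hx
  refine ⟨y, fun hyC => hxC ?_, hy⟩
  intro m
  obtain ⟨w, hwy, hw⟩ := hyC m
  exact ⟨w, Relation.ReflTransGen.trans hwy hyx, hw⟩

/-- [CNN] -/
theorem thm_CNN : St_CNN := by
  intro L M S g hLF hNA
  by_contra hcon
  push Not at hcon
  have h1 : ∀ n, ∃ y, y ∉ Cc S g ∧ n < ht S g y := fun n => CNN_sub S g n (hcon n)
  choose Y hYC hYh using h1
  have h2 : ∀ n, ∃ B : ℕ, ∀ w, Ge S g w (Y n) → ht S g w ≤ B := by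
    intro n
    have h3 : ¬ ∀ m, Y n ∈ Hv S g m := hYC n
    push Not at h3
    obtain ⟨B, hB⟩ := h3
    refine ⟨B, fun w hw => ?_⟩
    by_contra hlt
    exact hB ⟨w, hw, not_le.mp hlt⟩
  choose B hB using h2
  let b : ℕ → ℕ := fun n => Nat.rec 0 (fun _ c => max c (B c)) n
  have hb : ∀ n, b (n + 1) = max (b n) (B (b n)) := fun n => rfl
  have hbm : Monotone b := monotone_nat_of_le_succ fun n => by
    rw [hb]
    exact le_max_left _ _
  have hbB : ∀ n, B (b n) ≤ b (n + 1) := fun n => by
    rw [hb]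
    exact le_max_right _ _
  have hlow : ∀ n, b n < ht S g (Y (b n)) := fun n => hYh (b n)
  have hup : ∀ n w, Ge S g w (Y (b n)) → ht S g w ≤ b (n + 1) := fun n w hw =>
    (hB (b n) w hw).trans (hbB n)
  have hmono : StrictMono fun n => ht S g (Y (b n)) := by
    refine strictMono_nat_of_lt_succ fun n => ?_
    exact lt_of_le_of_lt (hup n _ Relation.ReflTransGen.refl) (hlow (n + 1))
  have hge : ∀ i j, i < j → ¬ Ge S g (Y (b j)) (Y (b i)) := by
    intro i j hij h
    have h3 := hup i _ h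
    have h4 := hbm (show i + 1 ≤ j from hij)
    have h5 := hlow j
    omega
  have hge' : ∀ i j, i < j → ¬ Ge S g (Y (b i)) (Y (b j)) := by
    intro i j hij h
    have h3 : ht S g (Y (b j)) ≤ ht S g (Y (b i)) := by
      refine Set.ncard_le_ncard ?_ (hLF _)
      intro x hx
      exact Relation.ReflTransGen.trans h hx
    have h4 : ht S g (Y (b i)) < ht S g (Y (b j)) := hmono hij
    omega
  refine hNA ⟨fun n => Y (b n), ?_, hmono⟩
  intro m n hmn
  rcases lt_or_gt_of_ne hmn with h | h
  · exact hge' m n h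
  · exact hge n m h

end HEC
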