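import Pool.Agent.HEC.StQ

/-!
# HEC [COV]: labelled structures are covers (helper17)
-/

set_option autoImplicit false

namespace HEC

open Set Pool.Agent.Helper5.DU Pool.Agent.Helper6.Str Pool.Agent.Helper79.VC
  Pool.Agent.Helper97.LO Pool.Agent.Helper97.VC HER HERN

theorem thm_COV (hBKX : St_BKX) (hVSP : St_VSP) : St_COV := by
  intro L N T g n m f ν κ hL
  have hA : Cld T g (AA T g n f) := by
    intro a ha b hab
    rcases ha with ⟨y, hy, hn⟩ | ha
    · exact Or.inl ⟨y, hy.tail hab, hn⟩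
    · exact Or.inr (hL.cld a ha b hab)
  have hl1 : ∀ x ∈ AA T g n f, lb T g (AA T g n f) ν x = Sum.inr (ν x) := by
    intro x hx
    unfold lb
    rw [dif_pos hx]
  have hl2 : ∀ x (hx : x ∉ AA T g n f), lb T g (AA T g n f) ν x =
      Sum.inl ⟨bk T g univ (AA T g n f) x, x, hx, rfl⟩ := by
    intro x hx
    unfold lb
    rw [dif_neg hx]
  refine ⟨⟨?_, ?_⟩, ?_, ?_, ?_⟩
  · rintro (b | k)
    · obtain ⟨B, x, hx, hB⟩ := b
      refine (hL.bkf x hx).subset ?_
      intro y hy
      by_cases hyA : y ∈ AA T g n f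
      · rw [mem_ofPred_eq, hl1 y hyA] at hy
        exact absurd hy (by simp)
      · rw [mem_ofPred_eq, hl2 y hyA] at hy
        have h1 := congrArg Subtype.val (Sum.inl.inj hy)
        have h2 : y ∈ bk T g univ (AA T g n f) y := Relation.ReflTransGen.refl
        rw [← hB]
        exact (show bk T g univ (AA T g n f) y = B from h1) ▸ h2
    · refine (hL.nuf k).subset ?_
      intro y hy
      by_cases hyA : y ∈ AA T g n f
      · rw [mem_ofPred_eq, hl1 y hyA] at hy
        exact ⟨hyA, Sum.inr.inj hy⟩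
      · rw [mem_ofPred_eq, hl2 y hyA] at hy
        exact absurd hy (by simp)
  · rintro ⟨B, x, hx, hB⟩
    refine ⟨x, ?_⟩
    rw [hl2 x hx]
    congr 1
    exact Subtype.ext hB.symm
  · intro U
    exact (hBKX L N T g (AA T g n f) ν U hA).1
  · intro i
    exact ⟨ν (f i), hl1 _ (Or.inr ⟨i, rfl⟩)⟩
  · intro U V
    exact hVSP L N N T T g n m f f ν ν κ hL hL hL.inv U V

end HEC
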