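import Pool.Agent.HEC.StQ
import Pool.Agent.HERN.ALL

/-!
# HEC, module CXQ: the general properties of the quotient
-/

set_option autoImplicit false

namespace HEC

open Set Pool.Agent.Helper5.DU Pool.Agent.Helper6.Str Pool.Agent.Helper79.VC
  Pool.Agent.Helper97.LO Pool.Agent.Helper97.VC HER HERN

theorem thm_CXQ (hHF : St_HFC) (hPG : St_PGC) (hD : St_DTS) (hCo : St_COV) (hPQ : St_PGQ)
    (hVQ : St_VQQ) : St_CXQ := by
  intro L _ _ g K δ M S hS hK hM
  obtain ⟨hLF, F, hF, hHer⟩ := hHF L g K δ M S hS hK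
  have hP : PigC S g F := hPG L g K M S F hS.scat hHer
  obtain ⟨n, m, f, ν, κ, hκ, -, hL⟩ := hD L M S g F hF hLF hP
  have hcov := hCo L M S g n m f ν κ hL
  have hlt : Ordinal.omega0 + Ordinal.omega0 + 1 + κ + Ordinal.omega0 + Ordinal.omega0 < om1 :=
    add_lt_om1 (add_lt_om1 (add_lt_om1 (add_one_lt_om1 (add_lt_om1 omega_lt_om1 omega_lt_om1))
      hκ) omega_lt_om1) omega_lt_om1
  obtain ⟨F', hF', hPig⟩ := hPQ L M M _ _ S (lb S g (AA S g n f) ν) S g m f
    (lb S g (AA S g n f) ν) _ F hcov hlt hF hP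
  have hvq := hVQ L g K δ M S hS hK n m f ν κ hκ hL
  have hunc : ¬ (univ : Set (QB S g (AA S g n f))).Countable := by
    intro hc
    apply hM
    have hc' : Countable (QB S g (AA S g n f)) := countable_univ_iff.mp hc
    have h1 : (univ : Set M) ⊆ ⋃ l : QB S g (AA S g n f) ⊕ ℕ,
        {x | lb S g (AA S g n f) ν x = l} := fun x _ => mem_iUnion.mpr ⟨_, rfl⟩
    exact (countable_iUnion fun l => (hcov.fib.fin l).countable).mono h1
  have hinf : Infinite (QB S g (AA S g n f)) := by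
    by_contra h
    have : Finite (QB S g (AA S g n f)) := not_infinite_iff_finite.mp h
    exact hunc (Set.to_countable _)
  refine ⟨QB S g (AA S g n f), lb S g (AA S g n f) ν, F', hcov.fib, hF', hunc, hPig, hvq,
    fun G hG hFG => thm_FTN thm_RAMN _ _ _ G hG hinf fun X G' γ hG' hGG' =>
      hPig X G' γ hG' (hFG.trans hGG'), all_ROWS _ _ _ F' hF' hPig, thm_ORDB _ _ _ F' hF' hPig,
    all_SYM _ _ _ F' hvq⟩

end HEC
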