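import Pool.Agent.HEC.StP

/-!
# HEC, DTS: the labels of a large structure (proof by helper89 of `St_DTS` of helper97)
-/

set_option autoImplicit false
set_option linter.unusedVariables false

namespace HEC

open Set Pool.Agent.Helper5.DU Pool.Agent.Helper6.Str Pool.Agent.Helper79.VC
  Pool.Agent.Helper97.LO Pool.Agent.Helper97.VC HER HERN

theorem DTS_clo_fin {L : FirstOrder.Language.{0, 0}} {M : Type} {S : L.Structure M}
    {g : Set (L.Relations 2)} (hlf : LF S g) {X : Set M} (hX : X.Finite) :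
    (clo S g X).Finite := by
  have h1 : clo S g X = ⋃ a ∈ X, dn S g a := by
    ext b
    rw [mem_iUnion₂]
    constructor
    · rintro ⟨a, ha, hab⟩
      exact ⟨a, ha, hab⟩
    · rintro ⟨a, ha, hab⟩
      exact ⟨a, ha, hab⟩
  rw [h1]
  exact hX.biUnion fun a _ => hlf a

theorem DTS_clo_cld {L : FirstOrder.Language.{0, 0}} {M : Type} (S : L.Structure M)
    (g : Set (L.Relations 2)) (X : Set M) : Cld S g (clo S g X) := by
  rintro b ⟨a, ha, hab⟩ c hbc
  exact ⟨a, ha, Relation.ReflTransGen.tail hab hbc⟩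

theorem DTS_sub {L : FirstOrder.Language.{0, 0}} {M : Type} (S : L.Structure M)
    (g : Set (L.Relations 2)) (X : Set M) : X ⊆ clo S g X :=
  fun a ha => ⟨a, ha, Relation.ReflTransGen.refl⟩

theorem DTS_un {L : FirstOrder.Language.{0, 0}} {M : Type} {S : L.Structure M}
    {g : Set (L.Relations 2)} {X Y : Set M} (hX : Cld S g X) (hY : Cld S g Y) :
    Cld S g (X ∪ Y) := by
  rintro a (ha | ha) b hab
  · exact Or.inl (hX a ha b hab)
  · exact Or.inr (hY a ha b hab)

theorem DTS_cc {L : FirstOrder.Language.{0, 0}} {M : Type} (S : L.Structure M)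
    (g : Set (L.Relations 2)) : Cld S g (Cc S g) := by
  intro a ha b hab n
  obtain ⟨y, hy, hyn⟩ := ha n
  exact ⟨y, Relation.ReflTransGen.tail hy hab, hyn⟩

theorem thm_DTS (hVSA : St_VSA) (hANT : St_ANT) (hCNN : St_CNN) (hCCT : St_CCT)
    (hUSF : St_USF) (hCMF : St_CMF) (hNEU : St_NEU) : St_DTS := by
  intro L M S g F hF hlf hpig
  have hno := hANT L M S g F hF hlf hpig
  obtain ⟨n, hn⟩ := hCNN L M S g hlf hno
  have hcc := hCCT L M S g hlf hno
  obtain ⟨W, hW⟩ : ∃ W : Set M, W = {z | z ∉ Cc S g ∧ {y | Ge S g y z}.Infinite} := ⟨_, rfl⟩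
  have hWf : W.Finite := by
    rw [hW]
    exact hUSF L M S g F n hF hlf hpig hn
  obtain ⟨F1, hF1⟩ : ∃ F1 : Set M, F1 = clo S g F ∪ clo S g W := ⟨_, rfl⟩
  have hF1f : F1.Finite := by
    rw [hF1]
    exact (DTS_clo_fin hlf hF).union (DTS_clo_fin hlf hWf)
  have hF1c : Cld S g F1 := by
    rw [hF1]
    exact DTS_un (DTS_clo_cld S g F) (DTS_clo_cld S g W)
  have hFF1 : F ⊆ F1 := by
    rw [hF1]
    exact fun a ha => Or.inl (DTS_sub S g F ha)
  have hWF1 : W ⊆ F1 := by
    rw [hF1]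
    exact fun a ha => Or.inr (DTS_sub S g W ha)
  obtain ⟨A, hA⟩ : ∃ A : Set M, A = Cc S g ∪ F1 := ⟨_, rfl⟩
  have hAc : A.Countable := by
    rw [hA]
    exact hcc.union hF1f.countable
  have hAcl : Cld S g A := by
    rw [hA]
    exact DTS_un (DTS_cc S g) hF1c
  have hHA : Hv S g n ⊆ A := by
    rw [hn, hA]
    exact subset_union_left
  have hF1A : F1 ⊆ A := by
    rw [hA]
    exact subset_union_right
  have hmA : ∀ x, x ∈ A ↔ x ∈ Hv S g n ∨ x ∈ F1 := by
    intro x
    rw [hA, hn]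
    exact Iff.rfl
  have hvis : Vis S g A F1 (Ordinal.omega0 + Ordinal.omega0 + 1) := by
    intro X X' hX hX' hAX hAX' x hx x' hx' hB
    have h1 := hVSA L M M S S g X X' _ _ n hlf hlf hX hX' (hHA.trans hAX) (hHA.trans hAX')
      le_rfl hB (x, x') (mem_insert _ _)
    have h2 := hB.atEq.1
    rw [hmA, hmA]
    constructor
    · rintro (h | h)
      · exact Or.inl (h1.1 h)
      · right
        have h3 := h2 (x, x') (mem_insert _ _) (x, x) (mem_insert_of_mem _ ⟨x, h, rfl⟩)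
        have h4 : x' = x := h3.1 rfl
        rw [h4]
        exact h
    · rintro (h | h)
      · exact Or.inl (h1.2 h)
      · right
        have h3 := h2 (x, x') (mem_insert _ _) (x', x') (mem_insert_of_mem _ ⟨x', h, rfl⟩)
        have h4 : x = x' := h3.2 rfl
        rw [h4]
        exact h
  have hκ1 : Ordinal.omega0 + Ordinal.omega0 + 1 < om1 :=
    add_one_lt_om1 (add_lt_om1 omega_lt_om1 omega_lt_om1)
  have hbk := hCMF L M S g F A F1 _ hF hlf hpig hAc hAcl (hFF1.trans hF1A) hF1f hF1A hκ1 hvis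
    (by
      intro z hz
      by_contra hinf
      apply hz
      apply hF1A
      apply hWF1
      rw [hW]
      refine ⟨fun h => hz ?_, hinf⟩
      rw [hA]
      exact Or.inl h)
  obtain ⟨ν, κ, hκ, hν1, hν2⟩ := hNEU L M S g F1 A n hlf hno hn hF1f hF1c hA hAc
  obtain ⟨m, f, -, hf⟩ := hF1f.fin_param
  have hAA : AA S g n f = A := by
    ext x
    rw [hmA, ← hf]
    exact Iff.rfl
  have hprs : prs f f = dg F1 := by
    rw [← hf]
    ext a
    constructor
    · rintro ⟨i, rfl⟩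
      exact ⟨f i, ⟨i, rfl⟩, rfl⟩
    · rintro ⟨b, ⟨i, rfl⟩, rfl⟩
      exact ⟨i, rfl⟩
  refine ⟨n, m, f, ν, κ, hκ, ?_, ⟨hlf, ?_, ?_, ?_, ?_⟩⟩
  · rw [hf]
    exact hFF1
  · rw [hf]
    exact hF1c
  · rw [hAA]
    exact hν1
  · rw [hAA]
    exact hbk
  · rw [hAA, hprs]
    exact hν2

end HEC
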