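import Pool.Agent.HEC.StQ

/-! # HEC, module LFA: restriction of lifts (helper44) -/

set_option autoImplicit false

namespace HEC

theorem thm_LFA : St_LFA := by
  intro I I' M M' lab lab' ρ ρ' p h hρ
  refine ⟨fun a ha => ha.2, fun r hr x hx => ?_, fun r hr y hy => ?_⟩
  · obtain ⟨y, hy, hxy⟩ := h.fwd r (hρ hr) x hx
    refine ⟨y, hy, hxy, ?_⟩
    have e : (lab x, lab' y) = r := Prod.ext hx hy
    show (lab x, lab' y) ∈ ρ
    rw [e]
    exact hr
  · obtain ⟨x, hx, hxy⟩ := h.bwd r (hρ hr) y hy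
    refine ⟨x, hx, hxy, ?_⟩
    have e : (lab x, lab' y) = r := Prod.ext hx hy
    show (lab x, lab' y) ∈ ρ
    rw [e]
    exact hr

end HEC
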