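import Pool.Agent.HEC.StQ

/-! # HEC, module LFF: there are finitely many lifts (helper87) -/

set_option autoImplicit false
set_option linter.unusedVariables false

namespace HEC

open Set Pool.Agent.Helper5.DU Pool.Agent.Helper6.Str Pool.Agent.Helper79.VC
  Pool.Agent.Helper97.LO Pool.Agent.Helper97.VC HER HERN

theorem thm_LFF : St_LFF := by
  intro I I' M M' lab lab' ρ h1 h2 hρ
  have h3 : (⋃ r ∈ ρ, {x | lab x = r.1}).Finite := hρ.biUnion fun r _ => h1 r.1
  have h4 : (⋃ r ∈ ρ, {y | lab' y = r.2}).Finite := hρ.biUnion fun r _ => h2 r.2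
  refine ((h3.prod h4).finite_subsets).subset ?_
  intro p hp a ha
  refine ⟨?_, ?_⟩
  · exact mem_biUnion (hp.mem a ha) rfl
  · exact mem_biUnion (hp.mem a ha) rfl

end HEC
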