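import Pool.Agent.HEC.StQ

/-!
# HEC, module LFT: equivalence of the quotients gives equivalence of the pieces
-/

set_option autoImplicit false
set_option linter.unusedVariables false

namespace HEC

open Set Pool.Agent.Helper5.DU Pool.Agent.Helper6.Str Pool.Agent.Helper79.VC
  Pool.Agent.Helper97.LO Pool.Agent.Helper97.VC HER HERN

private theorem LFT_rho_fin {Q Q' : Type} (n : ℕ) {p : Set (Q × Q')} (hp : p.Finite) :
    (rho n p).Finite :=
  (hp.image _).union ((Set.finite_lt_nat n).image _)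

private theorem LFT_rho_mono {Q Q' : Type} {n n' : ℕ} {p p' : Set (Q × Q')} (hn : n ≤ n')
    (hp : p ⊆ p') : rho n p ⊆ rho n' p' := by
  rintro r (⟨b, hb, rfl⟩ | ⟨j, hj, rfl⟩)
  · exact Or.inl ⟨b, hp hb, rfl⟩
  · exact Or.inr ⟨j, lt_of_lt_of_le hj hn, rfl⟩

private theorem LFT_bad {L : FirstOrder.Language.{0, 0}} {M : Type} {S : L.Structure M}
    {X Y : Set M} {γ : Ordinal.{0}} {p : Set (M × M)} (hat : AtEq S S p)
    (h : ¬ BFR S S X Y γ p) : ∃ β : Ordinal.{0}, ∃ Z Z' : Set M, β < γ ∧ Z.Finite ∧ Z'.Finite ∧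
      Z ⊆ X ∧ Z' ⊆ Y ∧
      ((∃ x ∈ Z, ∀ y ∈ Y, ¬ BFR S S X Y β (insert (x, y) p)) ∨
        ∃ y ∈ Z', ∀ x ∈ X, ¬ BFR S S X Y β (insert (x, y) p)) := by
  rw [BFR.def] at h
  have h1 : ¬ ∀ β < γ,
      (∀ x ∈ X, ∃ y ∈ Y, BFR S S X Y β (insert (x, y) p)) ∧
      (∀ y ∈ Y, ∃ x ∈ X, BFR S S X Y β (insert (x, y) p)) := fun h2 => h ⟨hat, h2⟩
  rw [not_forall] at h1
  obtain ⟨β, h1⟩ := h1
  rw [Classical.not_imp] at h1
  obtain ⟨hβ, h1⟩ := h1
  rw [not_and_or] at h1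
  rcases h1 with h1 | h1
  · rw [not_forall] at h1
    obtain ⟨x, h1⟩ := h1
    rw [Classical.not_imp] at h1
    obtain ⟨hx, h1⟩ := h1
    refine ⟨β, {x}, ∅, hβ, Set.finite_singleton _, Set.finite_empty, by simpa using hx,
      Set.empty_subset _, Or.inl ⟨x, rfl, fun y hy hB => h1 ⟨y, hy, hB⟩⟩⟩
  · rw [not_forall] at h1
    obtain ⟨y, h1⟩ := h1
    rw [Classical.not_imp] at h1
    obtain ⟨hy, h1⟩ := h1
    refine ⟨β, ∅, {y}, hβ, Set.finite_empty, Set.finite_singleton _, Set.empty_subset _,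
      by simpa using hy, Or.inr ⟨y, rfl, fun x hx hB => h1 ⟨x, hx, hB⟩⟩⟩

theorem thm_LFT (hLFA : St_LFA) (hQAA : St_QAA) (hMVS : St_MVS) (hLFF : St_LFF) : St_LFT := by
  intro L M Q S lab U V hF γ
  induction γ using WellFoundedLT.induction with
  | _ γ ih =>
  intro pq hfin hUV hB k
  by_contra hcon
  have hcon' : ∀ p, Lft lab lab (rho k pq) p → ¬ BFR S S (Xs lab U) (Xs lab V) γ p :=
    fun p h1 h2 => hcon ⟨p, h1, h2⟩
  have hbad : ∀ p, Lft lab lab (rho k pq) p ∧ AtEq S S p → ∃ β : Ordinal.{0}, ∃ Z Z' : Set M,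
      β < γ ∧ Z.Finite ∧ Z'.Finite ∧ Z ⊆ Xs lab U ∧ Z' ⊆ Xs lab V ∧
      ((∃ x ∈ Z, ∀ y ∈ Xs lab V, ¬ BFR S S (Xs lab U) (Xs lab V) β (insert (x, y) p)) ∨
        ∃ y ∈ Z', ∀ x ∈ Xs lab U, ¬ BFR S S (Xs lab U) (Xs lab V) β (insert (x, y) p)) :=
    fun p hp => LFT_bad hp.2 (hcon' p hp.1)
  choose! β Z Z' hβγ hZf hZf' hZU hZV hZ using hbad
  set Λ : Set (Set (M × M)) := {p | Lft lab lab (rho k pq) p ∧ AtEq S S p} with hΛ
  have hΛf : Λ.Finite := by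
    refine (hLFF (Q ⊕ ℕ) (Q ⊕ ℕ) M M lab lab (rho k pq) hF.fin hF.fin
      (LFT_rho_fin k hfin)).subset ?_
    intro p hp
    exact hp.1
  have hΛn : Λ.Nonempty := by
    obtain ⟨p, h1, h2⟩ := hQAA L M M Q Q S lab S lab pq hfin hB.atEq k
    exact ⟨p, h2, h1⟩
  obtain ⟨p0, hp0, hmax⟩ := Set.exists_max_image Λ β hΛf hΛn
  have hβ0 : β p0 < γ := hβγ p0 hp0
  set Bx : Set M := ⋃ p ∈ Λ, Z p with hBx
  set By : Set M := ⋃ p ∈ Λ, Z' p with hBy
  have hBxf : Bx.Finite := hΛf.biUnion fun p hp => hZf p hp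
  have hByf : By.Finite := hΛf.biUnion fun p hp => hZf' p hp
  have hBxU : Bx ⊆ Xs lab U := Set.iUnion₂_subset fun p hp => hZU p hp
  have hByV : By ⊆ Xs lab V := Set.iUnion₂_subset fun p hp => hZV p hp
  set D : Set Q := {b | ∃ x ∈ Bx, lab x = Sum.inl b} with hD
  set E : Set Q := {b | ∃ y ∈ By, lab y = Sum.inl b} with hE
  have key : ∀ B : Set M, B.Finite → {b : Q | ∃ x ∈ B, lab x = Sum.inl b}.Finite := by
    intro B hBf
    have h1 : {b : Q | ∃ x ∈ B, lab x = Sum.inl b} = Sum.inl ⁻¹' (lab '' B) := by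
      ext b
      simp only [Set.mem_ofPred_eq, Set.mem_preimage, Set.mem_image]
    rw [h1]
    exact (hBf.image lab).preimage Sum.inl_injective.injOn
  have hDf : D.Finite := key Bx hBxf
  have hEf : E.Finite := key By hByf
  have hDU : D ⊆ U := by
    rintro b ⟨x, hx, hb⟩
    exact hBxU hx b hb
  have hEV : E ⊆ V := by
    rintro b ⟨y, hy, hb⟩
    exact hByV hy b hb
  have hle : Ordinal.omega0 * β p0 + Ordinal.omega0 ≤ Ordinal.omega0 * γ := by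
    rw [← mul_add_one]
    exact mul_le_mul_right (Order.add_one_le_of_lt hβ0) _
  obtain ⟨q, hqf, hqUV, hqD, hqE, hqB⟩ := hMVS (LQ Q) Q Q (QS S lab S lab) (QS S lab S lab) U V
    (Ordinal.omega0 * β p0) (Ordinal.omega0 * γ) pq D E hDf hEf hDU hEV hle hB
  -- the bound of the levels
  have hJf : {j : ℕ | ∃ x ∈ Bx ∪ By, lab x = Sum.inr j}.Finite := by
    have h1 : {j : ℕ | ∃ x ∈ Bx ∪ By, lab x = Sum.inr j} = Sum.inr ⁻¹' (lab '' (Bx ∪ By)) := by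
      ext b
      simp only [Set.mem_ofPred_eq, Set.mem_preimage, Set.mem_image]
    rw [h1]
    exact ((hBxf.union hByf).image lab).preimage Sum.inr_injective.injOn
  obtain ⟨K, hK⟩ := hJf.bddAbove
  set k' := max k (K + 1) with hk'
  obtain ⟨p', hp', hBp'⟩ := ih (β p0) hβ0 (pq ∪ q) (hfin.union hqf) (by
    rintro a (ha | ha)
    · exact hUV a ha
    · exact hqUV a ha) hqB k'
  set p : Set (M × M) := {a | a ∈ p' ∧ (lab a.1, lab a.2) ∈ rho k pq} with hp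
  have hpp' : p ⊆ p' := fun a ha => ha.1
  have hpL : Lft lab lab (rho k pq) p := hLFA (Q ⊕ ℕ) (Q ⊕ ℕ) M M lab lab (rho k pq)
    (rho k' (pq ∪ q)) p' hp' (LFT_rho_mono (le_max_left _ _) Set.subset_union_left)
  have hpΛ : p ∈ Λ := ⟨hpL, hBp'.atEq.anti hpp'⟩
  have hle2 : β p ≤ β p0 := hmax p hpΛ
  have hin : ∀ {x y : M}, (x, y) ∈ p' →
      BFR S S (Xs lab U) (Xs lab V) (β p) (insert (x, y) p) := by
    intro x y hxy
    refine BFR.anti ?_ (hBp'.mono hle2)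
    exact Set.insert_subset hxy hpp'
  have hlt : ∀ x ∈ Bx ∪ By, ∀ j, lab x = Sum.inr j → j < k' := by
    intro x hx j hj
    have : j ≤ K := hK ⟨x, hx, hj⟩
    omega
  rcases hZ p hpΛ with ⟨x, hx, hno⟩ | ⟨y, hy, hno⟩
  · have hxB : x ∈ Bx := Set.mem_biUnion hpΛ hx
    rcases hlx : lab x with b | j
    · obtain ⟨b', hb'⟩ := hqD b ⟨x, hxB, hlx⟩
      obtain ⟨y, hy1, hy2⟩ := hp'.fwd (Sum.inl b, Sum.inl b')
        (Or.inl ⟨(b, b'), Or.inr hb', rfl⟩) x hlx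
      refine hno y ?_ (hin hy2)
      intro c hc
      rw [hy1] at hc
      rw [← Sum.inl_injective hc]
      exact (hqUV _ hb').2
    · obtain ⟨y, hy1, hy2⟩ := hp'.fwd (Sum.inr j, Sum.inr j)
        (Or.inr ⟨j, hlt x (Or.inl hxB) j hlx, rfl⟩) x hlx
      refine hno y ?_ (hin hy2)
      intro c hc
      rw [hy1] at hc
      cases hc
  · have hyB : y ∈ By := Set.mem_biUnion hpΛ hy
    rcases hly : lab y with b | j
    · obtain ⟨b', hb'⟩ := hqE b ⟨y, hyB, hly⟩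
      obtain ⟨x, hx1, hx2⟩ := hp'.bwd (Sum.inl b', Sum.inl b)
        (Or.inl ⟨(b', b), Or.inr hb', rfl⟩) y hly
      refine hno x ?_ (hin hx2)
      intro c hc
      rw [hx1] at hc
      rw [← Sum.inl_injective hc]
      exact (hqUV _ hb').1
    · obtain ⟨x, hx1, hx2⟩ := hp'.bwd (Sum.inr j, Sum.inr j)
        (Or.inr ⟨j, hlt y (Or.inr hyB) j hly, rfl⟩) y hly
      refine hno x ?_ (hin hx2)
      intro c hc
      rw [hx1] at hc
      cases hc

end HEC
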