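import Pool.Agent.HEC.StQ
import Pool.Agent.HEI.ALLI

/-!
# HEC, module MNC: the final theorem
-/

set_option autoImplicit false
set_option linter.unusedSectionVars false
set_option linter.unusedVariables false

namespace HEC

open Set Pool.Agent.Helper5 Pool.Agent.Helper5.DU Pool.Agent.Helper6.Str
  Pool.Agent.Helper79.VC Pool.Agent.Helper97.VC Pool.Agent.Helper97.MD Pool.Agent.Helper6.VC
  Pool.Agent.Helper97.LO HER HERN

/-- a structure with the general properties is tame -/
theorem tameX_of_cx {L : FirstOrder.Language.{0, 0}} {M : Type} {S : L.Structure M} {F : Set M}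
    (hC : HERN.Cx S F) : TameX S (univ : Set M) := by
  obtain ⟨m, A, hL⟩ := HEI.all_CLA L M S F hC
  have hfin := HEI.all_BFT L M S F m A hL
  obtain ⟨g0, hFS, hX⟩ := HEI.all_FSA L M S F m A hL hC.rows hfin
  obtain ⟨T1, g1, hFS1, h3, hB⟩ := HEI.all_THN L M S F _ g0 hFS
  rw [hX] at hB
  exact (HEI.all_TMX L M S F T1 g1 hFS1 h3).congr fun γ _ =>
    (hB γ).symm fun a ha => absurd ha (notMem_empty a)

/-- the large structures of the class are tame -/
def St_MNC : Prop := ∀ (L : FirstOrder.Language.{0, 0}) [∀ n, IsEmpty (L.Functions n)]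
  [∀ n, Countable (L.Relations n)] (g : Set (L.Relations 2)) (K : Set (L.Structure ℕ))
  (δ : Ordinal.{0}) (M : Type) (S : L.Structure M), VSt K δ S → HerC g K →
  TameX S (univ : Set M)

theorem thm_MNC (hC : St_CXQ) (hT : St_TMQ) : St_MNC := by
  intro L _ _ g K δ M S hV hK
  by_cases hM : (univ : Set M).Countable
  · exact tameX_of_countable hM
  obtain ⟨Q, lab, F, hF, hCx⟩ := hC L g K δ M S hV hK hM
  exact hT L M Q S lab hF (tameX_of_cx hCx)

variable {L : FirstOrder.Language.{0, 0}}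

private theorem MNC_mono {K : Set (L.Structure ℕ)} {d d' : Ordinal.{0}} (h : ClosedLev K d)
    (hd : d ≤ d') : ClosedLev K d' :=
  fun S hS S' hSS => h S hS S' (hSS.mono hd)

/-- the main theorem for classes of structures on the natural numbers -/
private theorem MNC_main (hM : St_MNC) [∀ n, IsEmpty (L.Functions n)]
    [∀ n, Countable (L.Relations n)] (g : Set (L.Relations 2)) (K : Set (L.Structure ℕ))
    (hK : MeasurableSet {c : Code L | toStr c ∈ K})
    (d : Ordinal.{0}) (hd : d < om1) (hcl : ClosedLev K d) (hH : HerC g K)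
    (hP : ¬ PerfK K) : CtblK K := by
  by_contra hC
  have hS := scat_of_not_perf hK hP
  obtain ⟨M, S, hlev, hNT⟩ := exists_model hK hS hd hcl hC
  have hV : VSt K (max d (Ordinal.omega0 + Ordinal.omega0)) S :=
    ⟨hK, hS, max_lt hd (add_lt_om1 omega_lt_om1 omega_lt_om1), le_max_right _ _,
      MNC_mono hcl (le_max_left _ _), hlev⟩
  exact not_noCtblType (hM L g K _ M S hV hH) hNT

theorem dichotomy_of_mnc (hM : St_MNC) (hc : Countable L.Symbols)
    (hrel : ∀ n, IsEmpty (L.Functions n)) (g : Set (L.Relations 2)) (T : L.Theory)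
    (φ : FmI L 0)
    (hf : ∀ S : L.Structure ℕ, IsMod T φ S → ∀ x : ℕ,
      {y | Relation.ReflTransGen (fun a b => ∃ R ∈ g, S.RelMap R ![a, b]) x y}.Finite)
    (h : ∀ S : L.Structure ℕ, IsMod T φ S → ∃ F : Set ℕ, F.Finite ∧
      ∀ (f : ℕ → ℕ) (S' : L.Structure ℕ), Function.Injective f → F ⊆ range f →
        (∀ a ∈ range f, ∀ b, ∀ R ∈ g, S.RelMap R ![a, b] → b ∈ range f) →
        (∀ (n : ℕ) (R : L.Relations n) (v : Fin n → ℕ),
          S'.RelMap R v ↔ S.RelMap R (fun i => f (v i))) → IsMod T φ S') :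
    (∃ g : ℕ → L.Structure ℕ, ∀ S : L.Structure ℕ, IsMod T φ S →
        ∃ n : ℕ, Nonempty (@FirstOrder.Language.Equiv L ℕ ℕ S (g n))) ∨
    (∃ f : (ℕ → Bool) → L.Structure ℕ,
        (∀ x : ℕ → Bool, IsMod T φ (f x)) ∧
        (∀ x y : ℕ → Bool,
            Nonempty (@FirstOrder.Language.Equiv L ℕ ℕ (f x) (f y)) → x = y) ∧
        (∀ (n : ℕ) (R : L.Relations n) (a : Fin n → ℕ),
            IsClopen {x : ℕ → Bool | @FirstOrder.Language.Structure.RelMap L ℕ (f x) n R a})) := by
  have hcr : ∀ n, Countable (L.Relations n) := countable_relations hc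
  let K : Set (L.Structure ℕ) := {S | IsMod T φ S}
  obtain ⟨hK, d, hd, hcl⟩ := exists_level hc T φ (K := K) fun S => Iff.rfl
  by_cases hP : PerfK K
  · obtain ⟨f, hf1, hf2, hf3⟩ := hP
    exact Or.inr ⟨f, hf1, fun x y h => hf2 x y ((nonempty_equiv_iff _ _).mp h), hf3⟩
  · have hH : HerC g K := by
      intro S hS
      obtain ⟨F, hF, h1⟩ := h S hS
      refine ⟨hf S hS, F, hF, fun f hf hFf hcl => ?_⟩
      exact h1 f _ hf hFf (fun a ha b R hR hab => hcl a ha b ⟨R, hR, hab⟩) fun n R v => Iff.rfl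
    obtain ⟨e, he⟩ := MNC_main hM g K hK d hd hcl hH hP
    refine Or.inl ⟨e, fun S h1 => ?_⟩
    obtain ⟨n, hn⟩ := he S h1
    exact ⟨n, (nonempty_equiv_iff S (e n)).mpr hn⟩

end HEC
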