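import Pool.Agent.HEC.StQ

/-! # HEC, module MVS: finitely many moves in both directions (helper87) -/

set_option autoImplicit false
set_option linter.unusedVariables false

namespace HEC

open Set Pool.Agent.Helper5.DU Pool.Agent.Helper6.Str Pool.Agent.Helper79.VC
  Pool.Agent.Helper97.LO Pool.Agent.Helper97.VC HER HERN

private theorem MVS_enum {M : Type} {D U : Set M} (hD : D.Finite) (hU : D ⊆ U) :
    ∃ (n : ℕ) (x : Fin n → M), (∀ i, x i ∈ U) ∧ ∀ a ∈ D, ∃ i, x i = a := by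
  have := hD.to_subtype
  obtain ⟨n, ⟨e⟩⟩ := Finite.exists_equiv_fin D
  refine ⟨n, fun i => (e.symm i : M), fun i => hU (e.symm i).2, fun a ha => ⟨e ⟨a, ha⟩, ?_⟩⟩
  simp

theorem thm_MVS : St_MVS := by
  intro L M N S T U V γ γ' p D E hD hE hDU hEV hγ h
  obtain ⟨n, x, hx, hxD⟩ := MVS_enum hD hDU
  obtain ⟨m, y', hy', hyE⟩ := MVS_enum hE hEV
  have h1 : γ + (m : Ordinal.{0}) + (n : Ordinal.{0}) ≤ γ' := by
    refine le_trans ?_ hγ
    rw [add_assoc]
    refine add_le_add_right ?_ γ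
    have h2 : ((m + n : ℕ) : Ordinal.{0}) < Ordinal.omega0 := Ordinal.natCast_lt_omega0 _
    rw [Nat.cast_add] at h2
    exact h2.le
  obtain ⟨y, hy, h3⟩ := BFR.forth_many n (h.mono h1) x hx
  obtain ⟨x', hx', h4⟩ := BFR.back_many m h3 y' hy'
  refine ⟨(range fun i => (x i, y i)) ∪ range fun i => (x' i, y' i),
    (finite_range _).union (finite_range _), ?_, ?_, ?_, ?_⟩
  · rintro a (⟨i, rfl⟩ | ⟨i, rfl⟩)
    · exact ⟨hx i, hy i⟩
    · exact ⟨hx' i, hy' i⟩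
  · intro a ha
    obtain ⟨i, rfl⟩ := hxD a ha
    exact ⟨y i, Or.inl ⟨i, rfl⟩⟩
  · intro b hb
    obtain ⟨i, rfl⟩ := hyE b hb
    exact ⟨x' i, Or.inr ⟨i, rfl⟩⟩
  · rw [← union_assoc]
    exact h4

end HEC
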