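import Pool.Agent.HEC.StP

/-!
# HEC: the orbits of the automorphism group of the countable part are finite
-/

set_option autoImplicit false

namespace HEC

open Set Pool.Agent.Helper5.DU Pool.Agent.Helper6.Str Pool.Agent.Helper79.VC
  Pool.Agent.Helper97.LO Pool.Agent.Helper97.VC HER HERN

section

variable {L : FirstOrder.Language.{0, 0}} {M : Type} {S : L.Structure M}
  {g : Set (L.Relations 2)} {F1 A : Set M}

theorem NEA_cc (S : L.Structure M) (g : Set (L.Relations 2)) : Cld S g (Cc S g) := by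
  intro a ha b hab n
  obtain ⟨y, h1, h2⟩ := ha n
  exact ⟨y, Relation.ReflTransGen.tail h1 hab, h2⟩

theorem NEA_mem (hA : Cld S g A) {x z : M} (hx : x ∈ A) (h : Ge S g x z) : z ∈ A := by
  induction h with
  | refl => exact hx
  | tail _ h2 ih => exact hA _ ih _ h2

/-- the automorphism group -/
def NEA_H (S : L.Structure M) (A F1 : Set M) : Subgroup (Equiv.Perm A) where
  carrier := {σ | Aut1 S A F1 σ}
  one_mem' := ⟨fun _ _ _ => Iff.rfl, fun _ _ => rfl⟩
  mul_mem' := by
    rintro σ τ ⟨h1, h2⟩ ⟨h3, h4⟩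
    refine ⟨fun n R v => (h3 n R v).trans (h1 n R fun i => τ (v i)), fun x hx => ?_⟩
    change σ (τ x) = x
    rw [h4 x hx, h2 x hx]
  inv_mem' := by
    rintro σ ⟨h1, h2⟩
    refine ⟨fun n R v => ?_, fun x hx => ?_⟩
    · have h3 := h1 n R fun i => σ⁻¹ (v i)
      have h4 : (fun i => ((σ (σ⁻¹ (v i)) : A) : M)) = fun i => (v i : M) := by
        funext i
        exact congrArg Subtype.val (σ.apply_symm_apply (v i))
      rw [h4] at h3
      exact h3.symm
    · exact (Equiv.symm_apply_eq σ).2 (h2 x hx).symm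

theorem NEA_stp {σ : Equiv.Perm A} (hσ : Aut1 S A F1 σ) {x y : A} (h : Stp S g (x : M) (y : M)) :
    Stp S g (σ x : M) (σ y : M) := by
  obtain ⟨R, hR, h1⟩ := h
  refine ⟨R, hR, ?_⟩
  have h2 := hσ.1 2 R ![x, y]
  have h3 : (fun i : Fin 2 => ((![x, y] i : A) : M)) = ![(x : M), (y : M)] := by
    funext i
    refine Fin.cases rfl (fun j => ?_) i
    have hj : j = 0 := Subsingleton.elim _ _
    subst hj
    rfl
  have h4 : (fun i : Fin 2 => ((σ (![x, y] i) : A) : M)) = ![(σ x : M), (σ y : M)] := by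
    funext i
    refine Fin.cases rfl (fun j => ?_) i
    have hj : j = 0 := Subsingleton.elim _ _
    subst hj
    rfl
  rw [h3, h4] at h2
  exact h2.1 h1

theorem NEA_ge (hA : Cld S g A) {σ : Equiv.Perm A} (hσ : Aut1 S A F1 σ) {x y : A}
    (h : Ge S g (x : M) (y : M)) : Ge S g (σ x : M) (σ y : M) := by
  have key : ∀ z : M, Ge S g (x : M) z → ∀ hz : z ∈ A, Ge S g (σ x : M) (σ ⟨z, hz⟩ : M) := by
    intro z hxz
    induction hxz with
    | refl =>
      intro _
      exact Relation.ReflTransGen.refl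
    | @tail b c h1 h2 ih =>
      intro hz
      have hb : b ∈ A := NEA_mem hA x.2 h1
      exact Relation.ReflTransGen.tail (ih hb) (NEA_stp hσ (x := ⟨b, hb⟩) (y := ⟨c, hz⟩) h2)
  exact key y h y.2

theorem NEA_ht_le (hA : Cld S g A) (hLF : LF S g) {σ : Equiv.Perm A} (hσ : Aut1 S A F1 σ)
    (y : A) : ht S g (y : M) ≤ ht S g (σ y : M) := by
  classical
  have hm : ∀ z ∈ dn S g (y : M), z ∈ A := fun z hz => NEA_mem hA y.2 hz
  refine Set.ncard_le_ncard_of_injOn (fun z => if h : z ∈ A then (σ ⟨z, h⟩ : M) else z) ?_ ?_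
    (hLF _)
  · intro z hz
    have h1 := hm z hz
    simp only [h1, dif_pos]
    exact NEA_ge hA hσ (x := y) (y := ⟨z, h1⟩) hz
  · intro z hz z' hz' h
    have h1 := hm z hz
    have h2 := hm z' hz'
    simp only [h1, h2, dif_pos] at h
    have h3 := σ.injective (Subtype.ext h)
    exact congrArg Subtype.val h3

theorem NEA_ht (hA : Cld S g A) (hLF : LF S g) (σ : NEA_H S A F1) (y : A) :
    ht S g ((σ • y : A) : M) = ht S g (y : M) := by
  apply le_antisymm
  · have h1 := NEA_ht_le hA hLF (σ⁻¹ : NEA_H S A F1).2 (σ • y)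
    have h2 : ((σ⁻¹ : NEA_H S A F1) : Equiv.Perm A) (σ • y) = y := inv_smul_smul σ y
    rw [h2] at h1
    exact h1
  · exact NEA_ht_le hA hLF σ.2 y

theorem NEA_fin (hLF : LF S g) (A : Set M) (y : M) : {v : A | Ge S g y (v : M)}.Finite :=
  Set.Finite.preimage (Subtype.val_injective.injOn) (hLF y)

end

theorem thm_NEA (hNPM : St_NPM) : St_NEA := by
  intro L M S g F1 A n hLF hNo hHv hF1 hC1 hA a0
  have hcl : Cld S g A := by
    rw [hA]
    rintro x (hx | hx) b hb
    · exact Or.inl (NEA_cc S g x hx b hb)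
    · exact Or.inr (hC1 x hx b hb)
  have horb : ∀ a : A, {b : A | ∃ σ, Aut1 S A F1 σ ∧ σ a = b} =
      MulAction.orbit (NEA_H S A F1) a := by
    intro a
    apply Set.Subset.antisymm
    · rintro b ⟨σ, h1, h2⟩
      exact ⟨⟨σ, h1⟩, h2⟩
    · rintro b ⟨σ, h2⟩
      exact ⟨σ.1, σ.2, h2⟩
  rw [horb]
  by_contra hinf
  have hinf : (MulAction.orbit (NEA_H S A F1) a0).Infinite := hinf
  have ha0 : (a0 : M) ∈ Cc S g := by
    have h1 : (a0 : M) ∈ Cc S g ∪ F1 := by
      rw [← hA]
      exact a0.2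
    rcases h1 with h1 | h1
    · exact h1
    · exfalso
      apply hinf
      refine (Set.finite_singleton a0).subset ?_
      rintro b ⟨σ, h2⟩
      have h3 : (σ : Equiv.Perm A) a0 = a0 := σ.2.2 a0 h1
      exact h2.symm.trans h3
  have hup : ∀ y : A, Ge S g (y : M) (a0 : M) →
      (MulAction.orbit (NEA_H S A F1) y).Infinite := by
    intro y hy hfin
    apply hinf
    refine (hfin.biUnion fun y' _ => NEA_fin hLF A (y' : M)).subset ?_
    rintro b ⟨σ, rfl⟩
    refine Set.mem_biUnion (x := σ • y) (MulAction.mem_orbit y σ) ?_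
    exact NEA_ge hcl σ.2 hy
  have hhigh : ∀ k : ℕ, ∃ y : A, Ge S g (y : M) (a0 : M) ∧ k < ht S g (y : M) := by
    intro k
    obtain ⟨y, h1, h2⟩ := ha0 (max k n)
    have h3 : y ∈ Hv S g n := ⟨y, Relation.ReflTransGen.refl, lt_of_le_of_lt (le_max_right _ _) h2⟩
    rw [hHv] at h3
    have h4 : y ∈ A := by
      rw [hA]
      exact Or.inl h3
    exact ⟨⟨y, h4⟩, h1, lt_of_le_of_lt (le_max_left _ _) h2⟩
  obtain ⟨w, hw1, hw2⟩ := exists_seq_of_forall_finset_exists
    (fun y : A => (MulAction.orbit (NEA_H S A F1) y).Infinite)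
    (fun x y : A => ht S g (x : M) < ht S g (y : M) ∧ ¬ Ge S g (x : M) (y : M) ∧
      ¬ Ge S g (y : M) (x : M)) (by
    intro s hs
    obtain ⟨y, hy1, hy2⟩ := hhigh (s.sup fun x => ht S g (x : M))
    have hB : {v : A | Ge S g (y : M) (v : M) ∧
        (MulAction.orbit (NEA_H S A F1) v).Infinite}.Finite :=
      (NEA_fin hLF A (y : M)).subset fun v hv => hv.1
    have hB' : {v : A | ∃ d ∈ s, Ge S g (d : M) (v : M)}.Finite := by
      refine (s.finite_toSet.biUnion fun d _ => NEA_fin hLF A (d : M)).subset ?_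
      rintro v ⟨d, hd, hv⟩
      exact Set.mem_biUnion (x := d) hd hv
    obtain ⟨σ, hσ⟩ := hNPM (NEA_H S A F1) A _ _ hB hB' fun b hb => hb.2
    refine ⟨σ • y, ?_, ?_⟩
    · change (MulAction.orbit (NEA_H S A F1) (σ • y)).Infinite
      rw [MulAction.orbit_smul]
      exact hup y hy1
    · intro d hd
      refine ⟨?_, ?_, ?_⟩
      · rw [NEA_ht hcl hLF σ y]
        exact lt_of_le_of_lt (Finset.le_sup (f := fun x : A => ht S g (x : M)) hd) hy2
      · intro h
        exact hσ y ⟨Relation.ReflTransGen.refl, hup y hy1⟩ ⟨d, hd, h⟩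
      · intro h
        have h1 := NEA_ge hcl (σ⁻¹ : NEA_H S A F1).2 h
        have h2 : ((σ⁻¹ : NEA_H S A F1) : Equiv.Perm A) (σ • y) = y := inv_smul_smul σ y
        rw [h2] at h1
        have h3 : (MulAction.orbit (NEA_H S A F1) ((σ⁻¹ : NEA_H S A F1) • d)).Infinite := by
          rw [MulAction.orbit_smul]
          exact hs d hd
        refine hσ ((σ⁻¹ : NEA_H S A F1) • d) ⟨h1, h3⟩ ⟨d, hd, ?_⟩
        rw [smul_inv_smul]
        exact Relation.ReflTransGen.refl)
  apply hNo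
  refine ⟨fun i => (w i : M), fun i j hij => ?_, fun i j hij => (hw2 i j hij).1⟩
  rcases lt_or_gt_of_ne hij with h | h
  · exact (hw2 i j h).2.1
  · exact (hw2 j i h).2.2

end HEC
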