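import Pool.Agent.HEC.StP

/-!
# HEC [NEU]: an invariant finite-to-one map on the countable part (helper46)
-/

set_option autoImplicit false

namespace HEC

open Set Pool.Agent.Helper5.DU Pool.Agent.Helper6.Str Pool.Agent.Helper79.VC
  Pool.Agent.Helper97.LO Pool.Agent.Helper97.VC HER HERN

variable {L : FirstOrder.Language.{0, 0}} {M : Type}

theorem NEU_one (S : L.Structure M) (A F1 : Set M) : Aut1 S A F1 1 :=
  ⟨fun _ _ _ => Iff.rfl, fun _ _ => rfl⟩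

theorem NEU_mul {S : L.Structure M} {A F1 : Set M} {σ τ : Equiv.Perm A} (hσ : Aut1 S A F1 σ)
    (hτ : Aut1 S A F1 τ) : Aut1 S A F1 (σ * τ) := by
  refine ⟨fun n R v => ?_, fun x hx => ?_⟩
  · rw [hτ.1 n R v, hσ.1 n R fun i => τ (v i)]
    rfl
  · rw [Equiv.Perm.mul_apply, hτ.2 x hx, hσ.2 x hx]

theorem NEU_inv {S : L.Structure M} {A F1 : Set M} {σ : Equiv.Perm A} (hσ : Aut1 S A F1 σ) :
    Aut1 S A F1 σ⁻¹ := by
  refine ⟨fun n R v => ?_, fun x hx => ?_⟩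
  · rw [hσ.1 n R fun i => σ⁻¹ (v i)]
    simp
  · rw [Equiv.Perm.inv_eq_iff_eq, hσ.2 x hx]

/-- the orbit -/
def NEU_O (S : L.Structure M) (A F1 : Set M) (x : A) : Set A := {b : A | ∃ σ, Aut1 S A F1 σ ∧ σ x = b}

theorem NEU_self (S : L.Structure M) (A F1 : Set M) (x : A) : x ∈ NEU_O S A F1 x :=
  ⟨1, NEU_one S A F1, rfl⟩

theorem NEU_symm {S : L.Structure M} {A F1 : Set M} {x y : A} (h : y ∈ NEU_O S A F1 x) :
    x ∈ NEU_O S A F1 y := by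
  obtain ⟨σ, hσ, rfl⟩ := h
  exact ⟨σ⁻¹, NEU_inv hσ, by simp⟩

theorem NEU_sub {S : L.Structure M} {A F1 : Set M} {x y : A} (h : y ∈ NEU_O S A F1 x) :
    NEU_O S A F1 y ⊆ NEU_O S A F1 x := by
  obtain ⟨σ, hσ, rfl⟩ := h
  rintro _ ⟨τ, hτ, rfl⟩
  exact ⟨τ * σ, NEU_mul hτ hσ, rfl⟩

theorem NEU_eq {S : L.Structure M} {A F1 : Set M} {x y : A} (h : y ∈ NEU_O S A F1 x) :
    NEU_O S A F1 y = NEU_O S A F1 x :=
  Subset.antisymm (NEU_sub h) (NEU_sub (NEU_symm h))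

theorem thm_NEU (hAUT : St_AUT) (hNEA : St_NEA) : St_NEU := by
  classical
  intro L M S g F1 A n hLF hNo hHv hF1 hCl hA hAc
  obtain ⟨κ, hκ, hSL⟩ := exists_SL_of_countable (S := S) hAc
  have hfin : ∀ x : A, (NEU_O S A F1 x).Finite := fun x =>
    hNEA L M S g F1 A n hLF hNo hHv hF1 hCl hA x
  have := hAc.to_subtype
  obtain ⟨e, he⟩ := exists_injective_nat A
  refine ⟨fun x => if h : x ∈ A then sInf (e '' NEU_O S A F1 ⟨x, h⟩) else 0, κ, hκ, ?_, ?_⟩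
  · intro k
    by_cases hb : ∃ b : A, e b = k
    · obtain ⟨b, rfl⟩ := hb
      refine ((hfin b).image (Subtype.val : A → M)).subset ?_
      rintro x ⟨hx, hxk⟩
      simp only [dif_pos hx] at hxk
      have h1 : sInf (e '' NEU_O S A F1 ⟨x, hx⟩) ∈ e '' NEU_O S A F1 ⟨x, hx⟩ :=
        Nat.sInf_mem ⟨_, mem_image_of_mem e (NEU_self S A F1 ⟨x, hx⟩)⟩
      rw [hxk] at h1
      obtain ⟨c, hc, hcb⟩ := h1
      rw [he hcb] at hc
      exact ⟨⟨x, hx⟩, NEU_symm hc, rfl⟩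
    · refine Set.finite_empty.subset ?_
      rintro x ⟨hx, hxk⟩
      simp only [dif_pos hx] at hxk
      have h1 : sInf (e '' NEU_O S A F1 ⟨x, hx⟩) ∈ e '' NEU_O S A F1 ⟨x, hx⟩ :=
        Nat.sInf_mem ⟨_, mem_image_of_mem e (NEU_self S A F1 ⟨x, hx⟩)⟩
      rw [hxk] at h1
      obtain ⟨c, -, hcb⟩ := h1
      exact hb ⟨c, hcb⟩
  · intro x hx x' hx' hB
    have hp : (insert (x, x') (dg F1)).Finite := (hF1.image _).insert _
    obtain ⟨σ, hσ, hσx⟩ := hAUT L M S A F1 κ (insert (x, x') (dg F1)) hAc hκ hSL hp (by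
      intro a ha
      rcases mem_insert_iff.1 ha with rfl | ha
      · exact ⟨hx, hx'⟩
      · obtain ⟨y, hy, rfl⟩ := ha
        have : y ∈ A := by
          rw [hA]
          exact Or.inr hy
        exact ⟨this, this⟩) (subset_insert _ _) hB
    have h1 : (⟨x', hx'⟩ : A) ∈ NEU_O S A F1 ⟨x, hx⟩ :=
      ⟨σ, hσ, hσx ⟨x, hx⟩ ⟨x', hx'⟩ (mem_insert _ _)⟩
    simp only [dif_pos hx, dif_pos hx']
    rw [NEU_eq h1]

end HEC
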