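import Pool.Agent.HEC.StQ

/-!
# HEC [PGQ]: the pigeonhole principle for quotients
-/

set_option autoImplicit false
set_option linter.unusedVariables false

namespace HEC

open Set Pool.Agent.Helper5.DU Pool.Agent.Helper6.Str Pool.Agent.Helper79.VC
  Pool.Agent.Helper97.LO Pool.Agent.Helper97.VC HER HERN

/-- the countable part and countably many blocks are countable -/
theorem PGQ_ctb {N Q : Type} {lab : N → Q ⊕ ℕ} (h : Fib lab) {U : Set Q} (hU : U.Countable) :
    (Xs lab U).Countable := by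
  have h1 : (⋃ l ∈ Sum.inl '' U ∪ range (Sum.inr : ℕ → Q ⊕ ℕ), {x | lab x = l}).Countable :=
    ((hU.image _).union (countable_range _)).biUnion fun l _ => (h.fin l).countable
  refine h1.mono fun x hx => ?_
  simp only [mem_iUnion]
  refine ⟨lab x, ?_, rfl⟩
  rcases hl : lab x with b | k
  · exact Or.inl ⟨b, hx b hl, rfl⟩
  · exact Or.inr ⟨k, rfl⟩

theorem thm_PGQ (hBQQ : St_BQQ) : St_PGQ := by
  intro L M0 N Q0 Q S0 lab0 T g m f0 lab γ F hc hγ hF hP
  choose rep hrep using hc.fib.ne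
  have hinj : Function.Injective rep := by
    intro b b' hb
    have h1 := hrep b
    rw [hb, hrep b'] at h1
    exact (Sum.inl_injective h1).symm
  refine ⟨{b | ∃ x ∈ F, lab x = Sum.inl b}, ?_, ?_⟩
  · refine ((hF.image lab).preimage Sum.inl_injective.injOn).subset ?_
    rintro b ⟨x, hx, hb⟩
    exact ⟨x, hx, hb⟩
  · intro X G β hG hFG hβ hX
    have hG' : (range f0 ∪ F ∪ rep '' G).Finite :=
      ((finite_range f0).union hF).union (hG.image rep)
    have hsub : ∀ f, range f0 ∪ F ∪ rep '' G ⊆ Xs lab (X f) := by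
      rintro f x ((⟨i, rfl⟩ | hx) | ⟨b, hb, rfl⟩) b' hb'
      · obtain ⟨k, hk⟩ := hc.cst i
        rw [hk] at hb'
        exact absurd hb' (by simp)
      · exact (hX f).2.2 (hFG ⟨x, hx, hb'⟩)
      · rw [hrep b] at hb'
        rw [← Sum.inl_injective hb']
        exact (hX f).2.2 hb
    have hlev : γ + Ordinal.omega0 + β < om1 := add_lt_om1 (add_lt_om1 hγ omega_lt_om1) hβ
    obtain ⟨f, f', hff, hB⟩ := hP (fun f => Xs lab (X f)) (range f0 ∪ F ∪ rep '' G)
      (γ + Ordinal.omega0 + β) hG' (fun x hx => Or.inl (Or.inr hx)) hlev (fun f => by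
        refine ⟨PGQ_ctb hc.fib (hX f).1, ?_, hsub f, hc.cld _⟩
        refine ((hX f).2.1.image hinj.injOn).mono ?_
        rintro _ ⟨b, hb, rfl⟩ b' hb'
        rw [hrep b] at hb'
        rw [← Sum.inl_injective hb']
        exact hb)
    refine ⟨f, f', hff, ?_⟩
    refine hBQQ L M0 N N Q0 Q Q S0 lab0 T lab T lab (prs f0 f0) γ (X f) (X f') hc.fib hc.fib
      (hc.vis _ _) β (dg (range f0 ∪ F ∪ rep '' G)) (dg G) (hG.image _) ?_ ?_ ?_ hB
    · rintro _ ⟨i, rfl⟩
      exact ⟨f0 i, Or.inl (Or.inl ⟨i, rfl⟩), rfl⟩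
    · rintro _ ⟨x, hx, rfl⟩
      exact ⟨hsub f hx, hsub f' hx⟩
    · rintro _ ⟨b, hb, rfl⟩
      exact ⟨(rep b, rep b), ⟨rep b, Or.inr ⟨b, hb, rfl⟩, rfl⟩, hrep b, hrep b⟩

end HEC
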