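import Pool.Agent.HEC.StQ

/-!
# HEC, [QAA]: atomic equivalence of tuples of blocks gives lifts
-/

set_option autoImplicit false
set_option linter.unusedVariables false

namespace HEC

open Set Pool.Agent.Helper5.DU Pool.Agent.Helper6.Str Pool.Agent.Helper79.VC
  Pool.Agent.Helper97.LO Pool.Agent.Helper97.VC HER HERN

theorem thm_QAA (hSIM : St_SIM) : St_QAA := by
  intro L M M' Q Q' S lab S' lab' pq hpq hAt k
  obtain ⟨n, v, -, hv⟩ := hpq.fin_param
  have hmem : ∀ i, v i ∈ pq := fun i => hv ▸ mem_range_self i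
  have hprs : prs (fun i => (v i).1) (fun i => (v i).2) = pq := hv
  have h1 : Sim S lab S lab (fun i => (v i).1) (fun i => (v i).1) :=
    hSIM.1 L M Q S lab n (fun i => (v i).1)
  have h2 : Sim S lab S' lab' (fun i => (v i).1) (fun i => (v i).2) :=
    (hAt.2 n (fun i => (v i).1 : Fin n → Q) v hmem).1 h1
  have h3 := h2 k
  rw [hprs] at h3
  exact h3

end HEC
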