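import Pool.Agent.HEC.StQ

/-!
# HEC, module QBB: lifts give atomic equivalence of tuples of blocks
-/

set_option autoImplicit false
set_option linter.unusedVariables false

namespace HEC

open Set Pool.Agent.Helper5.DU Pool.Agent.Helper6.Str Pool.Agent.Helper79.VC
  Pool.Agent.Helper97.LO Pool.Agent.Helper97.VC HER HERN

theorem thm_QBB (hSIM : St_SIM) (hLFA : St_LFA) : St_QBB := by
  intro L M0 M M' Q0 Q Q' S0 lab0 S lab S' lab' pq hF hF' h
  constructor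
  · intro r hr s hs
    obtain ⟨p, hp, hl⟩ := h 0
    have mr : ((Sum.inl r.1 : Q ⊕ ℕ), (Sum.inl r.2 : Q' ⊕ ℕ)) ∈ rho 0 pq := Or.inl ⟨r, hr, rfl⟩
    have ms : ((Sum.inl s.1 : Q ⊕ ℕ), (Sum.inl s.2 : Q' ⊕ ℕ)) ∈ rho 0 pq := Or.inl ⟨s, hs, rfl⟩
    constructor
    · intro he
      obtain ⟨x, hx⟩ := hF.ne r.1
      obtain ⟨y, hy, hxy⟩ := hl.fwd _ mr x hx
      obtain ⟨y', hy', hxy'⟩ := hl.fwd _ ms x (by rw [hx, he])
      have hyy : y = y' := (hp.1 _ hxy _ hxy').1 rfl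
      rw [hyy] at hy
      exact Sum.inl.inj (hy.symm.trans hy')
    · intro he
      obtain ⟨y, hy⟩ := hF'.ne r.2
      obtain ⟨x, hx, hxy⟩ := hl.bwd _ mr y hy
      obtain ⟨x', hx', hxy'⟩ := hl.bwd _ ms y (by rw [hy, he])
      have hxx : x = x' := (hp.1 _ hxy _ hxy').2 rfl
      rw [hxx] at hx
      exact Sum.inl.inj (hx.symm.trans hx')
  · intro n R v hv
    have hs : Sim S lab S' lab' (fun i => (v i).1) (fun i => (v i).2) := by
      intro k
      obtain ⟨p, hp, hl⟩ := h k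
      have hsub : rho k (prs (fun i => (v i).1) (fun i => (v i).2)) ⊆ rho k pq := by
        rintro r (⟨s, ⟨i, rfl⟩, rfl⟩ | ⟨j, hj, rfl⟩)
        · exact Or.inl ⟨v i, hv i, rfl⟩
        · exact Or.inr ⟨j, hj, rfl⟩
      exact ⟨_, hp.anti fun a ha => ha.1,
        hLFA _ _ _ _ lab lab' (rho k (prs (fun i => (v i).1) (fun i => (v i).2))) (rho k pq) p hl
          hsub⟩
    change Sim S0 lab0 S lab R (fun i => (v i).1) ↔ Sim S0 lab0 S' lab' R (fun i => (v i).2)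
    constructor
    · intro h1
      exact hSIM.2.2 _ _ _ _ _ _ _ _ _ _ _ _ _ _ _ _ _ h1 hs
    · intro h1
      exact hSIM.2.2 _ _ _ _ _ _ _ _ _ _ _ _ _ _ _ _ _ h1 (hSIM.2.1 _ _ _ _ _ _ _ _ _ _ _ _ hs)

end HEC
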