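import Pool.Agent.HEC.StQ

/-!
# HEC, module SIM: similarity of tuples of blocks is an equivalence relation
-/

set_option autoImplicit false
set_option linter.unusedVariables false

namespace HEC

open Set Pool.Agent.Helper5.DU Pool.Agent.Helper6.Str Pool.Agent.Helper79.VC
  Pool.Agent.Helper97.LO Pool.Agent.Helper97.VC HER HERN

/-- the diagonal of a set of labels -/
private theorem SIM_diag {Q : Type} {n : ℕ} (b : Fin n → Q) (k : ℕ) :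
    ∀ r ∈ rho k (prs b b), r.1 = r.2 := by
  rintro r (⟨s, ⟨i, rfl⟩, rfl⟩ | ⟨j, hj, rfl⟩)
  · rfl
  · rfl

private theorem SIM_refl (L : FirstOrder.Language.{0, 0}) (M Q : Type) (S : L.Structure M)
    (lab : M → Q ⊕ ℕ) (n : ℕ) (b : Fin n → Q) : Sim S lab S lab b b := by
  intro k
  refine ⟨{a | a.1 = a.2 ∧ (lab a.1, lab a.2) ∈ rho k (prs b b)}, ⟨?_, ?_⟩, ⟨?_, ?_, ?_⟩⟩
  · rintro ⟨p1, p2⟩ ⟨hp, -⟩ ⟨q1, q2⟩ ⟨hq, -⟩
    dsimp only at hp hq ⊢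
    rw [hp, hq]
  · intro m R v hv
    have : (fun i => (v i).1) = fun i => (v i).2 := by
      funext i
      exact (hv i).1
    rw [this]
  · rintro a ⟨-, h⟩
    exact h
  · intro r hr x hx
    have hd := SIM_diag b k r hr
    refine ⟨x, hx.trans hd, rfl, ?_⟩
    change (lab x, lab x) ∈ _
    have : (lab x, lab x) = r := Prod.ext hx (hx.trans hd)
    rw [this]
    exact hr
  · intro r hr x hx
    have hd := SIM_diag b k r hr
    refine ⟨x, hx.trans hd.symm, rfl, ?_⟩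
    change (lab x, lab x) ∈ _
    have : (lab x, lab x) = r := Prod.ext (hx.trans hd.symm) hx
    rw [this]
    exact hr

private theorem SIM_swap {Q Q' : Type} {n : ℕ} (b : Fin n → Q) (b' : Fin n → Q') (k : ℕ) :
    ∀ r ∈ rho k (prs b b'), r.swap ∈ rho k (prs b' b) := by
  rintro r (⟨s, ⟨i, rfl⟩, rfl⟩ | ⟨j, hj, rfl⟩)
  · exact Or.inl ⟨(b' i, b i), ⟨i, rfl⟩, rfl⟩
  · exact Or.inr ⟨j, hj, rfl⟩

private theorem SIM_symm (L : FirstOrder.Language.{0, 0}) (M M' Q Q' : Type) (S : L.Structure M)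
    (lab : M → Q ⊕ ℕ) (S' : L.Structure M') (lab' : M' → Q' ⊕ ℕ) (n : ℕ) (b : Fin n → Q)
    (b' : Fin n → Q') (h : Sim S lab S' lab' b b') : Sim S' lab' S lab b' b := by
  intro k
  obtain ⟨p, hp, hl⟩ := h k
  refine ⟨Prod.swap ⁻¹' p, ⟨?_, ?_⟩, ⟨?_, ?_, ?_⟩⟩
  · rintro u hu w hw
    exact (hp.1 _ hu _ hw).symm
  · intro m R v hv
    exact (hp.2 m R (fun i => (v i).swap) hv).symm
  · intro a ha
    exact SIM_swap b b' k _ (hl.mem _ ha)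
  · intro r hr x hx
    obtain ⟨y, hy, hxy⟩ := hl.bwd _ (SIM_swap b' b k _ hr) x hx
    exact ⟨y, hy, hxy⟩
  · intro r hr x hx
    obtain ⟨y, hy, hxy⟩ := hl.fwd _ (SIM_swap b' b k _ hr) x hx
    exact ⟨y, hy, hxy⟩

private theorem SIM_trans (hLFA : St_LFA) (L : FirstOrder.Language.{0, 0})
    (M M' M'' Q Q' Q'' : Type) (S : L.Structure M) (lab : M → Q ⊕ ℕ) (S' : L.Structure M')
    (lab' : M' → Q' ⊕ ℕ) (S'' : L.Structure M'') (lab'' : M'' → Q'' ⊕ ℕ) (n : ℕ)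
    (b : Fin n → Q) (b' : Fin n → Q') (b'' : Fin n → Q'') (h : Sim S lab S' lab' b b')
    (h' : Sim S' lab' S'' lab'' b' b'') : Sim S lab S'' lab'' b b'' := by
  intro k
  obtain ⟨p, hp, hl⟩ := h k
  obtain ⟨p', hp', hl'⟩ := h' k
  have hq : AtEq S S'' (cmp p p') := BF.trans Rk.zero hp hp'
  have hL : Lft lab lab'' {r | ∃ l, (r.1, l) ∈ rho k (prs b b') ∧ (l, r.2) ∈ rho k (prs b' b'')}
      (cmp p p') := by
    refine ⟨?_, ?_, ?_⟩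
    · rintro a ⟨y, h1, h2⟩
      exact ⟨lab' y, hl.mem _ h1, hl'.mem _ h2⟩
    · rintro r ⟨l, h1, h2⟩ x hx
      obtain ⟨y, hy, hxy⟩ := hl.fwd _ h1 x hx
      obtain ⟨z, hz, hyz⟩ := hl'.fwd _ h2 y hy
      exact ⟨z, hz, y, hxy, hyz⟩
    · rintro r ⟨l, h1, h2⟩ z hz
      obtain ⟨y, hy, hyz⟩ := hl'.bwd _ h2 z hz
      obtain ⟨x, hx, hxy⟩ := hl.bwd _ h1 y hy
      exact ⟨x, hx, y, hxy, hyz⟩
  have hsub : rho k (prs b b'') ⊆
      {r | ∃ l, (r.1, l) ∈ rho k (prs b b') ∧ (l, r.2) ∈ rho k (prs b' b'')} := by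
    rintro r (⟨s, ⟨i, rfl⟩, rfl⟩ | ⟨j, hj, rfl⟩)
    · exact ⟨Sum.inl (b' i), Or.inl ⟨(b i, b' i), ⟨i, rfl⟩, rfl⟩,
        Or.inl ⟨(b' i, b'' i), ⟨i, rfl⟩, rfl⟩⟩
    · exact ⟨Sum.inr j, Or.inr ⟨j, hj, rfl⟩, Or.inr ⟨j, hj, rfl⟩⟩
  exact ⟨_, AtEq.anti (fun a ha => ha.1) hq, hLFA _ _ _ _ lab lab'' _ _ _ hL hsub⟩

/-- Similarity of tuples of blocks is an equivalence relation. -/
theorem thm_SIM (hLFA : St_LFA) : St_SIM :=
  ⟨SIM_refl, SIM_symm, SIM_trans hLFA⟩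

end HEC
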