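import Pool.Agent.HEC.StP

/-!
# HEC: a sequence of finite sets
-/

set_option autoImplicit false

namespace HEC

open Set

theorem thm_SQW : St_SQW := by
  intro M A P h
  choose! w hw using h
  let s : ℕ → {D : Set M // D.Finite} × ℕ := fun n => Nat.rec (⟨∅, Set.finite_empty⟩, 0)
    (fun _ t => (⟨t.1.1 ∪ w t.1.1 t.2, t.1.2.union (hw t.1.1 t.2 t.1.2).1⟩,
      (w t.1.1 t.2 \ A).ncard + 1 + t.2)) n
  have hs : ∀ n, s (n + 1) = (⟨(s n).1.1 ∪ w (s n).1.1 (s n).2,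
      (s n).1.2.union (hw (s n).1.1 (s n).2 (s n).1.2).1⟩,
      (w (s n).1.1 (s n).2 \ A).ncard + 1 + (s n).2) := fun _ => rfl
  have hs1 : ∀ n, (s (n + 1)).1.1 = (s n).1.1 ∪ w (s n).1.1 (s n).2 := fun n => by rw [hs n]
  have hs2 : ∀ n, (s (n + 1)).2 = (w (s n).1.1 (s n).2 \ A).ncard + 1 + (s n).2 := fun n => by
    rw [hs n]
  have hW : ∀ n, (w (s n).1.1 (s n).2).Finite ∧ P (w (s n).1.1 (s n).2) ∧
      w (s n).1.1 (s n).2 ∩ (s n).1.1 ⊆ A ∧ (s n).2 ≤ (w (s n).1.1 (s n).2 \ A).ncard :=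
    fun n => hw (s n).1.1 (s n).2 (s n).1.2
  have hsub : ∀ m n, m < n → w (s m).1.1 (s m).2 ⊆ (s n).1.1 := by
    intro m n hmn
    induction n with
    | zero => exact absurd hmn (Nat.not_lt_zero m)
    | succ n ih =>
        rw [hs1 n]
        rcases Nat.lt_succ_iff_lt_or_eq.1 hmn with h1 | h1
        · exact (ih h1).trans Set.subset_union_left
        · rw [h1]
          exact Set.subset_union_right
  refine ⟨fun n => w (s n).1.1 (s n).2, fun m => ⟨(hW m).1, (hW m).2.1⟩, ?_, ?_⟩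
  · have key : ∀ m n, m < n → w (s m).1.1 (s m).2 ∩ w (s n).1.1 (s n).2 ⊆ A := by
      intro m n hmn x hx
      exact (hW n).2.2.1 ⟨hx.2, hsub m n hmn hx.1⟩
    intro m n hmn
    rcases Nat.lt_or_gt_of_ne hmn with h1 | h1
    · exact key m n h1
    · intro x hx
      exact key n m h1 ⟨hx.2, hx.1⟩
  · apply strictMono_nat_of_lt_succ
    intro n
    have h1 := (hW (n + 1)).2.2.2
    rw [hs2 n] at h1
    show (w (s n).1.1 (s n).2 \ A).ncard < (w (s (n + 1)).1.1 (s (n + 1)).2 \ A).ncard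
    rw [hs2 n]
    omega

end HEC
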