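import Pool.Agent.HEC.StP

/-!
# HEC [SZL]: no sequence of disjoint connected finite sets of increasing sizes
-/

set_option autoImplicit false

namespace HEC

open Set Pool.Agent.Helper5.DU Pool.Agent.Helper6.Str Pool.Agent.Helper79.VC
  Pool.Agent.Helper97.LO Pool.Agent.Helper97.VC HER HERN

/-- the choice of one of two sets -/
private def SZL_i (f : ℕ → Bool) (n : ℕ) : ℕ := 2 * n + (if f n then 1 else 0)

private theorem SZL_i_eq {f f' : ℕ → Bool} {n n' : ℕ} (h : SZL_i f n = SZL_i f' n') :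
    n = n' ∧ f n = f' n' := by
  unfold SZL_i at h
  by_cases h1 : f n <;> by_cases h2 : f' n'
  · rw [if_pos h1, if_pos h2] at h
    exact ⟨by omega, by rw [h1, h2]⟩
  · rw [if_pos h1, if_neg h2] at h
    omega
  · rw [if_neg h1, if_pos h2] at h
    omega
  · rw [if_neg h1, if_neg h2] at h
    simp only [Bool.not_eq_true] at h1 h2
    exact ⟨by omega, by rw [h1, h2]⟩

private theorem SZL_closed {L : FirstOrder.Language.{0, 0}} {M : Type} {S : L.Structure M}
    {g : Set (L.Relations 2)} {X : Set M} (h : Cld S g X) {a b : M} (hab : Ge S g a b)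
    (ha : a ∈ X) : b ∈ X := by
  induction hab with
  | refl => exact ha
  | tail _ h1 ih => exact h _ ih _ h1

private theorem SZL_main (L : FirstOrder.Language.{0, 0}) (M : Type) (S : L.Structure M)
    (g : Set (L.Relations 2)) (A : Set M) (W : ℕ → Set M) (hA : Cld S g A)
    (hW : ∀ m, (W m).Finite ∧ Cld S g (W m ∪ A) ∧ (W m \ A).Nonempty ∧
      ∀ x ∈ W m \ A, ∀ y ∈ W m \ A, Cn S g (W m) A x y)
    (hd : ∀ m n, m ≠ n → W m ∩ W n ⊆ A) (f : ℕ → Bool) :
    Sz S g (A ∪ ⋃ n, W (SZL_i f n)) A = {k | ∃ n, (W (SZL_i f n) \ A).ncard = k} := by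
  have hsub : ∀ n, W (SZL_i f n) ⊆ A ∪ ⋃ n, W (SZL_i f n) := fun n =>
    (subset_iUnion (fun n => W (SZL_i f n)) n).trans subset_union_right
  have hbk : ∀ n, ∀ x ∈ W (SZL_i f n) \ A,
      bk S g (A ∪ ⋃ n, W (SZL_i f n)) A x = W (SZL_i f n) \ A := by
    intro n x hx
    ext y
    constructor
    · intro hy
      have hy' : Cn S g (A ∪ ⋃ n, W (SZL_i f n)) A x y := hy
      unfold Cn at hy'
      induction hy' with
      | refl => exact hx
      | @tail y z _ hyz ih =>
        have hy1 : y ∈ W (SZL_i f n) \ A := ih ‹_›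
        obtain ⟨_, hz, h1⟩ := hyz
        refine ⟨?_, hz.2⟩
        rcases h1 with h1 | h1
        · have := SZL_closed (hW (SZL_i f n)).2.1 h1 (Or.inl hy1.1)
          rcases this with h | h
          · exact h
          · exact absurd h hz.2
        · rcases hz.1 with h | h
          · exact absurd h hz.2
          · obtain ⟨n', hn'⟩ := mem_iUnion.1 h
            have h2 := SZL_closed (hW (SZL_i f n')).2.1 h1 (Or.inl hn')
            rcases h2 with h2 | h2
            · by_cases hmm : SZL_i f n = SZL_i f n'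
              · rw [hmm]; exact hn'
              · exact absurd (hd _ _ hmm ⟨hy1.1, h2⟩) hy1.2
            · exact absurd h2 hy1.2
    · intro hy
      have h0 : Relation.ReflTransGen (Adj S g (W (SZL_i f n)) A) x y :=
        (hW (SZL_i f n)).2.2.2 x hx y hy
      show Relation.ReflTransGen (Adj S g (A ∪ ⋃ n, W (SZL_i f n)) A) x y
      clear hy
      induction h0 with
      | refl => exact Relation.ReflTransGen.refl
      | tail _ h ih =>
        exact ih.tail ⟨⟨hsub n h.1.1, h.1.2⟩, ⟨hsub n h.2.1.1, h.2.1.2⟩, h.2.2⟩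
  have hfin : ∀ n, (W (SZL_i f n) \ A).Finite := fun n => (hW _).1.subset diff_subset
  ext k
  constructor
  · rintro ⟨x, hx, hk⟩
    rcases hx.1 with h | h
    · exact absurd h hx.2
    · obtain ⟨n, hn⟩ := mem_iUnion.1 h
      refine ⟨n, ?_⟩
      rw [hbk n x ⟨hn, hx.2⟩, ← (hfin n).cast_ncard_eq] at hk
      exact_mod_cast hk
  · rintro ⟨n, hn⟩
    obtain ⟨x, hx⟩ := (hW (SZL_i f n)).2.2.1
    refine ⟨x, ⟨hsub n hx.1, hx.2⟩, ?_⟩
    rw [hbk n x hx, ← (hfin n).cast_ncard_eq, hn]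

theorem thm_SZL (hVSZ : St_VSZ) : St_SZL := by
  intro L M S g F A G κ hF hP hAc hA hFA hG hGA hκ hvis
  rintro ⟨W, hW, hd, hmono⟩
  have hcount : ∀ f : ℕ → Bool, (A ∪ ⋃ n, W (SZL_i f n)).Countable := fun f =>
    hAc.union (countable_iUnion fun n => (hW _).1.countable)
  have hinf : ∀ f : ℕ → Bool, (A ∪ ⋃ n, W (SZL_i f n)).Infinite := by
    intro f
    choose e he using fun m => (hW m).2.2.1
    refine infinite_of_injective_forall_mem (f := fun n => e (SZL_i f n)) ?_ ?_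
    · intro n n' hnn
      by_contra hne
      have h1 : SZL_i f n ≠ SZL_i f n' := fun h => hne (SZL_i_eq h).1
      have h2 : e (SZL_i f n) = e (SZL_i f n') := hnn
      refine (he (SZL_i f n)).2 (hd _ _ h1 ⟨(he _).1, ?_⟩)
      rw [h2]
      exact (he _).1
    · intro n
      exact Or.inr (mem_iUnion.2 ⟨n, (he _).1⟩)
  have hcld : ∀ f : ℕ → Bool, Cld S g (A ∪ ⋃ n, W (SZL_i f n)) := by
    intro f a ha b hab
    rcases ha with ha | ha
    · exact Or.inl (hA a ha b hab)
    · obtain ⟨n, hn⟩ := mem_iUnion.1 ha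
      rcases (hW (SZL_i f n)).2.1 a (Or.inl hn) b hab with h | h
      · exact Or.inr (mem_iUnion.2 ⟨n, h⟩)
      · exact Or.inl h
  have hGF : (G ∪ F).Finite := hG.union hF
  have hGFA : G ∪ F ⊆ A := union_subset hGA hFA
  have hγ : κ + Ordinal.omega0 + Ordinal.omega0 + Ordinal.omega0 < om1 :=
    add_lt_om1 (add_lt_om1 (add_lt_om1 hκ omega_lt_om1) omega_lt_om1) omega_lt_om1
  obtain ⟨f, f', hne, hB⟩ := hP (fun f => A ∪ ⋃ n, W (SZL_i f n)) (G ∪ F) _ hGF
    subset_union_right hγ (fun f => ⟨hcount f, hinf f, hGFA.trans subset_union_left, hcld f⟩)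
  have hkey : ∀ f f' : ℕ → Bool, BFR S S (A ∪ ⋃ n, W (SZL_i f n)) (A ∪ ⋃ n, W (SZL_i f' n))
      (κ + Ordinal.omega0 + Ordinal.omega0 + Ordinal.omega0) (dg (G ∪ F)) →
      Sz S g (A ∪ ⋃ n, W (SZL_i f n)) A ⊆ Sz S g (A ∪ ⋃ n, W (SZL_i f' n)) A := by
    intro f f' hB
    refine hVSZ L M M S S g _ A _ A κ _ (dg (G ∪ F)) (hcld f) (hcld f') ?_ le_rfl hB
    intro q hq hBq a ha ha1 ha2
    refine hvis _ _ (hcld f) (hcld f') subset_union_left subset_union_left a.1 ha1 a.2 ha2
      (BFR.anti ?_ hBq)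
    rintro b (rfl | hb)
    · exact ha
    · obtain ⟨x, hx, rfl⟩ := hb
      exact hq ⟨x, Or.inl hx, rfl⟩
  have h1 := hkey f f' hB
  rw [SZL_main L M S g A W hA hW hd f, SZL_main L M S g A W hA hW hd f'] at h1
  obtain ⟨n, hn⟩ : ∃ n, f n ≠ f' n := by
    by_contra hcon
    push Not at hcon
    exact hne (funext hcon)
  obtain ⟨n', hn'⟩ := h1 (show (W (SZL_i f n) \ A).ncard ∈ _ from ⟨n, rfl⟩)
  have h2 : SZL_i f' n' = SZL_i f n := hmono.injective hn'
  obtain ⟨h3, h4⟩ := SZL_i_eq h2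
  subst h3
  exact hn h4.symm

end HEC
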