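import Pool.Agent.HEC.StQ
import Pool.Agent.Helper60.VCM.C2a

/-!
# HEC, module TMQ: if the quotient is tame then the structure is tame
-/

set_option autoImplicit false

namespace HEC

open Set Pool.Agent.Helper5.DU Pool.Agent.Helper6.Str Pool.Agent.Helper79.VC
  Pool.Agent.Helper97.LO Pool.Agent.Helper97.VC HER HERN

theorem TMQ_mul_lt {a b : Ordinal.{0}} (ha : a < om1) (hb : b < om1) : a * b < om1 := by
  rw [lt_om1_iff] at ha hb ⊢
  rw [Ordinal.card_mul]
  exact (mul_le_mul' ha hb).trans (by rw [Cardinal.aleph0_mul_aleph0])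

theorem TMQ_xs_univ {M Q : Type} (lab : M → Q ⊕ ℕ) : Xs lab (univ : Set Q) = univ :=
  eq_univ_of_forall fun _ _ _ => mem_univ _

theorem TMQ_xs_countable {M Q : Type} {lab : M → Q ⊕ ℕ} (hF : Fib lab) {B : Set Q}
    (hB : B.Countable) : (Xs lab B).Countable := by
  have h1 : Xs lab B ⊆ ⋃ l ∈ (Sum.inl '' B ∪ range Sum.inr : Set (Q ⊕ ℕ)), {x | lab x = l} := by
    intro x hx
    rw [mem_iUnion₂]
    refine ⟨lab x, ?_, rfl⟩
    rcases h : lab x with b | k
    · exact Or.inl ⟨b, hx b h, rfl⟩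
    · exact Or.inr ⟨k, rfl⟩
  refine Countable.mono h1 (Countable.biUnion ((hB.image _).union (countable_range _)) ?_)
  intro l _
  exact (hF.fin l).countable

theorem thm_TMQ (hL : St_LFT) : St_TMQ := by
  intro L M Q S lab hF hT
  obtain ⟨B, hB, -, -, hcl⟩ := hT.exists_closed countable_empty (empty_subset _)
  refine ⟨M, S, Xs lab B, TMQ_xs_countable hF hB, fun γ hγ => ?_⟩
  have hclo : Clo (QS S lab S lab) univ (Ordinal.omega0 * γ) B := by
    intro F hFB c hc
    obtain ⟨d, hd, hcd⟩ := hcl F (hFB.trans inter_subset_left) c hc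
    exact ⟨d, ⟨hd, mem_univ _⟩, hcd _ (TMQ_mul_lt omega_lt_om1 hγ)⟩
  have h1 := hclo.bfr finite_empty (empty_subset _)
  rw [inter_univ] at h1
  obtain ⟨p, -, hp⟩ := hL L M Q S lab univ B hF γ ∅ finite_empty (fun a ha => absurd ha
    (notMem_empty a)) (BFR.anti (empty_subset _) h1) 0
  rw [TMQ_xs_univ] at hp
  exact BFR.anti (empty_subset _) hp

end HEC
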