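import Pool.Agent.HEC.StQ

/-!
# HEC [TRS]: transfer of the labels (helper4)
-/

set_option autoImplicit false

namespace HEC

open Set Pool.Agent.Helper5.DU Pool.Agent.Helper6.Str Pool.Agent.Helper79.VC
  Pool.Agent.Helper97.LO Pool.Agent.Helper97.VC HER HERN

theorem TRS_cld {L : FirstOrder.Language.{0, 0}} {M N : Type} (S : L.Structure M)
    (T : L.Structure N) (g : Set (L.Relations 2)) {m : ℕ} (f : Fin m → M) (f' : Fin m → N)
    {γ : Ordinal.{0}} (hγ : 0 < γ) (hc : Cld S g (range f))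
    (h : BFR S T univ univ γ (prs f f')) : Cld T g (range f') := by
  rintro _ ⟨i, rfl⟩ b ⟨R, hR, hb⟩
  obtain ⟨a, -, ha⟩ := h.back hγ (mem_univ b)
  have hat := ha.atEq
  have hfi : (f i, f' i) ∈ insert (a, b) (prs f f') := mem_insert_of_mem _ ⟨i, rfl⟩
  have h1 := hat.2 2 R ![(f i, f' i), (a, b)] (by
    intro j
    fin_cases j
    · exact hfi
    · exact mem_insert _ _)
  have e1 : (fun j => (![(f i, f' i), (a, b)] j).1) = ![f i, a] := by
    funext j
    fin_cases j <;> rfl
  have e2 : (fun j => (![(f i, f' i), (a, b)] j).2) = ![f' i, b] := by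
    funext j
    fin_cases j <;> rfl
  rw [e1, e2] at h1
  obtain ⟨j, hj⟩ := hc (f i) ⟨i, rfl⟩ a ⟨R, hR, h1.mpr hb⟩
  exact ⟨j, ((hat.1 (f j, f' j) (mem_insert_of_mem _ ⟨j, rfl⟩) (a, b) (mem_insert _ _)).mp hj)⟩

theorem thm_TRS (hVSA : St_VSA) (hVSC : St_VSC) : St_TRS := by
  classical
  intro L M N S T g n m f f' ν κ hd hLF h
  set A := AA S g n f with hA
  set A' := AA T g n f' with hA'
  set κ0 : Ordinal.{0} := Ordinal.omega0 + Ordinal.omega0 + 1 with hκ0
  have hcu : ∀ (K : Type) (R : L.Structure K), Cld R g (univ : Set K) :=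
    fun K R a _ b _ => mem_univ _
  -- (1)
  have h1 : ∀ q, prs f f' ⊆ q → BFR S T univ univ κ0 q → ∀ a ∈ q, (a.1 ∈ A ↔ a.2 ∈ A') := by
    intro q hq hb a ha
    have h2 := hVSA L M N S T g univ univ κ0 q n hd.lf hLF (hcu _ _) (hcu _ _) (subset_univ _)
      (subset_univ _) le_rfl hb a ha
    constructor
    · rintro (h3 | ⟨i, hi⟩)
      · exact Or.inl (h2.mp h3)
      · exact Or.inr ⟨i, (hb.atEq.1 (f i, f' i) (hq ⟨i, rfl⟩) a ha).mp hi⟩
    · rintro (h3 | ⟨i, hi⟩)
      · exact Or.inl (h2.mpr h3)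
      · exact Or.inr ⟨i, (hb.atEq.1 (f i, f' i) (hq ⟨i, rfl⟩) a ha).mpr hi⟩
  -- (2)
  have h2 : ∀ q, prs f f' ⊆ q → BFR S T univ univ (κ0 + κ) q → BFR S T A A' κ q := by
    intro q hq hb
    refine BFR.restr (subset_univ _) (subset_univ _) κ0 κ ?_ hb
    intro x _ y _ hxy
    exact h1 _ (hq.trans (subset_insert _ _)) hxy (x, y) (mem_insert _ _)
  clear_value κ0
  have hl1 : κ0 + κ ≤ κ0 + κ + Ordinal.omega0 + Ordinal.omega0 + Ordinal.omega0 :=
    (le_self_add (a := κ0 + κ) (b := Ordinal.omega0)).trans (le_self_add.trans le_self_add)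
  -- (3)
  have h3 : ∀ y ∈ A', ∃ x ∈ A, BFR S T A A' κ (insert (x, y) (prs f f')) := by
    intro y hy
    obtain ⟨x, -, hx⟩ := h.back (lt_of_le_of_lt hl1 (lt_add_one_self _)) (mem_univ y)
    refine ⟨x, ?_, h2 _ (subset_insert _ _) hx⟩
    exact (h1 _ (subset_insert _ _) (hx.mono le_self_add) (x, y) (mem_insert _ _)).mpr hy
  choose hf hf1 hf2 using h3
  let ν' : N → ℕ := fun y => if hy : y ∈ A' then ν (hf y hy) else 0
  have hν' : ∀ y (hy : y ∈ A'), ν' y = ν (hf y hy) := fun y hy => dif_pos hy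
  -- (4)
  have h4 : ∀ x ∈ A, ∀ y ∈ A', BFR S T A A' κ (insert (x, y) (prs f f')) → ν x = ν' y := by
    intro x hx y hy hxy
    rw [hν' y hy]
    refine hd.inv x hx (hf y hy) (hf1 y hy) ?_
    refine hxy.trans ((hf2 y hy).symm (q := insert (y, hf y hy) (prs f' f)) ?_) ?_
    · rintro a (rfl | ⟨i, rfl⟩)
      · exact mem_insert _ _
      · exact mem_insert_of_mem _ ⟨i, rfl⟩
    · rintro a (rfl | ⟨i, rfl⟩)
      · exact ⟨y, mem_insert _ _, mem_insert _ _⟩
      · exact ⟨f' i, mem_insert_of_mem _ ⟨i, rfl⟩, mem_insert_of_mem _ ⟨i, rfl⟩⟩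
  refine ⟨ν', ⟨hLF, ?_, ?_, ?_, ?_⟩, h4⟩
  · exact TRS_cld S T g f f' (lt_of_le_of_lt zero_le (lt_add_one_self _)) hd.cld h
  · -- (6)
    intro k
    have hfin := hd.nuf k
    by_contra hinf
    set F := hfin.toFinset with hF
    let y : Fin (F.card + 1) → N := fun i => ((Set.Infinite.natEmbedding _ hinf) i).1
    have hy : ∀ i, y i ∈ A' ∧ ν' (y i) = k := fun i => ((Set.Infinite.natEmbedding _ hinf) i).2
    have hyi : Function.Injective y := by
      intro i j hij
      have := (Set.Infinite.natEmbedding _ hinf).injective (Subtype.ext hij)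
      exact Fin.ext this
    have hlev : BFR S T univ univ (κ0 + κ + ((F.card + 1 : ℕ) : Ordinal.{0})) (prs f f') := by
      refine h.mono ?_
      refine le_trans (add_le_add_right (Ordinal.natCast_lt_omega0 _).le (κ0 + κ)) ?_
      exact (le_self_add (a := κ0 + κ + Ordinal.omega0) (b := Ordinal.omega0)).trans
        (le_self_add.trans le_self_add)
    obtain ⟨x, -, hx⟩ := BFR.back_many (F.card + 1) hlev y fun i => mem_univ _
    have hxy : ∀ i, (x i, y i) ∈ prs f f' ∪ range fun i => (x i, y i) := fun i => Or.inr ⟨i, rfl⟩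
    have hxA : ∀ i, x i ∈ A := fun i =>
      (h1 _ subset_union_left (hx.mono le_self_add) _ (hxy i)).mpr (hy i).1
    have hxν : ∀ i, ν (x i) = k := by
      intro i
      rw [← (hy i).2]
      refine h4 _ (hxA i) _ (hy i).1 (h2 _ (subset_insert _ _) (BFR.anti ?_ hx))
      rintro a (rfl | ha)
      · exact hxy i
      · exact Or.inl ha
    have hxi : Function.Injective x := by
      intro i j hij
      exact hyi ((hx.atEq.1 _ (hxy i) _ (hxy j)).mp hij)
    have hcard := Fintype.card_le_of_injective (fun i => (⟨x i, by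
      rw [hF, Set.Finite.mem_toFinset]
      exact ⟨hxA i, hxν i⟩⟩ : F)) (fun i j hij => hxi (Subtype.ext_iff.mp hij))
    simp at hcard
  · -- (7)
    intro y hyA
    have hl2 : κ0 + Ordinal.omega0 + Ordinal.omega0 + Ordinal.omega0 ≤
        κ0 + κ + Ordinal.omega0 + Ordinal.omega0 + Ordinal.omega0 := by
      refine add_le_add_left (add_le_add_left ?_ _) _
      rw [add_assoc κ0]
      exact add_le_add_right le_add_self _
    obtain ⟨x, -, hx⟩ := h.back (lt_of_le_of_lt hl2 (lt_add_one_self _)) (mem_univ y)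
    have hl3 : κ0 ≤ κ0 + Ordinal.omega0 + Ordinal.omega0 + Ordinal.omega0 :=
      (le_self_add (a := κ0) (b := Ordinal.omega0)).trans (le_self_add.trans le_self_add)
    have hxA : x ∉ A := fun hxA => hyA
      ((h1 _ (subset_insert _ _) (hx.mono hl3) (x, y) (mem_insert _ _)).mp hxA)
    have hfin := hd.bkf x hxA
    by_contra hinf
    set F := hfin.toFinset with hF
    let z : Fin (F.card + 1) → N := fun i => ((Set.Infinite.natEmbedding _ hinf) i).1
    have hz : ∀ i, Cn T g univ A' y (z i) := fun i => ((Set.Infinite.natEmbedding _ hinf) i).2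
    have hzi : Function.Injective z := by
      intro i j hij
      have := (Set.Infinite.natEmbedding _ hinf).injective (Subtype.ext hij)
      exact Fin.ext this
    have hlev : BFR S T univ univ (κ0 + Ordinal.omega0 + Ordinal.omega0 +
        ((F.card + 1 : ℕ) : Ordinal.{0})) (insert (x, y) (prs f f')) :=
      hx.mono (add_le_add_right (Ordinal.natCast_lt_omega0 _).le _)
    obtain ⟨w, -, hw⟩ := BFR.back_many (F.card + 1) hlev z fun i => mem_univ _
    have hwz : ∀ i, (w i, z i) ∈ insert (x, y) (prs f f') ∪ range fun i => (w i, z i) :=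
      fun i => Or.inr ⟨i, rfl⟩
    have hwi : Function.Injective w := by
      intro i j hij
      exact hzi ((hw.atEq.1 _ (hwz i) _ (hwz j)).mp hij)
    have hwb : ∀ i, w i ∈ bk S g univ A x := by
      intro i
      refine (hVSC L M N S T g univ A univ A' κ0 _ _ (hcu _ _) (hcu _ _) ?_ le_rfl hw (x, y)
        (Or.inl (mem_insert _ _)) _ (hwz i) (mem_univ _) (mem_univ _) (mem_univ _)
        (mem_univ _)).mpr (hz i)
      intro q hq hb a ha _ _
      exact h1 q (((subset_insert _ _).trans subset_union_left).trans hq) hb a ha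
    have hcard := Fintype.card_le_of_injective (fun i => (⟨w i, by
      rw [hF, Set.Finite.mem_toFinset]
      exact hwb i⟩ : F)) (fun i j hij => hwi (Subtype.ext_iff.mp hij))
    simp at hcard
  · -- (5)
    intro y hy y' hy' hyy
    rw [hν' y hy]
    refine h4 (hf y hy) (hf1 y hy) y' hy' ((hf2 y hy).trans hyy ?_)
    rintro a (rfl | ⟨i, rfl⟩)
    · exact ⟨y, mem_insert _ _, mem_insert _ _⟩
    · exact ⟨f' i, mem_insert_of_mem _ ⟨i, rfl⟩, mem_insert_of_mem _ ⟨i, rfl⟩⟩

end HEC
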