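import Pool.Agent.HEC.StP

/-!
# HEC [USF]: elements outside of `Cc` with infinitely many elements above them
-/

set_option autoImplicit false
set_option linter.unusedVariables false

namespace HEC

open Set Pool.Agent.Helper5.DU Pool.Agent.Helper6.Str Pool.Agent.Helper79.VC
  Pool.Agent.Helper97.LO Pool.Agent.Helper97.VC HER HERN

section

variable {L : FirstOrder.Language.{0, 0}} {M : Type}

theorem USF_ge {S : L.Structure M} {g : Set (L.Relations 2)} {A : Set M} (hA : Cld S g A) {a b : M}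
    (ha : a ∈ A) (h : Ge S g a b) : b ∈ A := by
  induction h with
  | refl => exact ha
  | tail _ h2 ih => exact hA _ ih _ h2

theorem USF_vis (S : L.Structure M) (g : Set (L.Relations 2)) (A : Set M) : Vis S g A A 0 := by
  intro X X' _ _ _ _ x _ x' _ h
  have h1 := h.atEq.1
  constructor
  · intro hx
    have h2 := (h1 (x, x') (mem_insert _ _) (x, x) (mem_insert_of_mem _ ⟨x, hx, rfl⟩)).1 rfl
    have h3 : x' = x := h2
    rw [h3]
    exact hx
  · intro hx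
    have h2 := (h1 (x, x') (mem_insert _ _) (x', x') (mem_insert_of_mem _ ⟨x', hx, rfl⟩)).2 rfl
    have h3 : x = x' := h2
    rw [h3]
    exact hx

/-- the sets `W` -/
theorem USF_W {S : L.Structure M} {g : Set (L.Relations 2)} (hLF : LF S g) {A ρ : Set M}
    (hAf : A.Finite) (hA : Cld S g A) (hρA : ρ ⊆ A) {D Y : Set M} {k : ℕ} {z : M}
    (hzA : z ∉ A) (hYf : Y.Finite) (hYc : Y.ncard = k + 1)
    (hY : ∀ y ∈ Y, z ∈ dn S g y ∧ dn S g y ∩ (D ∪ A) ⊆ ρ) :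
    ∃ W : Set M, W.Finite ∧ (Cld S g (W ∪ A) ∧ (W \ A).Nonempty ∧
      ∀ x ∈ W \ A, ∀ y ∈ W \ A, Cn S g W A x y) ∧ W ∩ D ⊆ A ∧ k ≤ (W \ A).ncard := by
  obtain ⟨W, hW⟩ : ∃ W : Set M, W = ⋃ y ∈ Y, dn S g y := ⟨_, rfl⟩
  have hWm : ∀ x, x ∈ W ↔ ∃ y ∈ Y, Ge S g y x := by
    intro x
    rw [hW]
    simp only [mem_iUnion, exists_prop]
    rfl
  have hWf : W.Finite := by
    rw [hW]
    exact hYf.biUnion fun y _ => hLF y
  have hYA : ∀ y ∈ Y, y ∉ A := fun y hy hyA => hzA (USF_ge hA hyA (hY y hy).1)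
  have hYW : Y ⊆ W \ A := by
    intro y hy
    exact ⟨(hWm y).2 ⟨y, hy, Relation.ReflTransGen.refl⟩, hYA y hy⟩
  have hYn : Y.Nonempty := by
    rw [← Set.ncard_pos hYf]
    omega
  have hcard : k ≤ (W \ A).ncard := by
    have h1 := Set.ncard_le_ncard hYW (hWf.subset sdiff_subset)
    omega
  have hadj : ∀ x ∈ W \ A, ∃ y ∈ Y, Adj S g W A x y ∧ Adj S g W A y x := by
    intro x hx
    obtain ⟨y, hy, hyx⟩ := (hWm x).1 hx.1
    exact ⟨y, hy, ⟨hx, hYW hy, Or.inr hyx⟩, hYW hy, hx, Or.inl hyx⟩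
  obtain ⟨y0, hy0⟩ := hYn
  have hzW : z ∈ W \ A := ⟨(hWm z).2 ⟨y0, hy0, (hY y0 hy0).1⟩, hzA⟩
  have hz : ∀ y ∈ Y, Adj S g W A z y ∧ Adj S g W A y z := by
    intro y hy
    exact ⟨⟨hzW, hYW hy, Or.inr (hY y hy).1⟩, hYW hy, hzW, Or.inl (hY y hy).1⟩
  refine ⟨W, hWf, ⟨?_, ⟨z, hzW⟩, ?_⟩, ?_, hcard⟩
  · rintro a (ha | ha) b hab
    · obtain ⟨y, hy, hya⟩ := (hWm a).1 ha
      exact Or.inl ((hWm b).2 ⟨y, hy, Relation.ReflTransGen.tail hya hab⟩)
    · exact Or.inr (hA a ha b hab)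
  · intro x hx y hy
    obtain ⟨u, hu, hu1, -⟩ := hadj x hx
    obtain ⟨v, hv, -, hv2⟩ := hadj y hy
    exact (((Relation.ReflTransGen.single hu1).tail (hz u hu).2).tail (hz v hv).1).tail hv2
  · rintro x ⟨hx, hxD⟩
    obtain ⟨y, hy, hyx⟩ := (hWm x).1 hx
    exact hρA ((hY y hy).2 ⟨hyx, Or.inl hxD⟩)

end

theorem thm_USF (hSZL : St_SZL) (hSQW : St_SQW) (hUSR : St_USR) : St_USF := by
  intro L M S g F n hF hLF hPig hHv
  by_contra hinf
  have hinf' : {z | z ∉ Cc S g ∧ {y | Ge S g y z}.Infinite}.Infinite := hinf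
  obtain ⟨z, hz⟩ : ∃ z : ℕ → M, z = fun i => (hinf'.natEmbedding _ i : M) := ⟨_, rfl⟩
  have hzi : Function.Injective z := by
    rw [hz]
    intro i j hij
    exact (hinf'.natEmbedding _).injective (Subtype.ext hij)
  have hzm : ∀ i, z i ∉ Cc S g ∧ {y | Ge S g y (z i)}.Infinite := by
    intro i
    rw [hz]
    exact (hinf'.natEmbedding _ i).2
  obtain ⟨ρ, hρf, hρc, hρ⟩ := hUSR M (dn S g) n z hzi (fun i => (hzm i).2) (by
    intro i y hy
    refine ⟨hLF y, ?_⟩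
    by_contra hcon
    have h1 : z i ∈ Hv S g n := ⟨y, hy, not_le.1 hcon⟩
    rw [hHv] at h1
    exact (hzm i).1 h1)
  obtain ⟨A, hAe⟩ : ∃ A : Set M, A = clo S g F ∪ ρ := ⟨_, rfl⟩
  have hρA : ρ ⊆ A := by
    rw [hAe]
    exact subset_union_right
  have hAf : A.Finite := by
    rw [hAe]
    refine Finite.union ?_ hρf
    have h1 : clo S g F = ⋃ a ∈ F, dn S g a := by
      ext x
      simp only [mem_iUnion, exists_prop]
      rfl
    rw [h1]
    exact hF.biUnion fun a _ => hLF a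
  have hA : Cld S g A := by
    rw [hAe]
    rintro a (⟨c, hc, hca⟩ | ha) b hab
    · exact Or.inl ⟨c, hc, Relation.ReflTransGen.tail hca hab⟩
    · exact Or.inr (hρc a ha b fun w hw => Relation.ReflTransGen.tail hw hab)
  have hFA : F ⊆ A := by
    rw [hAe]
    intro a ha
    exact Or.inl ⟨a, ha, Relation.ReflTransGen.refl⟩
  apply hSZL L M S g F A A 0 hF hPig hAf.countable hA hFA hAf Subset.rfl zero_lt_om1 (USF_vis S g A)
  apply hSQW M A (fun W => Cld S g (W ∪ A) ∧ (W \ A).Nonempty ∧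
      ∀ x ∈ W \ A, ∀ y ∈ W \ A, Cn S g W A x y)
  intro D k hD
  obtain ⟨i, Y, hiD, hYf, hYc, hY⟩ := hρ (D ∪ A) (k + 1) (hD.union hAf)
  exact USF_W hLF hAf hA hρA (fun h => hiD (Or.inr h)) hYf hYc hY

end HEC
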