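import Pool.Agent.HEC.StP

/-!
# HEC, [USR]: roots
-/

set_option autoImplicit false

namespace HEC

open Set

/-- limits along the ultrafilter of sets of at most `N` elements -/
theorem USR_lim {M : Type} (E : ℕ → Set M) (N : ℕ)
    (hE : ∀ l, (E l).Finite ∧ (E l).ncard ≤ N) :
    {x | ∀ᶠ l in (Filter.hyperfilter ℕ : Filter ℕ), x ∈ E l}.Finite ∧
      {x | ∀ᶠ l in (Filter.hyperfilter ℕ : Filter ℕ), x ∈ E l}.ncard ≤ N := by
  have h : {x | ∀ᶠ l in (Filter.hyperfilter ℕ : Filter ℕ), x ∈ E l}.encard ≤ (N : ℕ∞) := by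
    by_contra hcon
    have hlt : (N : ℕ∞) < {x | ∀ᶠ l in (Filter.hyperfilter ℕ : Filter ℕ), x ∈ E l}.encard :=
      not_le.1 hcon
    have hle : ((N + 1 : ℕ) : ℕ∞) ≤
        {x | ∀ᶠ l in (Filter.hyperfilter ℕ : Filter ℕ), x ∈ E l}.encard := by
      push_cast
      exact Order.add_one_le_of_lt hlt
    obtain ⟨t, ht, htc⟩ := Set.exists_subset_encard_eq hle
    have htf : t.Finite := Set.finite_of_encard_eq_coe htc
    have hev : ∀ᶠ l in (Filter.hyperfilter ℕ : Filter ℕ), ∀ x ∈ t, x ∈ E l :=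
      (Filter.eventually_all_finite htf).2 fun x hx => ht hx
    obtain ⟨l, hl⟩ := hev.exists
    have h1 : t.encard ≤ (E l).encard := Set.encard_le_encard hl
    rw [htc, ← (hE l).1.cast_ncard_eq] at h1
    have h2 : N + 1 ≤ (E l).ncard := by exact_mod_cast h1
    have h3 := (hE l).2
    omega
  have hf : {x | ∀ᶠ l in (Filter.hyperfilter ℕ : Filter ℕ), x ∈ E l}.Finite :=
    Set.finite_of_encard_le_coe h
  refine ⟨hf, ?_⟩
  rw [← hf.cast_ncard_eq] at h
  exact_mod_cast h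

theorem thm_USR : St_USR := by
  intro M d N z hz hinf hfin
  have hy : ∀ i, ∃ y : ℕ → M, Function.Injective y ∧ ∀ l, z i ∈ d (y l) := by
    intro i
    have e := (hinf i).natEmbedding
    exact ⟨fun l => (e l : M), fun a b hab => e.injective (Subtype.ext hab), fun l => (e l).2⟩
  choose y hyinj hymem using hy
  obtain ⟨r, hr⟩ : ∃ r : ℕ → Set M, ∀ i,
      r i = {x | ∀ᶠ l in (Filter.hyperfilter ℕ : Filter ℕ), x ∈ d (y i l)} := ⟨_, fun _ => rfl⟩
  have hrf : ∀ i, (r i).Finite ∧ (r i).ncard ≤ N := by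
    intro i
    rw [hr i]
    exact USR_lim (fun l => d (y i l)) N fun l => hfin i _ (hymem i l)
  refine ⟨{x | ∀ᶠ i in (Filter.hyperfilter ℕ : Filter ℕ), x ∈ r i}, (USR_lim r N hrf).1, ?_, ?_⟩
  · intro x hx x' hxx'
    refine Filter.Eventually.mono (p := fun i => x ∈ r i) hx ?_
    intro i hi
    rw [hr i] at hi ⊢
    exact Filter.Eventually.mono (p := fun l => x ∈ d (y i l)) hi fun l hl => hxx' _ hl
  · intro D k hD
    have h1 : ∀ᶠ i in (Filter.hyperfilter ℕ : Filter ℕ), ∀ x ∈ D,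
        x ∉ {x | ∀ᶠ i in (Filter.hyperfilter ℕ : Filter ℕ), x ∈ r i} → x ∉ r i := by
      refine (Filter.eventually_all_finite hD).2 fun x _ => ?_
      by_cases hx : x ∈ {x | ∀ᶠ i in (Filter.hyperfilter ℕ : Filter ℕ), x ∈ r i}
      · exact Filter.Eventually.of_forall fun i h => absurd hx h
      · have h2 : ∀ᶠ i in (Filter.hyperfilter ℕ : Filter ℕ), ¬ x ∈ r i :=
          Ultrafilter.eventually_not.2 hx
        exact h2.mono fun i hi _ => hi
    have h2 : ∀ᶠ i in (Filter.hyperfilter ℕ : Filter ℕ), z i ∉ D := by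
      have h3 : (z ⁻¹' D).Finite := hD.preimage hz.injOn
      exact h3.compl_mem_hyperfilter
    obtain ⟨i, hi1, hi2⟩ := (h1.and h2).exists
    have h4 : ∀ᶠ l in (Filter.hyperfilter ℕ : Filter ℕ), ∀ x ∈ D, x ∉ r i → x ∉ d (y i l) := by
      refine (Filter.eventually_all_finite hD).2 fun x _ => ?_
      by_cases hx : x ∈ r i
      · exact Filter.Eventually.of_forall fun l h => absurd hx h
      · have h5 : ¬ ∀ᶠ l in (Filter.hyperfilter ℕ : Filter ℕ), x ∈ d (y i l) := by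
          intro h6
          exact hx (by rw [hr i]; exact h6)
        have h6 : ∀ᶠ l in (Filter.hyperfilter ℕ : Filter ℕ), ¬ x ∈ d (y i l) :=
          Ultrafilter.eventually_not.2 h5
        exact h6.mono fun l hl _ => hl
    have h7 : {l | ∀ x ∈ D, x ∉ r i → x ∉ d (y i l)}.Infinite := by
      intro hfin'
      exact Filter.notMem_hyperfilter_of_finite hfin' h4
    obtain ⟨s, hs, hsc⟩ := h7.exists_subset_card_eq k
    refine ⟨i, y i '' (s : Set ℕ), hi2, s.finite_toSet.image _, ?_, ?_⟩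
    · rw [Set.ncard_image_of_injective _ (hyinj i), Set.ncard_coe_finset, hsc]
    · rintro _ ⟨l, hl, rfl⟩
      refine ⟨hymem i l, ?_⟩
      rintro x ⟨hx1, hx2⟩
      by_contra hx3
      exact hs hl x hx2 (hi1 x hx2 hx3) hx1

end HEC
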