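import Pool.Agent.HEC.StP
import Pool.Agent.HERN.VQ

/-!
# HEC [VQC]: copies of `ω₁`-sequences along the rationals in members of the class (helper42)

Copy of `HERN.thm_VQ` (helper22) in the strong form.
-/

set_option autoImplicit false

namespace HEC

open Set Pool.Agent.Helper5.DU Pool.Agent.Helper6.Str Pool.Agent.Helper79.VC
  Pool.Agent.Helper97.LO Pool.Agent.Helper97.VC HER HERN

theorem thm_VQC (hVQL : St_VQL) : St_VQC := by
  classical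
  intro L _ _ K δ M S hS β _ m W g hW
  have hMi : Infinite M := hS.infinite
  obtain ⟨r0, -⟩ := od_surj (Ordinal.omega_pos 1 : (0 : Ordinal.{0}) < om1)
  -- codes of elements over an approximation
  have hcode : ∀ (s0 : VQ_St S δ g W) (γ : Ordinal.{0}), ∃ κ : M → ℕ, γ < δ → ∀ y y',
      κ y = κ y' → BFR S S univ univ γ (insert (y, y')
        (VQ_pr (VQ_E m β s0.Q s0.k) (VQ_val g W (s0.R r0)) (VQ_val g W (s0.R r0)))) := by
    intro s0 γ
    by_cases hγ : γ < δ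
    · have hfin : (VQ_val g W (s0.R r0) '' VQ_E m β s0.Q s0.k).Finite :=
        (VQ_E_fin _ _).image _
      obtain ⟨κ, hκ⟩ := countable_classes hS.scat (hγ.trans hS.lt) hS.lev hfin.toFinset
      refine ⟨κ, fun _ y y' hyy => BFR.anti (insert_subset_insert ?_) (hκ y y' hyy)⟩
      rintro _ ⟨e, he, rfl⟩
      exact ⟨VQ_val g W (s0.R r0) e, by rw [hfin.coe_toFinset]; exact ⟨e, he, rfl⟩, rfl⟩
    · exact ⟨fun _ => 0, fun h => absurd h hγ⟩
  choose κ hκ using hcode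
  -- requirements
  have hc : Countable (Iio δ) := (countable_Iio hS.lt).to_subtype
  have hne : Nonempty (ℚ ⊕ (Iio δ × ℕ)) := ⟨Sum.inl 0⟩
  obtain ⟨en, hen⟩ := exists_surjective_nat (ℚ ⊕ (Iio δ × ℕ))
  let T : ℕ → VQ_St S δ g W → VQ_St S δ g W → Prop := fun t s0 s' =>
    (∀ z : ℚ, en t = Sum.inl z → z ∈ s'.Q) ∧
    ∀ (γ : Iio δ) (n : ℕ), en t = Sum.inr (γ, n) → ∀ y, κ s0 γ.1 y = n → s0.k < s'.k ∧
      ∃ e ∈ VQ_E m β s'.Q s'.k, BFR S S univ univ γ.1 (insert (y, VQ_val g W (s'.R r0) e)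
        (VQ_pr (VQ_E m β s0.Q s0.k) (VQ_val g W (s0.R r0)) (VQ_val g W (s'.R r0))))
  have hT : ∀ t s0 s, VQ_le s0 s → ∃ s', VQ_le s s' ∧ T t s0 s' := by
    intro t s0 s h0
    rcases hent : en t with z | ⟨γ, n⟩
    · obtain ⟨s', h1, h2⟩ := VQ_rat hS s z
      refine ⟨s', h1, fun z' hz' => ?_, fun γ n h3 => ?_⟩
      · rw [hent] at hz'
        rw [← Sum.inl_injective hz']
        exact h2
      · rw [hent] at h3
        cases h3
    · by_cases hy : ∃ y, κ s0 γ.1 y = n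
      · obtain ⟨y1, hy1⟩ := hy
        obtain ⟨s', h1, h2, e, he, h3⟩ := VQ_hen hS s0 s h0 γ.2 r0 y1
        refine ⟨s', h1, fun z' hz' => ?_, fun γ' n' h4 y hy => ⟨h2, e, he, ?_⟩⟩
        · rw [hent] at hz'
          cases hz'
        · rw [hent] at h4
          cases h4
          refine (hκ s0 γ.1 γ.2 y y1 (hy.trans hy1.symm)).trans (h3 r0) ?_
          rintro _ (rfl | ⟨e, he, rfl⟩)
          · exact ⟨y1, mem_insert _ _, mem_insert _ _⟩
          · exact ⟨_, mem_insert_of_mem _ ⟨e, he, rfl⟩, mem_insert_of_mem _ ⟨e, he, rfl⟩⟩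
      · refine ⟨s, VQ_le.refl s, fun z' hz' => ?_, fun γ' n' h4 y hy' => ?_⟩
        · rw [hent] at hz'
          cases hz'
        · rw [hent] at h4
          cases h4
          exact absurd ⟨y, hy'⟩ hy
  obtain ⟨start⟩ := VQ_start S δ g W
  obtain ⟨s, hs1, hs2⟩ := VQ_seq VQ_le VQ_le.refl (fun _ _ _ => VQ_le.trans) T hT start
  have hQ : ∀ z : ℚ, ∃ j, z ∈ (s j).Q := by
    intro z
    obtain ⟨t, ht⟩ := hen (Sum.inl z)
    obtain ⟨i, -, hi⟩ := hs2 t 0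
    exact ⟨i, hi.1 z ht⟩
  have hδ0 : (0 : Ordinal.{0}) < δ :=
    (Ordinal.omega0_pos.trans_le le_self_add).trans_le hS.om
  have hhen : ∀ j, ∀ γ < δ, ∀ y : M, ∃ i, j ≤ i ∧ (s j).k < (s i).k ∧
      ∃ e ∈ VQ_E m β (s i).Q (s i).k, BFR S S univ univ γ
        (insert (y, VQ_val g W ((s i).R r0) e) (VQ_pr (VQ_E m β (s j).Q (s j).k)
          (VQ_val g W ((s j).R r0)) (VQ_val g W ((s i).R r0)))) := by
    intro j γ hγ y
    obtain ⟨t, ht⟩ := hen (Sum.inr (⟨γ, hγ⟩, κ (s j) γ y))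
    obtain ⟨i, hji, hi⟩ := hs2 t j
    obtain ⟨h1, e, he, h2⟩ := hi.2 _ _ ht y rfl
    exact ⟨i, hji, h1, e, he, h2⟩
  have hk : ∀ k : ℕ, ∃ j, k < (s j).k := by
    intro k
    induction k with
    | zero =>
      obtain ⟨i, -, h1, -⟩ := hhen 0 0 hδ0 (Classical.arbitrary M)
      exact ⟨i, Nat.lt_of_le_of_lt (Nat.zero_le _) h1⟩
    | succ k ih =>
      obtain ⟨j, hj⟩ := ih
      obtain ⟨i, -, h1, -⟩ := hhen j 0 hδ0 (Classical.arbitrary M)
      exact ⟨i, Nat.lt_of_le_of_lt hj h1⟩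
  obtain ⟨T', hT'K, π, hπ⟩ := hVQL L _ K δ M S hS (fun j => VQ_E m β (s j).Q (s j).k)
    (fun j => VQ_val g W ((s j).R r0)) (fun i j hij => VQ_E_mono (hs1 i j hij).Q (hs1 i j hij).k)
    (by
      rintro (i | p | k)
      · exact ⟨0, Or.inl (Or.inl ⟨i, rfl⟩)⟩
      · obtain ⟨j, hj⟩ := hQ p.1
        exact ⟨j, Or.inl (Or.inr ⟨p, hj, rfl⟩)⟩
      · obtain ⟨j, hj⟩ := hk k
        exact ⟨j, Or.inr ⟨k, hj, rfl⟩⟩)
    (fun i j hij => (hs1 i j hij).eqv r0 r0)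
    (fun j γ hγ z => by
      obtain ⟨i, hji, -, e, he, h1⟩ := hhen j γ hγ z
      exact ⟨i, hji, e, he, h1⟩)
  refine ⟨T', hT'K, fun i => π (Sum.inl i), fun x p => π (Sum.inr (Sum.inl (x, p))),
    fun n q hq => ?_⟩
  choose J hJ using fun i => hQ (q i)
  have hJ' : ∀ i, q i ∈ (s (Finset.univ.sup J)).Q := fun i =>
    (hs1 _ _ (Finset.le_sup (Finset.mem_univ i))).Q (hJ i)
  refine ⟨fun i => ((s (Finset.univ.sup J)).R r0).1 (q i), fun i i' hii =>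
    (s (Finset.univ.sup J)).mono r0 (hJ' i) (hJ' i') (hq hii), ?_⟩
  refine BFR.symm (hπ (Finset.univ.sup J)) ?_
  rintro _ (⟨i, rfl⟩ | h)
  · exact ⟨Sum.inl i, Or.inl (Or.inl ⟨i, rfl⟩), rfl⟩
  · obtain ⟨i, p, rfl⟩ := mem_iUnion.mp h
    exact ⟨Sum.inr (Sum.inl (q i, p)), Or.inl (Or.inr ⟨(q i, p), hJ' i, rfl⟩), rfl⟩

end HEC
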