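import Pool.Agent.HEC.StP

/-!
# HEC [VQL]: limits of finite approximations, strong form
-/

set_option autoImplicit false
set_option linter.unusedVariables false

namespace HEC

open Set Pool.Agent.Helper5.DU Pool.Agent.Helper6.Str Pool.Agent.Helper79.VC
  Pool.Agent.Helper97.LO Pool.Agent.Helper97.VC HER HERN

theorem thm_VQL : St_VQL := by
  intro L _ _ V _ K δ M S hS E x hE hEu hx hH
  classical
  -- the values cohere
  have hat : ∀ i j e e', e ∈ E i → e ∈ E j → e' ∈ E i → e' ∈ E j →
      (x i e = x i e' ↔ x j e = x j e') := by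
    have h1 : ∀ i j, i ≤ j → ∀ e e', e ∈ E i → e' ∈ E i → (x i e = x i e' ↔ x j e = x j e') := by
      intro i j hij e e' he he'
      exact (hx i j hij).atEq.1 _ ⟨e, he, rfl⟩ _ ⟨e', he', rfl⟩
    intro i j e e' he1 he2 he3 he4
    rcases le_total i j with h | h
    · exact h1 i j h e e' he1 he3
    · exact (h1 j i h e e' he2 he4).symm
  have hrel : ∀ (n : ℕ) (R : L.Relations n) (v : Fin n → V) (i j : ℕ), (∀ k, v k ∈ E i) →
      (∀ k, v k ∈ E j) → (S.RelMap R (fun k => x i (v k)) ↔ S.RelMap R (fun k => x j (v k))) := by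
    have h1 : ∀ (n : ℕ) (R : L.Relations n) (v : Fin n → V) (i j : ℕ), i ≤ j →
        (∀ k, v k ∈ E i) →
        (S.RelMap R (fun k => x i (v k)) ↔ S.RelMap R (fun k => x j (v k))) := by
      intro n R v i j hij hv
      exact (hx i j hij).atEq.2 n R (fun k => (x i (v k), x j (v k))) fun k => ⟨v k, hv k, rfl⟩
    intro n R v i j hi hj
    rcases le_total i j with h | h
    · exact h1 n R v i j h hi
    · exact (h1 n R v j i h hj).symm
  have hcom : ∀ e e' : V, ∃ j, e ∈ E j ∧ e' ∈ E j := by
    intro e e'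
    obtain ⟨i, hi⟩ := hEu e
    obtain ⟨j, hj⟩ := hEu e'
    exact ⟨max i j, hE _ _ (le_max_left _ _) hi, hE _ _ (le_max_right _ _) hj⟩
  -- the equality of variables
  let st : Setoid V :=
    { r := fun e e' => ∃ j, e ∈ E j ∧ e' ∈ E j ∧ x j e = x j e'
      iseqv := by
        refine ⟨fun e => ?_, ?_, ?_⟩
        · obtain ⟨j, hj⟩ := hEu e
          exact ⟨j, hj, hj, rfl⟩
        · rintro e e' ⟨j, h1, h2, h3⟩
          exact ⟨j, h2, h1, h3.symm⟩
        · rintro e e' e'' ⟨j, h1, h2, h3⟩ ⟨j', h1', h2', h3'⟩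
          have hj := le_max_left j j'
          have hj' := le_max_right j j'
          refine ⟨max j j', hE _ _ hj h1, hE _ _ hj' h2', ?_⟩
          rw [(hat j (max j j') e e' h1 (hE _ _ hj h1) h2 (hE _ _ hj h2)).mp h3]
          exact (hat j' (max j j') e' e'' h1' (hE _ _ hj' h1') h2' (hE _ _ hj' h2')).mp h3' }
  let N0 : Type := Quotient st
  have hqe : ∀ j e e', e ∈ E j → e' ∈ E j →
      ((Quotient.mk st e = Quotient.mk st e') ↔ x j e = x j e') := by
    intro j e e' he he'
    rw [Quotient.eq]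
    constructor
    · rintro ⟨i, h1, h2, h3⟩
      exact (hat i j e e' h1 he h2 he').mp h3
    · intro h
      exact ⟨j, he, he', h⟩
  let T0 : L.Structure N0 :=
    { funMap := fun {n} f => isEmptyElim f
      RelMap := fun {n} R v => ∃ (j : ℕ) (e : Fin n → V), (∀ k, e k ∈ E j ∧
        Quotient.mk st (e k) = v k) ∧ S.RelMap R (fun k => x j (e k)) }
  have hT0 : ∀ j, AtEq T0 S ((fun e => (Quotient.mk st e, x j e)) '' E j) := by
    intro j
    refine ⟨?_, fun n R v hv => ?_⟩
    · rintro _ ⟨e, he, rfl⟩ _ ⟨e', he', rfl⟩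
      exact hqe j e e' he he'
    · choose e he hev using hv
      have h1 : v = fun k => (Quotient.mk st (e k), x j (e k)) := by
        funext k
        exact (hev k).symm
      subst h1
      constructor
      · rintro ⟨i, e', h2, h3⟩
        have hi := le_max_left i j
        have hj := le_max_right i j
        show S.RelMap R (fun k => x j (e k))
        rw [hrel n R e j (max i j) he (fun k => hE _ _ hj (he k))]
        rw [hrel n R e' i (max i j) (fun k => (h2 k).1) (fun k => hE _ _ hi (h2 k).1)] at h3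
        have h4 : (fun k => x (max i j) (e k)) = fun k => x (max i j) (e' k) := by
          funext k
          exact ((hqe (max i j) (e' k) (e k) (hE _ _ hi (h2 k).1) (hE _ _ hj (he k))).mp
            (h2 k).2).symm
        rw [h4]
        exact h3
      · intro h2
        exact ⟨j, e, fun k => ⟨he k, rfl⟩, h2⟩
  -- back and forth
  have hbf : ∀ γ : Ordinal.{0}, γ ≤ δ → ∀ j,
      BFR T0 S univ univ γ ((fun e => (Quotient.mk st e, x j e)) '' E j) := by
    intro γ
    induction γ using WellFoundedLT.induction with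
    | _ γ ih =>
      intro hγ j
      rw [BFR.def]
      refine ⟨hT0 j, fun β hβ => ⟨fun a _ => ?_, fun z _ => ?_⟩⟩
      · obtain ⟨e', rfl⟩ := Quotient.exists_rep a
        obtain ⟨i0, hi0⟩ := hEu e'
        have hji := le_max_right i0 j
        have hei : e' ∈ E (max i0 j) := hE _ _ (le_max_left _ _) hi0
        have h1 := ih β hβ (hβ.le.trans hγ) (max i0 j)
        obtain ⟨y, -, hy⟩ := (hx j (max i0 j) hji).back (hβ.trans_le hγ)
          (mem_univ (x (max i0 j) e'))
        refine ⟨y, mem_univ y, ?_⟩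
        refine h1.trans (hy.symm (q := insert (x (max i0 j) e', y)
          (VQ_pr (E j) (x (max i0 j)) (x j))) ?_) ?_
        · rintro _ (rfl | ⟨e, he, rfl⟩)
          · exact mem_insert _ _
          · exact mem_insert_of_mem _ ⟨e, he, rfl⟩
        · rintro _ (rfl | ⟨e, he, rfl⟩)
          · exact ⟨x (max i0 j) e', ⟨e', hei, rfl⟩, mem_insert _ _⟩
          · exact ⟨x (max i0 j) e, ⟨e, hE _ _ hji he, rfl⟩, mem_insert_of_mem _ ⟨e, he, rfl⟩⟩
      · obtain ⟨i, hji, e', he', h2⟩ := hH j β (hβ.trans_le hγ) z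
        have h1 := ih β hβ (hβ.le.trans hγ) i
        refine ⟨Quotient.mk st e', mem_univ _, ?_⟩
        refine h1.trans (h2.symm (q := insert (x i e', z) (VQ_pr (E j) (x i) (x j))) ?_) ?_
        · rintro _ (rfl | ⟨e, he, rfl⟩)
          · exact mem_insert _ _
          · exact mem_insert_of_mem _ ⟨e, he, rfl⟩
        · rintro _ (rfl | ⟨e, he, rfl⟩)
          · exact ⟨x i e', ⟨e', he', rfl⟩, mem_insert _ _⟩
          · exact ⟨x i e, ⟨e, hE _ _ hji he, rfl⟩, mem_insert_of_mem _ ⟨e, he, rfl⟩⟩
  have hb0 : BFR T0 S univ univ δ ∅ := BFR.anti (empty_subset _) (hbf δ le_rfl 0)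
  -- a copy on the natural numbers
  have hN0c : Countable N0 := by
    show Countable (Quotient st)
    infer_instance
  have hMi : Infinite M := hS.infinite
  have hN0i : Infinite N0 := by
    by_contra hcon
    rw [not_infinite_iff_finite] at hcon
    have := Fintype.ofFinite N0
    have hle : ((Fintype.card N0 + 1 : ℕ) : Ordinal.{0}) ≤ δ :=
      ((Ordinal.natCast_lt_omega0 _).le.trans le_self_add).trans hS.om
    have h1 : BFR T0 S univ univ (0 + ((Fintype.card N0 + 1 : ℕ) : Ordinal.{0})) ∅ :=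
      hb0.mono (by simpa using hle)
    obtain ⟨f, hf⟩ := Infinite.exists_subset_card_eq M (Fintype.card N0 + 1)
    obtain ⟨y, -, hy⟩ := BFR.back_many _ h1 (fun i : Fin (Fintype.card N0 + 1) =>
      ((f.equivFinOfCardEq hf).symm i : M)) fun _ => mem_univ _
    have hinj : Function.Injective y := by
      intro i j hij
      have h2 := (hy.atEq.1 (y i, _) (Or.inr ⟨i, rfl⟩) (y j, _) (Or.inr ⟨j, rfl⟩)).mp hij
      exact (f.equivFinOfCardEq hf).symm.injective (Subtype.ext h2)
    have := Fintype.card_le_of_injective y hinj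
    simp at this
  obtain ⟨eN⟩ := nonempty_equiv_of_countable (α := ℕ) (β := N0)
  have h3 : BFR (pl T0 eN) T0 univ univ δ {a | a.2 = eN a.1} := by
    refine BFR.of_relIso (e := eN) (fun n R v => Iff.rfl) δ fun a ha => ha
  obtain ⟨S', hS'K, hS'⟩ := hS.lev δ hS.lt
  refine ⟨pl T0 eN, ?_, fun e => eN.symm (Quotient.mk st e), fun j => ?_⟩
  · refine hS.clos S' hS'K (pl T0 eN) ?_
    have h4 : BFR S' S univ univ δ ∅ := hS'.symm fun a ha => absurd ha (notMem_empty a)
    have h5 : BFR S T0 univ univ δ ∅ := hb0.symm fun a ha => absurd ha (notMem_empty a)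
    have h6 : BFR T0 (pl T0 eN) univ univ δ ∅ := h3.symm fun a ha => absurd ha (notMem_empty a)
    exact (h4.trans h5 (r := ∅) fun a ha => absurd ha (notMem_empty a)).trans h6
      fun a ha => absurd ha (notMem_empty a)
  · refine h3.trans (hbf δ le_rfl j) ?_
    rintro _ ⟨e, he, rfl⟩
    exact ⟨Quotient.mk st e, by simp, ⟨e, he, rfl⟩⟩

end HEC
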