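import Pool.Agent.HEC.StP

/-!
# HEC, module VSA: the set `Hv n` is visible (helper27)
-/

set_option autoImplicit false
set_option linter.unusedVariables false

namespace HEC

open Set Pool.Agent.Helper5.DU Pool.Agent.Helper6.Str Pool.Agent.Helper79.VC
  Pool.Agent.Helper97.LO Pool.Agent.Helper97.VC HER HERN

theorem VSA_one (hO : St_VSO) (hH : St_VSH) (L : FirstOrder.Language.{0, 0}) (M N : Type)
    (S : L.Structure M) (T : L.Structure N) (g : Set (L.Relations 2)) (X : Set M) (X' : Set N)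
    (γ : Ordinal.{0}) (p : Set (M × N)) (n : ℕ) (hS : LF S g) (hT : LF T g) (cX : Cld S g X)
    (cX' : Cld T g X') (hHv : Hv S g n ⊆ X) (hγ : Ordinal.omega0 + Ordinal.omega0 + 1 ≤ γ)
    (hB : BFR S T X X' γ p) : ∀ a ∈ p, a.1 ∈ Hv S g n → a.2 ∈ Hv T g n := by
  rintro a ha ⟨y, hy, hn⟩
  have hyX : y ∈ X := hHv ⟨y, Relation.ReflTransGen.refl, hn⟩
  have hlt : (Ordinal.omega0 + Ordinal.omega0 : Ordinal.{0}) < γ :=
    lt_of_lt_of_le (Order.lt_add_one_iff.2 le_rfl) hγ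
  obtain ⟨y', hy', hB'⟩ := hB.forth hlt hyX
  have h1 := hO L M N S T g X X' (Ordinal.omega0 + Ordinal.omega0) (insert (y, y') p) cX cX'
    (le_self_add) hB' (y, y') (mem_insert _ _) a (mem_insert_of_mem _ ha) hyX hy'
  have h2 := hH L M N S T g X X' (Ordinal.omega0 + Ordinal.omega0) (insert (y, y') p) hS hT cX cX'
    le_rfl hB' (y, y') (mem_insert _ _) hyX hy'
  refine ⟨y', h1.1 hy, ?_⟩
  rw [← h2]
  exact hn

/-- [VSA] -/
theorem thm_VSA (hO : St_VSO) (hH : St_VSH) : St_VSA := by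
  intro L M N S T g X X' γ p n hS hT cX cX' hHv hHv' hγ hB a ha
  constructor
  · exact VSA_one hO hH L M N S T g X X' γ p n hS hT cX cX' hHv hγ hB a ha
  · exact VSA_one hO hH L N M T S g X' X γ (Prod.swap ⁻¹' p) n hT hS cX' cX hHv' hγ hB.swap
      (a.2, a.1) ha

end HEC
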