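import Pool.Agent.HEC.StP

/-!
# HEC, module VSC: the components are visible
-/

set_option autoImplicit false

namespace HEC

open Set Pool.Agent.Helper5.DU Pool.Agent.Helper6.Str Pool.Agent.Helper79.VC
  Pool.Agent.Helper97.LO Pool.Agent.Helper97.VC HER HERN

/-- one direction -/
private theorem VSC_one (hVSO : St_VSO) {L : FirstOrder.Language.{0, 0}} {M N : Type}
    {S : L.Structure M} {T : L.Structure N} {g : Set (L.Relations 2)} {X A : Set M}
    {X' A' : Set N} {κ γ : Ordinal.{0}} {p : Set (M × N)} (hX : Cld S g X) (hX' : Cld T g X')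
    (hA : ∀ q, p ⊆ q → BFR S T X X' κ q → ∀ a ∈ q, a.1 ∈ X → a.2 ∈ X' →
      (a.1 ∈ A ↔ a.2 ∈ A'))
    (hγ : κ + Ordinal.omega0 + Ordinal.omega0 ≤ γ) (hB : BFR S T X X' γ p) {a b : M × N}
    (ha : a ∈ p) (hb : b ∈ p) (ha1 : a.1 ∈ X) (ha2 : a.2 ∈ X') (h : Cn S g X A a.1 b.1) :
    Cn T g X' A' a.2 b.2 := by
  have key : ∃ n : ℕ, ∀ (q : Set (M × N)) (y' : N), p ⊆ q → (a.1, y') ∈ q → a.1 ∈ X → y' ∈ X' →
      BFR S T X X' (κ + Ordinal.omega0 + n) q → Cn T g X' A' y' b.2 := by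
    refine Relation.ReflTransGen.head_induction_on (motive := fun y _ => ∃ n : ℕ,
      ∀ (q : Set (M × N)) (y' : N), p ⊆ q → (y, y') ∈ q → y ∈ X → y' ∈ X' →
      BFR S T X X' (κ + Ordinal.omega0 + n) q → Cn T g X' A' y' b.2) h ?_ ?_
    · refine ⟨0, fun q y' hpq hy _ _ hq => ?_⟩
      have h1 := (hq.atEq.1 _ hy _ (hpq hb)).1 rfl
      have h2 : y' = b.2 := h1
      rw [h2]
      exact Relation.ReflTransGen.refl
    · rintro y z hyz - ⟨n, hn⟩
      refine ⟨n + 1, fun q y' hpq hy hyX hyX' hq => ?_⟩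
      obtain ⟨hy1, hz1, hg⟩ := hyz
      have hlt : κ + Ordinal.omega0 + (n : Ordinal.{0}) <
          κ + Ordinal.omega0 + ((n + 1 : ℕ) : Ordinal.{0}) := by
        apply (add_lt_add_iff_left _).2
        exact_mod_cast Nat.lt_succ_self n
      obtain ⟨z', hz'X, hz'⟩ := hq.forth hlt hz1.1
      have hk1 : κ ≤ κ + Ordinal.omega0 + (n : Ordinal.{0}) :=
        (le_self_add).trans le_self_add
      have hk2 : Ordinal.omega0 ≤ κ + Ordinal.omega0 + (n : Ordinal.{0}) :=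
        (le_add_self).trans le_self_add
      have hy'A : y' ∉ A' := fun hh => hy1.2
        ((hA q hpq (hq.mono (hk1.trans hlt.le)) _ hy hyX hyX').2 hh)
      have hz'A : z' ∉ A' := fun hh => hz1.2
        ((hA _ (hpq.trans (subset_insert _ _)) (hz'.mono hk1) _ (mem_insert _ _) hz1.1 hz'X).2 hh)
      have hyq : (y, y') ∈ insert (z, z') q := mem_insert_of_mem _ hy
      have hzq : (z, z') ∈ insert (z, z') q := mem_insert _ _
      have h1 := hVSO L M N S T g X X' _ _ hX hX' hk2 hz' _ hyq _ hzq hyX hyX'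
      have h2 := hVSO L M N S T g X X' _ _ hX hX' hk2 hz' _ hzq _ hyq hz1.1 hz'X
      have hadj : Adj T g X' A' y' z' :=
        ⟨⟨hyX', hy'A⟩, ⟨hz'X, hz'A⟩, hg.imp h1.1 h2.1⟩
      exact Relation.ReflTransGen.head hadj
        (hn _ z' (hpq.trans (subset_insert _ _)) hzq hz1.1 hz'X hz')
  obtain ⟨n, hn⟩ := key
  refine hn p a.2 Subset.rfl ha ha1 ha2 (hB.mono (le_trans ?_ hγ))
  exact (add_le_add_iff_left _).2 (Ordinal.natCast_lt_omega0 n).le

/-- [VSC] The components are visible. -/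
theorem thm_VSC (hVSO : St_VSO) : St_VSC := by
  intro L M N S T g X A X' A' κ γ p hX hX' hA hγ hB a ha b hb ha1 ha2 hb1 hb2
  refine ⟨VSC_one hVSO hX hX' hA hγ hB ha hb ha1 ha2, fun h => ?_⟩
  have hA' : ∀ q, Prod.swap ⁻¹' p ⊆ q → BFR T S X' X κ q → ∀ a ∈ q, a.1 ∈ X' → a.2 ∈ X →
      (a.1 ∈ A' ↔ a.2 ∈ A) := by
    intro q hpq hq c hc hc1 hc2
    refine (hA (Prod.swap ⁻¹' q) ?_ hq.swap c.swap ?_ hc2 hc1).symm
    · intro d hd
      exact hpq (by rw [mem_preimage, Prod.swap_swap]; exact hd)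
    · rw [mem_preimage, Prod.swap_swap]
      exact hc
  have h1 := VSC_one (a := a.swap) (b := b.swap) hVSO hX' hX hA' hγ hB.swap
    (by rw [mem_preimage, Prod.swap_swap]; exact ha)
    (by rw [mem_preimage, Prod.swap_swap]; exact hb) ha2 ha1
  exact h1 h

end HEC
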