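import Pool.Agent.HEC.StP

/-!
# HEC, module VSH: the height is visible in closed sets
-/

set_option autoImplicit false

namespace HEC

open Set Pool.Agent.Helper5.DU Pool.Agent.Helper6.Str Pool.Agent.Helper79.VC
  Pool.Agent.Helper97.LO Pool.Agent.Helper97.VC HER HERN

variable {L : FirstOrder.Language.{0, 0}} {M N : Type}

private theorem VSH_dn {S : L.Structure M} {g : Set (L.Relations 2)} {X : Set M}
    (hX : Cld S g X) {a b : M} (ha : a ∈ X) (hb : b ∈ dn S g a) : b ∈ X := by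
  have hb' : Relation.ReflTransGen (Stp S g) a b := hb
  induction hb' with
  | refl => exact ha
  | tail h1 h2 ih => exact hX _ (ih h1) _ h2

private theorem VSH_le (h0 : St_VSO) (S : L.Structure M) (T : L.Structure N)
    (g : Set (L.Relations 2)) (X : Set M) (X' : Set N) (γ : Ordinal.{0}) (p : Set (M × N))
    (hS : LF S g) (hT : LF T g) (hX : Cld S g X) (hX' : Cld T g X')
    (hγ : Ordinal.omega0 + Ordinal.omega0 ≤ γ) (hB : BFR S T X X' γ p) (a : M × N) (ha : a ∈ p)
    (ha1 : a.1 ∈ X) (ha2 : a.2 ∈ X') : ht S g a.1 ≤ ht T g a.2 := by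
  have := (hS a.1).to_subtype
  have := (hT a.2).to_subtype
  have e : dn S g a.1 ≃ Fin (Nat.card (dn S g a.1)) := Finite.equivFin _
  obtain ⟨y, -, hy⟩ := BFR.forth_many (γ := Ordinal.omega0) (Nat.card (dn S g a.1))
    (hB.mono ((add_le_add_right (Ordinal.natCast_lt_omega0 _).le _).trans hγ))
    (fun i => (e.symm i : M)) (fun i => VSH_dn hX ha1 (e.symm i).2)
  have hinj : Function.Injective y := by
    intro i j hij
    have h1 := (hy.atEq.1 ((e.symm i : M), y i) (Or.inr ⟨i, rfl⟩) ((e.symm j : M), y j)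
      (Or.inr ⟨j, rfl⟩)).2 hij
    exact e.symm.injective (Subtype.ext h1)
  have hge : ∀ i, y i ∈ dn T g a.2 := fun i =>
    (h0 L M N S T g X X' Ordinal.omega0 _ hX hX' le_rfl hy a (Or.inl ha) ((e.symm i : M), y i)
      (Or.inr ⟨i, rfl⟩) ha1 ha2).1 (e.symm i).2
  have h2 := Nat.card_le_card_of_injective (fun b : dn S g a.1 => (⟨y (e b), hge _⟩ : dn T g a.2))
    (fun b b' hb => e.injective (hinj (congrArg Subtype.val hb)))
  unfold ht
  rw [← Nat.card_coe_set_eq, ← Nat.card_coe_set_eq]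
  exact h2

theorem thm_VSH (h0 : St_VSO) : St_VSH := by
  intro L M N S T g X X' γ p hS hT hX hX' hγ hB a ha ha1 ha2
  refine le_antisymm (VSH_le h0 S T g X X' γ p hS hT hX hX' hγ hB a ha ha1 ha2) ?_
  exact VSH_le h0 T S g X' X γ (Prod.swap ⁻¹' p) hT hS hX' hX hγ hB.swap a.swap
    (by simpa using ha) ha2 ha1

end HEC
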