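import Pool.Agent.HEC.StP

/-!
# HEC, module VSO: the order is visible in closed sets
-/

set_option autoImplicit false

namespace HEC

open Set Pool.Agent.Helper5.DU Pool.Agent.Helper6.Str Pool.Agent.Helper79.VC
  Pool.Agent.Helper97.LO Pool.Agent.Helper97.VC HER HERN

variable {L : FirstOrder.Language.{0, 0}} {M N : Type}

private theorem VSO_one {S : L.Structure M} {T : L.Structure N} {g : Set (L.Relations 2)}
    {X : Set M} {X' : Set N} (hX : Cld S g X) {b : M × N} {y : M} (h : Ge S g y b.1) :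
    ∃ n : ℕ, ∀ (q : Set (M × N)) (y' : N), (y, y') ∈ q → b ∈ q → y ∈ X →
      BFR S T X X' (n : Ordinal.{0}) q → Ge T g y' b.2 := by
  refine Relation.ReflTransGen.head_induction_on
    (motive := fun y _ => ∃ n : ℕ, ∀ (q : Set (M × N)) (y' : N), (y, y') ∈ q → b ∈ q → y ∈ X →
      BFR S T X X' (n : Ordinal.{0}) q → Ge T g y' b.2) h ?_ ?_
  · refine ⟨0, fun q y' h1 h2 _ h3 => ?_⟩
    have h4 : y' = b.2 := (h3.atEq.1 _ h1 _ h2).1 rfl
    rw [h4]
    exact Relation.ReflTransGen.refl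
  · rintro a c hac - ⟨n, hn⟩
    refine ⟨n + 1, fun q y' h1 h2 hy h3 => ?_⟩
    have hc : c ∈ X := hX a hy c hac
    obtain ⟨R, hR, hR2⟩ := hac
    have hlt : (n : Ordinal.{0}) < ((n + 1 : ℕ) : Ordinal.{0}) := by exact_mod_cast Nat.lt_succ_self n
    obtain ⟨z', _, hB⟩ := h3.forth hlt hc
    have h5 := hn _ z' (mem_insert _ _) (mem_insert_of_mem _ h2) hc hB
    have h6 := hB.atEq.2 2 R ![(a, y'), (c, z')] (by
      intro i
      fin_cases i
      · exact mem_insert_of_mem _ h1
      · exact mem_insert _ _)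
    have e1 : (fun i => (![(a, y'), (c, z')] i).1) = ![a, c] := by
      funext i
      fin_cases i <;> rfl
    have e2 : (fun i => (![(a, y'), (c, z')] i).2) = ![y', z'] := by
      funext i
      fin_cases i <;> rfl
    rw [e1, e2] at h6
    exact Relation.ReflTransGen.head ⟨R, hR, h6.1 hR2⟩ h5

private theorem VSO_two {S : L.Structure M} {T : L.Structure N} {g : Set (L.Relations 2)}
    {X : Set M} {X' : Set N} {γ : Ordinal.{0}} {p : Set (M × N)} (hX : Cld S g X)
    (hγ : Ordinal.omega0 ≤ γ) (hB : BFR S T X X' γ p) {a b : M × N} (ha : a ∈ p) (hb : b ∈ p)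
    (haX : a.1 ∈ X) (h : Ge S g a.1 b.1) : Ge T g a.2 b.2 := by
  obtain ⟨n, hn⟩ := VSO_one (T := T) (X' := X') hX h
  exact hn p a.2 ha hb haX (hB.mono ((Ordinal.natCast_lt_omega0 n).le.trans hγ))

theorem thm_VSO : St_VSO := by
  intro L M N S T g X X' γ p hX hX' hγ hB a ha b hb ha1 ha2
  exact ⟨VSO_two hX hγ hB ha hb ha1,
    VSO_two hX' hγ hB.swap (a := a.swap) (b := b.swap) (by simpa using ha) (by simpa using hb) ha2⟩

end HEC
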