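import Pool.Agent.HEC.StQ

/-!
# HEC [VSP]: the labels are visible (helper47)
-/

set_option autoImplicit false
set_option linter.unusedVariables false

namespace HEC

open Set Pool.Agent.Helper5.DU Pool.Agent.Helper6.Str Pool.Agent.Helper79.VC
  Pool.Agent.Helper97.LO Pool.Agent.Helper97.VC HER HERN

variable {L : FirstOrder.Language.{0, 0}} {M N : Type}

private theorem VSP_cld {S : L.Structure M} {g : Set (L.Relations 2)} {n m : ℕ} {f : Fin m → M}
    (h : Cld S g (range f)) : Cld S g (AA S g n f) := by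
  rintro a (⟨y, hy, hn⟩ | ha) b hb
  · exact Or.inl ⟨y, Relation.ReflTransGen.tail hy hb, hn⟩
  · exact Or.inr (h a ha b hb)

private theorem VSP_in (S : L.Structure M) (g : Set (L.Relations 2)) {A : Set M} (ν : M → ℕ)
    {x : M} (h : x ∈ A) : lb S g A ν x = Sum.inr (ν x) := by
  unfold lb
  rw [dif_pos h]

private theorem VSP_out (S : L.Structure M) (g : Set (L.Relations 2)) {A : Set M} (ν : M → ℕ)
    {x : M} (h : x ∉ A) (k : ℕ) : lb S g A ν x ≠ Sum.inr k := by
  unfold lb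
  rw [dif_neg h]
  exact Sum.inl_ne_inr

theorem thm_VSP (hVSA : St_VSA) (hVSC : St_VSC) (hBKX : St_BKX) : St_VSP := by
  intro L M N S T g n m f f' ν ν' κ hS hT hν U V p hfp hpX hp
  obtain ⟨hX, hXc, hXl, hAX⟩ := hBKX L M S g (AA S g n f) ν U (VSP_cld hS.cld)
  obtain ⟨hX', hXc', hXl', hAX'⟩ := hBKX L N T g (AA T g n f') ν' V (VSP_cld hT.cld)
  -- the countable parts are respected
  have h1 : ∀ q, prs f f' ⊆ q → BFR S T (Xs (lb S g (AA S g n f) ν) U)
      (Xs (lb T g (AA T g n f') ν') V) (Ordinal.omega0 + Ordinal.omega0 + 1) q → ∀ a ∈ q,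
      (a.1 ∈ AA S g n f ↔ a.2 ∈ AA T g n f') := by
    intro q hq hb a ha
    have h2 := hVSA L M N S T g _ _ _ q n hS.lf hT.lf hX hX' (subset_union_left.trans hAX)
      (subset_union_left.trans hAX') le_rfl hb a ha
    constructor
    · rintro (h3 | ⟨i, h3⟩)
      · exact Or.inl (h2.1 h3)
      · exact Or.inr ⟨i, ((hb.atEq.1 (f i, f' i) (hq ⟨i, rfl⟩) a ha).1 h3)⟩
    · rintro (h3 | ⟨i, h3⟩)
      · exact Or.inl (h2.2 h3)
      · exact Or.inr ⟨i, ((hb.atEq.1 (f i, f' i) (hq ⟨i, rfl⟩) a ha).2 h3)⟩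
  have hl1 : Ordinal.omega0 + Ordinal.omega0 + 1 ≤ Ordinal.omega0 + Ordinal.omega0 + 1 + κ +
      Ordinal.omega0 + Ordinal.omega0 :=
    (le_self_add.trans le_self_add).trans le_self_add
  have hl2 : Ordinal.omega0 + Ordinal.omega0 + 1 + κ ≤ Ordinal.omega0 + Ordinal.omega0 + 1 + κ +
      Ordinal.omega0 + Ordinal.omega0 := le_self_add.trans le_self_add
  have hl3 : Ordinal.omega0 + Ordinal.omega0 + 1 + Ordinal.omega0 + Ordinal.omega0 ≤
      Ordinal.omega0 + Ordinal.omega0 + 1 + κ + Ordinal.omega0 + Ordinal.omega0 := by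
    have h0 : ∀ a b c : Ordinal.{0}, a ≤ b → a + c + c ≤ b + c + c := fun a b c h => by gcongr
    exact h0 _ _ _ le_self_add
  have h2 : ∀ a ∈ p, (a.1 ∈ AA S g n f ↔ a.2 ∈ AA T g n f') := h1 p hfp (hp.mono hl1)
  -- the levels
  have h3 : ∀ a ∈ p, a.1 ∈ AA S g n f → ν a.1 = ν' a.2 := by
    intro a ha haA
    refine hν a.1 haA a.2 ((h2 a ha).1 haA) ?_
    refine BFR.restr hAX hAX' (Ordinal.omega0 + Ordinal.omega0 + 1) κ ?_
      (BFR.anti (insert_subset (show (a.1, a.2) ∈ p from ha) hfp) (hp.mono hl2))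
    intro x _ y _ hxy
    exact h1 _ ((subset_insert _ _).trans (subset_insert _ _)) hxy _ (mem_insert _ _)
  constructor
  · intro a ha k
    by_cases haA : a.1 ∈ AA S g n f
    · rw [VSP_in S g ν haA, VSP_in T g ν' ((h2 a ha).1 haA), h3 a ha haA]
      simp only [Sum.inr.injEq]
    · exact iff_of_false (VSP_out S g ν haA k) (VSP_out T g ν' (fun h => haA ((h2 a ha).2 h)) k)
  · intro a ha b hb
    by_cases haA : a.1 ∈ AA S g n f
    · have haA' := (h2 a ha).1 haA
      by_cases hbA : b.1 ∈ AA S g n f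
      · rw [VSP_in S g ν haA, VSP_in T g ν' haA', h3 a ha haA, VSP_in S g ν hbA,
          VSP_in T g ν' ((h2 b hb).1 hbA), h3 b hb hbA]
        simp only [Sum.inr.injEq]
      · have hbA' : b.2 ∉ AA T g n f' := fun h => hbA ((h2 b hb).2 h)
        rw [VSP_in S g ν haA, VSP_in T g ν' haA']
        exact iff_of_false (fun h => VSP_out S g ν hbA _ h.symm)
          (fun h => VSP_out T g ν' hbA' _ h.symm)
    · have haA' : a.2 ∉ AA T g n f' := fun h => haA ((h2 a ha).2 h)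
      by_cases hbA : b.1 ∈ AA S g n f
      · rw [VSP_in S g ν hbA, VSP_in T g ν' ((h2 b hb).1 hbA)]
        exact iff_of_false (VSP_out S g ν haA _) (VSP_out T g ν' haA' _)
      · have hbA' : b.2 ∉ AA T g n f' := fun h => hbA ((h2 b hb).2 h)
        rw [hXl a.1 haA b.1 hbA, hXl' a.2 haA' b.2 hbA', hXc a.1 (hpX a ha).1 haA b.1,
          hXc' a.2 (hpX a ha).2 haA' b.2]
        exact hVSC L M N S T g _ _ _ _ (Ordinal.omega0 + Ordinal.omega0 + 1) _ p hX hX'
          (fun q hq hbq c hc _ _ => h1 q (hfp.trans hq) hbq c hc) hl3 hp a ha b hb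
          (hpX a ha).1 (hpX a ha).2 (hpX b hb).1 (hpX b hb).2

end HEC
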