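import Pool.Agent.HEC.StP

/-!
# HEC, module VSZ: the finite sizes of the components are visible (helper9)
-/

set_option autoImplicit false

namespace HEC

open Set Pool.Agent.Helper5.DU Pool.Agent.Helper6.Str Pool.Agent.Helper79.VC
  Pool.Agent.Helper97.LO Pool.Agent.Helper97.VC HER HERN

theorem VSZ_enum {α : Type} {s : Set α} {m : ℕ} (h : (m : ℕ∞) ≤ s.encard) :
    ∃ y : Fin m → α, Function.Injective y ∧ ∀ i, y i ∈ s := by
  obtain ⟨t, hts, ht⟩ := Set.exists_subset_encard_eq h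
  have hfin : t.Finite := Set.finite_of_encard_eq_coe ht
  have hcard : hfin.toFinset.card = m := by
    have h1 := hfin.encard_eq_coe_toFinset_card
    rw [ht] at h1
    exact_mod_cast h1.symm
  let e := Finset.equivFinOfCardEq hcard
  refine ⟨fun i => ((e.symm i : hfin.toFinset) : α), fun i j hij => ?_, fun i => ?_⟩
  · exact e.symm.injective (Subtype.ext hij)
  · exact hts (hfin.mem_toFinset.1 (e.symm i).2)

theorem VSZ_le {α : Type} {s : Set α} {m : ℕ} {y : Fin m → α} (hinj : Function.Injective y)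
    (hy : ∀ i, y i ∈ s) : (m : ℕ∞) ≤ s.encard := by
  have h1 : (range y).encard = m := by
    rw [← image_univ, hinj.encard_image, Set.encard_univ]
    simp
  rw [← h1]
  refine Set.encard_le_encard ?_
  rintro _ ⟨i, rfl⟩
  exact hy i

theorem VSZ_sub {L : FirstOrder.Language.{0, 0}} {M : Type} {S : L.Structure M}
    {g : Set (L.Relations 2)} {X A : Set M} {x y : M} (hx : x ∈ X \ A) (hy : y ∈ bk S g X A x) :
    y ∈ X \ A := by
  have h : Relation.ReflTransGen (Adj S g X A) x y := hy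
  rcases Relation.ReflTransGen.cases_tail h with h1 | ⟨z, -, h1⟩
  · rw [h1]
    exact hx
  · exact h1.2.1

/-- one direction -/
theorem VSZ_move (hVSC : St_VSC) {L : FirstOrder.Language.{0, 0}} {M N : Type}
    {S : L.Structure M} {T : L.Structure N} {g : Set (L.Relations 2)} {X A : Set M}
    {X' A' : Set N} {κ : Ordinal.{0}} {p : Set (M × N)} (hX : Cld S g X) (hX' : Cld T g X')
    (hA : ∀ q, p ⊆ q → BFR S T X X' κ q → ∀ a ∈ q, a.1 ∈ X → a.2 ∈ X' → (a.1 ∈ A ↔ a.2 ∈ A'))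
    {x : M} {x' : N} (hx : x ∈ X \ A) (hx' : x' ∈ X') {m : ℕ}
    (h : BFR S T X X' (κ + Ordinal.omega0 + Ordinal.omega0 + m) (insert (x, x') p))
    {y : Fin m → M} (hinj : Function.Injective y) (hy : ∀ i, y i ∈ bk S g X A x) :
    ∃ y' : Fin m → N, Function.Injective y' ∧ ∀ i, y' i ∈ bk T g X' A' x' := by
  obtain ⟨y', hy', h1⟩ := BFR.forth_many m h y fun i => (VSZ_sub hx (hy i)).1
  refine ⟨y', fun i j hij => hinj ?_, fun i => ?_⟩
  · exact (h1.atEq.1 _ (Or.inr ⟨i, rfl⟩) _ (Or.inr ⟨j, rfl⟩)).2 hij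
  · have h2 := hVSC L M N S T g X A X' A' κ (κ + Ordinal.omega0 + Ordinal.omega0)
      (insert (x, x') p ∪ range fun i => (y i, y' i)) hX hX'
      (fun q hq => hA q ((subset_insert _ _).trans (subset_union_left.trans hq))) le_rfl h1
      (x, x') (Or.inl (mem_insert _ _)) (y i, y' i) (Or.inr ⟨i, rfl⟩) hx.1 hx'
      (VSZ_sub hx (hy i)).1 (hy' i)
    exact h2.1 (hy i)

theorem thm_VSZ (hVSC : St_VSC) : St_VSZ := by
  intro L M N S T g X A X' A' κ γ p hX hX' hA hγ h n hn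
  obtain ⟨x, hx, hxn⟩ := hn
  have hlt : κ + Ordinal.omega0 + Ordinal.omega0 + ((n + 1 : ℕ) : Ordinal.{0}) < γ :=
    (add_lt_add_right (Ordinal.natCast_lt_omega0 (n + 1)) _).trans_le hγ
  obtain ⟨x', hx', h1⟩ := h.forth hlt hx.1
  have hxA : x' ∉ A' := by
    have h2 := hA _ (subset_insert (x, x') p) (h1.mono ?_) (x, x') (mem_insert _ _) hx.1 hx'
    · exact fun h3 => hx.2 (h2.2 h3)
    · exact (le_self_add.trans le_self_add).trans le_self_add
  refine ⟨x', ⟨hx', hxA⟩, le_antisymm ?_ ?_⟩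
  · by_contra hcon
    have h2 : ((n + 1 : ℕ) : ℕ∞) ≤ (bk T g X' A' x').encard := by
      have h3 := Order.add_one_le_of_lt (not_le.1 hcon)
      exact_mod_cast h3
    obtain ⟨w, hw1, hw2⟩ := VSZ_enum h2
    have hA' : ∀ q, Prod.swap ⁻¹' p ⊆ q → BFR T S X' X κ q → ∀ a ∈ q, a.1 ∈ X' → a.2 ∈ X →
        (a.1 ∈ A' ↔ a.2 ∈ A) := by
      intro q hq h3 a ha ha1 ha2
      refine (hA (Prod.swap ⁻¹' q) (fun b hb => hq ?_) h3.swap (a.2, a.1) ?_ ha2 ha1).symm
      · exact hb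
      · exact ha
    have h4 : BFR T S X' X (κ + Ordinal.omega0 + Ordinal.omega0 + ((n + 1 : ℕ) : Ordinal.{0}))
        (insert (x', x) (Prod.swap ⁻¹' p)) := by
      refine h1.symm ?_
      rintro a (rfl | ha)
      · exact mem_insert _ _
      · exact mem_insert_of_mem _ ha
    obtain ⟨w', hw3, hw4⟩ := VSZ_move hVSC hX' hX hA' ⟨hx', hxA⟩ hx.1 h4 hw1 hw2
    have h5 := VSZ_le hw3 hw4
    rw [hxn] at h5
    have h6 : n + 1 ≤ n := by exact_mod_cast h5
    omega
  · obtain ⟨y, hy1, hy2⟩ := VSZ_enum hxn.ge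
    have h2 : BFR S T X X' (κ + Ordinal.omega0 + Ordinal.omega0 + ((n : ℕ) : Ordinal.{0}))
        (insert (x, x') p) := by
      refine h1.mono ?_
      have h3 : ((n : ℕ) : Ordinal.{0}) ≤ ((n + 1 : ℕ) : Ordinal.{0}) := by
        exact_mod_cast Nat.le_succ n
      exact add_le_add_right h3 _
    obtain ⟨y', hy3, hy4⟩ := VSZ_move hVSC hX hX' hA hx hx' h2 hy1 hy2
    exact VSZ_le hy3 hy4

end HEC
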