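import Pool.Agent.HEC.HFC
import Pool.Agent.HEC.PGC
import Pool.Agent.HEC.VQL
import Pool.Agent.HEC.VQC
import Pool.Agent.HEC.VSO
import Pool.Agent.HEC.VSH
import Pool.Agent.HEC.VSA
import Pool.Agent.HEC.VSC
import Pool.Agent.HEC.VSZ
import Pool.Agent.HEC.ANT
import Pool.Agent.HEC.CNN
import Pool.Agent.HEC.CCT
import Pool.Agent.HEC.SZL
import Pool.Agent.HEC.SQW
import Pool.Agent.HEC.USR
import Pool.Agent.HEC.USF
import Pool.Agent.HEC.CMG
import Pool.Agent.HEC.CMF
import Pool.Agent.HEC.NPM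
import Pool.Agent.HEC.AUT
import Pool.Agent.HEC.NEA
import Pool.Agent.HEC.NEU
import Pool.Agent.HEC.DTS
import Pool.Agent.HEC.LFA
import Pool.Agent.HEC.SIM
import Pool.Agent.HEC.QAA
import Pool.Agent.HEC.QBB
import Pool.Agent.HEC.MVS
import Pool.Agent.HEC.BQQ
import Pool.Agent.HEC.LFF
import Pool.Agent.HEC.LFT
import Pool.Agent.HEC.TMQ
import Pool.Agent.HEC.PGQ
import Pool.Agent.HEC.BKX
import Pool.Agent.HEC.VSP
import Pool.Agent.HEC.COV
import Pool.Agent.HEC.TRS
import Pool.Agent.HEC.VQQ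
import Pool.Agent.HEC.CXQ
import Pool.Agent.HEC.MNC

/-!
# HEC: all modules together
-/

set_option autoImplicit false

namespace HEC

theorem all_VSH : St_VSH := thm_VSH thm_VSO

theorem all_VSA : St_VSA := thm_VSA thm_VSO all_VSH

theorem all_VSC : St_VSC := thm_VSC thm_VSO

theorem all_SZL : St_SZL := thm_SZL (thm_VSZ all_VSC)

theorem all_USF : St_USF := thm_USF all_SZL thm_SQW thm_USR

theorem all_CMF : St_CMF := thm_CMF all_SZL thm_SQW thm_CMG

theorem all_NEU : St_NEU := thm_NEU thm_AUT (thm_NEA thm_NPM)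

theorem all_DTS : St_DTS :=
  thm_DTS all_VSA (thm_ANT thm_VSO all_VSH) thm_CNN thm_CCT all_USF all_CMF all_NEU

theorem all_SIM : St_SIM := thm_SIM thm_LFA

theorem all_BQQ : St_BQQ := thm_BQQ (thm_QBB all_SIM thm_LFA) thm_MVS

theorem all_LFT : St_LFT := thm_LFT thm_LFA (thm_QAA all_SIM) thm_MVS thm_LFF

theorem all_VSP : St_VSP := thm_VSP all_VSA all_VSC thm_BKX

theorem all_COV : St_COV := thm_COV thm_BKX all_VSP

theorem all_TRS : St_TRS := thm_TRS all_VSA all_VSC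

theorem all_PGQ : St_PGQ := thm_PGQ all_BQQ

theorem all_VQQ : St_VQQ :=
  thm_VQQ (thm_VQC thm_VQL) thm_PGC all_TRS all_COV all_VSP all_BQQ all_PGQ

theorem all_CXQ : St_CXQ := thm_CXQ thm_HFC thm_PGC all_DTS all_COV all_PGQ all_VQQ

/-- the large structures of the class are tame -/
theorem all_MNC : St_MNC := thm_MNC all_CXQ (thm_TMQ all_LFT)

end HEC
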