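import Pool.Agent.HERN.St

/-!
# HEC: hereditary classes of structures with locally finite closures, definitions
-/

set_option autoImplicit false
set_option linter.unusedVariables false

namespace HEC

open Set Pool.Agent.Helper5.DU Pool.Agent.Helper6.Str Pool.Agent.Helper79.VC
  Pool.Agent.Helper97.LO Pool.Agent.Helper97.VC HER HERN

variable {L : FirstOrder.Language.{0, 0}} {M N : Type}

/-! ## Steps, closed sets -/

/-- a step -/
def Stp (S : L.Structure M) (g : Set (L.Relations 2)) (a b : M) : Prop :=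
  ∃ R ∈ g, S.RelMap R ![a, b]

/-- `b` is generated by `a` (`b` is below `a`) -/
def Ge (S : L.Structure M) (g : Set (L.Relations 2)) (a b : M) : Prop :=
  Relation.ReflTransGen (Stp S g) a b

/-- the elements below `a` -/
def dn (S : L.Structure M) (g : Set (L.Relations 2)) (a : M) : Set M := {b | Ge S g a b}

/-- closed sets -/
def Cld (S : L.Structure M) (g : Set (L.Relations 2)) (X : Set M) : Prop :=
  ∀ a ∈ X, ∀ b, Stp S g a b → b ∈ X

/-- locally finite -/
def LF (S : L.Structure M) (g : Set (L.Relations 2)) : Prop := ∀ a, (dn S g a).Finite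

/-- height: the number of elements below `a` -/
noncomputable def ht (S : L.Structure M) (g : Set (L.Relations 2)) (a : M) : ℕ :=
  (dn S g a).ncard

/-- the closed set generated by `X` -/
def clo (S : L.Structure M) (g : Set (L.Relations 2)) (X : Set M) : Set M :=
  {b | ∃ a ∈ X, Ge S g a b}

/-- The members of `K` are locally finite, `K` is closed under the infinite closed substructures
which contain a suitable finite set. -/
def HerC [∀ n, IsEmpty (L.Functions n)] (g : Set (L.Relations 2)) (K : Set (L.Structure ℕ)) :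
    Prop :=
  ∀ S ∈ K, LF S g ∧ ∃ F : Set ℕ, F.Finite ∧ ∀ f : ℕ → ℕ, Function.Injective f → F ⊆ range f →
    Cld S g (range f) → pl S f ∈ K

/-- the countable infinite closed substructures of `S` which contain `F` are in `K` -/
def HerCS [∀ n, IsEmpty (L.Functions n)] (g : Set (L.Relations 2)) (K : Set (L.Structure ℕ))
    (S : L.Structure M) (F : Set M) : Prop :=
  ∀ f : ℕ → M, Function.Injective f → F ⊆ range f → Cld S g (range f) → pl S f ∈ K

/-- There is no family of countable closed substructures of `S` containing `F`, indexed by the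
subsets of `ℕ`, which is decoded at a countable level over finitely many constants. -/
def PigC (S : L.Structure M) (g : Set (L.Relations 2)) (F : Set M) : Prop :=
  ∀ (X : (ℕ → Bool) → Set M) (G : Set M) (γ : Ordinal.{0}), G.Finite → F ⊆ G → γ < om1 →
    (∀ f, (X f).Countable ∧ (X f).Infinite ∧ G ⊆ X f ∧ Cld S g (X f)) →
    ∃ f f', f ≠ f' ∧ BFR S S (X f) (X f') γ (dg G)

/-- the elements below an element of height greater than `n` -/
def Hv (S : L.Structure M) (g : Set (L.Relations 2)) (n : ℕ) : Set M :=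
  {x | ∃ y, Ge S g y x ∧ n < ht S g y}

/-- the elements below elements of arbitrary height -/
def Cc (S : L.Structure M) (g : Set (L.Relations 2)) : Set M := {x | ∀ n, x ∈ Hv S g n}

/-- no infinite antichain with increasing heights -/
def NoAnt (S : L.Structure M) (g : Set (L.Relations 2)) : Prop :=
  ¬ ∃ y : ℕ → M, (∀ m n, m ≠ n → ¬ Ge S g (y m) (y n)) ∧ StrictMono fun n => ht S g (y n)

/-- comparable elements of `X \ A` -/
def Adj (S : L.Structure M) (g : Set (L.Relations 2)) (X A : Set M) (x y : M) : Prop :=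
  x ∈ X \ A ∧ y ∈ X \ A ∧ (Ge S g x y ∨ Ge S g y x)

/-- connected by comparable elements of `X \ A` -/
def Cn (S : L.Structure M) (g : Set (L.Relations 2)) (X A : Set M) (x y : M) : Prop :=
  Relation.ReflTransGen (Adj S g X A) x y

/-- the component of `x` in `X \ A` -/
def bk (S : L.Structure M) (g : Set (L.Relations 2)) (X A : Set M) (x : M) : Set M :=
  {y | Cn S g X A x y}

/-- the finite sizes of the components of `X \ A` -/
def Sz (S : L.Structure M) (g : Set (L.Relations 2)) (X A : Set M) : Set ℕ :=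
  {n | ∃ x ∈ X \ A, (bk S g X A x).encard = (n : ℕ∞)}

/-- the set `A` is visible of level `κ` over `G` in the closed sets which contain it -/
def Vis (S : L.Structure M) (g : Set (L.Relations 2)) (A G : Set M) (κ : Ordinal.{0}) : Prop :=
  ∀ X X' : Set M, Cld S g X → Cld S g X' → A ⊆ X → A ⊆ X' → ∀ x ∈ X, ∀ x' ∈ X',
    BFR S S X X' κ (insert (x, x') (dg G)) → (x ∈ A ↔ x' ∈ A)

/-! ## Quotients: `lab x = inr k` if `x` is in the countable part, on level `k`, and
`lab x = inl b` if `x` is in the block `b`. -/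

section quot

variable {Q Q' Q'' : Type} {M' M'' M0 : Type}

/-- the set of labels given by a relation between blocks and the levels below `n` -/
def rho (n : ℕ) (p : Set (Q × Q')) : Set ((Q ⊕ ℕ) × (Q' ⊕ ℕ)) :=
  (fun b => (Sum.inl b.1, Sum.inl b.2)) '' p ∪ (fun k => (Sum.inr k, Sum.inr k)) '' {k : ℕ | k < n}

/-- `p` relates the elements with the labels `r.1` and the elements with the labels `r.2` for all
`r ∈ ρ` -/
structure Lft {I I' : Type} (lab : M → I) (lab' : M' → I') (ρ : Set (I × I'))
    (p : Set (M × M')) : Prop where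
  mem : ∀ a ∈ p, (lab a.1, lab' a.2) ∈ ρ
  fwd : ∀ r ∈ ρ, ∀ x, lab x = r.1 → ∃ y, lab' y = r.2 ∧ (x, y) ∈ p
  bwd : ∀ r ∈ ρ, ∀ y, lab' y = r.2 → ∃ x, lab x = r.1 ∧ (x, y) ∈ p

/-- The tuples of blocks `b` and `b'` are similar: all finite parts of the countable part and the
blocks can be related. -/
def Sim (S : L.Structure M) (lab : M → Q ⊕ ℕ) (S' : L.Structure M') (lab' : M' → Q' ⊕ ℕ) {n : ℕ}
    (b : Fin n → Q) (b' : Fin n → Q') : Prop :=
  ∀ k : ℕ, ∃ p, AtEq S S' p ∧ Lft lab lab' (rho k (prs b b')) p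

/-- the language of the quotients: the relation symbols are the tuples of `Q` -/
def LQ (Q : Type) : FirstOrder.Language.{0, 0} := ⟨fun _ => Empty, fun n => Fin n → Q⟩

instance (Q : Type) (n : ℕ) : IsEmpty ((LQ Q).Functions n) := inferInstanceAs (IsEmpty Empty)

set_option warn.classDefReducibility false in
/-- The quotient of the structure `S` by `lab`: the symbol `r` (a tuple of the base) holds for the
tuples which are similar to `r`. -/
def QS (S0 : L.Structure M0) (lab0 : M0 → Q ⊕ ℕ) (S : L.Structure M) (lab : M → Q' ⊕ ℕ) :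
    (LQ Q).Structure Q' where
  funMap := fun {n} f => (isEmptyElim f : (Fin n → Q') → Q')
  RelMap := fun {n} (r : Fin n → Q) (b : Fin n → Q') => Sim S0 lab0 S lab r b

/-- the countable part and the blocks in `U` -/
def Xs (lab : M → Q ⊕ ℕ) (U : Set Q) : Set M := {x | ∀ b, lab x = Sum.inl b → b ∈ U}

/-- the labels are respected -/
def LR (lab : M → Q ⊕ ℕ) (lab' : M' → Q' ⊕ ℕ) (p : Set (M × M')) : Prop :=
  (∀ a ∈ p, ∀ k, lab a.1 = Sum.inr k ↔ lab' a.2 = Sum.inr k) ∧
    ∀ a ∈ p, ∀ a' ∈ p, (lab a.1 = lab a'.1 ↔ lab' a.2 = lab' a'.2)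

/-- the labels are visible of level `γ` over the pairs in `c` -/
def VL (S : L.Structure M) (S' : L.Structure M') (lab : M → Q ⊕ ℕ) (lab' : M' → Q' ⊕ ℕ)
    (c : Set (M × M')) (γ : Ordinal.{0}) (X : Set M) (X' : Set M') : Prop :=
  ∀ p : Set (M × M'), c ⊆ p → (∀ a ∈ p, a.1 ∈ X ∧ a.2 ∈ X') → BFR S S' X X' γ p → LR lab lab' p

/-- the labels are finite-to-one and every block is not empty -/
structure Fib (lab : M → Q ⊕ ℕ) : Prop where
  fin : ∀ l, {x | lab x = l}.Finite
  ne : ∀ b : Q, ∃ x, lab x = Sum.inl b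

/-- covers: the structure `T` with constants `f` and labels `lab` -/
structure Cov (T : L.Structure N) (g : Set (L.Relations 2)) {m : ℕ} (f : Fin m → N)
    (lab : N → Q ⊕ ℕ) (γ : Ordinal.{0}) : Prop where
  fib : Fib lab
  cld : ∀ U : Set Q, Cld T g (Xs lab U)
  cst : ∀ i, ∃ k, lab (f i) = Sum.inr k
  vis : ∀ U V : Set Q, VL T T lab lab (prs f f) γ (Xs lab U) (Xs lab V)

end quot

/-! ## Automorphisms of the countable part -/

/-- `σ` is an automorphism of `A` which fixes the elements of `F1` -/
def Aut1 (S : L.Structure M) (A F1 : Set M) (σ : Equiv.Perm A) : Prop :=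
  (∀ (n : ℕ) (R : L.Relations n) (v : Fin n → A),
    S.RelMap R (fun i => (v i : M)) ↔ S.RelMap R (fun i => (σ (v i) : M))) ∧
    ∀ x : A, (x : M) ∈ F1 → σ x = x

/-! ## The labels -/

/-- the countable part given by the number `n` and the constants `f` -/
def AA (S : L.Structure M) (g : Set (L.Relations 2)) (n : ℕ) {m : ℕ} (f : Fin m → M) : Set M :=
  Hv S g n ∪ range f

/-- the blocks -/
def QB (S : L.Structure M) (g : Set (L.Relations 2)) (A : Set M) : Type :=
  {B : Set M // ∃ x ∉ A, B = bk S g univ A x}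

open Classical in
/-- the labels -/
noncomputable def lb (S : L.Structure M) (g : Set (L.Relations 2)) (A : Set M) (ν : M → ℕ)
    (x : M) : QB S g A ⊕ ℕ :=
  if h : x ∈ A then Sum.inr (ν x) else Sum.inl ⟨bk S g univ A x, x, h, rfl⟩

/-- the properties of the labelled structure `T` -/
structure LDat (T : L.Structure N) (g : Set (L.Relations 2)) (n : ℕ) {m : ℕ} (f : Fin m → N)
    (ν : N → ℕ) (κ : Ordinal.{0}) : Prop where
  lf : LF T g
  cld : Cld T g (range f)
  nuf : ∀ k, {x | x ∈ AA T g n f ∧ ν x = k}.Finite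
  bkf : ∀ x ∉ AA T g n f, (bk T g univ (AA T g n f) x).Finite
  inv : ∀ x ∈ AA T g n f, ∀ x' ∈ AA T g n f,
    BFR T T (AA T g n f) (AA T g n f) κ (insert (x, x') (prs f f)) → ν x = ν x'

end HEC
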