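import Pool.Agent.HEC.StP

/-!
# HEC [HFC]: the large structure is locally finite, its closed substructures are in the class
-/

set_option autoImplicit false

namespace HEC

open Set Pool.Agent.Helper5.DU Pool.Agent.Helper6.Str Pool.Agent.Helper79.VC
  Pool.Agent.Helper97.LO Pool.Agent.Helper97.VC HER HERN

private theorem HFC_ge {L : FirstOrder.Language.{0, 0}} {M N : Type} {S : L.Structure M}
    {T : L.Structure N} {g : Set (L.Relations 2)} {y x : M} (h : Ge S g y x) :
    ∃ n : ℕ, ∀ (q : Set (M × N)) (y' x' : N), (y, y') ∈ q → (x, x') ∈ q →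
      BFR S T univ univ (n : Ordinal.{0}) q → Ge T g y' x' := by
  induction h using Relation.ReflTransGen.head_induction_on with
  | refl =>
    refine ⟨0, fun q y' x' h1 h2 h3 => ?_⟩
    have : y' = x' := (h3.atEq.1 _ h1 _ h2).mp rfl
    subst this
    exact Relation.ReflTransGen.refl
  | head h' h ih =>
    rename_i y z
    obtain ⟨R, hR, hs⟩ := h'
    obtain ⟨n, hn⟩ := ih
    refine ⟨n + 1, fun q y' x' h1 h2 h3 => ?_⟩
    obtain ⟨z', -, h4⟩ := h3.forth (β := (n : Ordinal.{0}))
      (by exact_mod_cast Nat.lt_succ_self n) (mem_univ z)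
    have h5 := hn _ z' x' (mem_insert _ _) (mem_insert_of_mem _ h2) h4
    have h6 : Stp T g y' z' := by
      refine ⟨R, hR, ?_⟩
      have h7 := (h4.atEq.2 2 R ![(y, y'), (z, z')] (by
        intro i
        fin_cases i
        · exact mem_insert_of_mem _ h1
        · exact mem_insert _ _)).mp
      have e1 : (fun i => ((![(y, y'), (z, z')] : Fin 2 → M × N) i).1) = ![y, z] := by
        funext i
        fin_cases i <;> rfl
      have e2 : (fun i => ((![(y, y'), (z, z')] : Fin 2 → M × N) i).2) = ![y', z'] := by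
        funext i
        fin_cases i <;> rfl
      rw [e1, e2] at h7
      exact h7 hs
    exact Relation.ReflTransGen.head h6 h5

private theorem HFC_lf {L : FirstOrder.Language.{0, 0}} [∀ n, IsEmpty (L.Functions n)]
    {g : Set (L.Relations 2)} {K : Set (L.Structure ℕ)} {M : Type}
    {S : L.Structure M} (hV : Lev K S) (hK : HerC g K) : LF S g := by
  classical
  intro a
  by_contra hinf
  obtain ⟨S', hS', h0⟩ := hV (Ordinal.omega0 + Ordinal.omega0 + 1)
    (add_one_lt_om1 (add_lt_om1 omega_lt_om1 omega_lt_om1))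
  obtain ⟨a', -, h1⟩ := h0.forth (β := Ordinal.omega0 + Ordinal.omega0)
    (Order.lt_add_one_iff.mpr le_rfl) (mem_univ a)
  have hf : (dn S' g a').Finite := (hK S' hS').1 a'
  let k := (dn S' g a').ncard
  have hinf' : (dn S g a).Infinite := hinf
  let e := hinf'.natEmbedding
  have h2 : BFR S S' univ univ (Ordinal.omega0 + ((k + 1 : ℕ) : Ordinal.{0}))
      (insert (a, a') ∅) :=
    h1.mono (by gcongr; exact (Ordinal.natCast_lt_omega0 _).le)
  obtain ⟨x', -, h3⟩ := h2.forth_many (k + 1) (fun i : Fin (k + 1) => ((e i : dn S g a) : M))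
    (fun i => mem_univ _)
  have hinj : Function.Injective x' := by
    intro i j hij
    have := (h3.atEq.1 _ (Or.inr ⟨i, rfl⟩) _ (Or.inr ⟨j, rfl⟩)).mpr hij
    have h4 : ((e i : dn S g a) : M) = ((e j : dn S g a) : M) := this
    exact Fin.ext (e.injective (Subtype.ext h4))
  have hsub : range x' ⊆ dn S' g a' := by
    rintro _ ⟨i, rfl⟩
    obtain ⟨n, hn⟩ := HFC_ge (N := ℕ) (T := S') (e i : dn S g a).2
    exact hn _ a' (x' i) (Or.inl (mem_insert _ _)) (Or.inr ⟨i, rfl⟩)
      (h3.mono (Ordinal.natCast_lt_omega0 _).le)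
  have h5 := ncard_le_ncard hsub hf
  rw [← image_univ, ncard_image_of_injective _ hinj, ncard_univ, Nat.card_fin] at h5
  exact absurd h5 (by simp [k])

theorem thm_HFC : St_HFC := by
  classical
  intro L _ _ gg K δ M S hV hK
  refine ⟨HFC_lf hV.lev hK, ?_⟩
  by_contra hcon
  have h1 : ∀ F : Finset M, ∃ g : ℕ → M, Function.Injective g ∧ (F : Set M) ⊆ range g ∧
      Cld S gg (range g) ∧ pl S g ∉ K := by
    intro F
    by_contra h
    push Not at h
    exact hcon ⟨F, F.finite_toSet, fun g hg hF hc => h g hg hF hc⟩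
  choose g hg1 hg2 hgc hg3 using h1
  have hκ : ∀ F : Finset M, ∃ T : Set M, T.Countable ∧ ∀ c : M, ∃ c' ∈ T,
      BFR S S univ univ δ (insert (c, c') ((fun a => (a, a)) '' (F : Set M))) := by
    intro F
    obtain ⟨κ, hκ⟩ := countable_classes hV.scat hV.lt hV.lev F
    have hrep : ∀ (m : ℕ), ∃ T : Set M, T.Countable ∧
        ((∃ c, κ c = m) → ∃ c ∈ T, κ c = m) := by
      intro m
      by_cases h : ∃ c, κ c = m
      · obtain ⟨c, hc⟩ := h
        exact ⟨{c}, countable_singleton _, fun _ => ⟨c, rfl, hc⟩⟩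
      · exact ⟨∅, countable_empty, fun h' => absurd h' h⟩
    choose T hT1 hT2 using hrep
    refine ⟨⋃ m, T m, countable_iUnion hT1, fun c => ?_⟩
    obtain ⟨c', hc', hcc⟩ := hT2 (κ c) ⟨c, rfl⟩
    exact ⟨c', mem_iUnion.mpr ⟨κ c, hc'⟩, hκ c c' hcc.symm⟩
  choose T hT1 hT2 using hκ
  obtain ⟨B, hBc, hB⟩ := exists_closed (fun F => T F ∪ range (g F))
    (fun F => (hT1 F).union (countable_range _))
  have hBd : ∀ F : Finset M, (F : Set M) ⊆ B → ∀ c : M, ∃ c' ∈ B,
      BFR S S univ univ δ (insert (c, c') ((fun a => (a, a)) '' (F : Set M))) := by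
    intro F hF c
    obtain ⟨c', hc', h⟩ := hT2 F c
    exact ⟨c', hB F hF (Or.inl hc'), h⟩
  have hinf : Infinite M := infinite_of_lev hV.lev
  obtain ⟨f, hf, hfB⟩ := exists_enum hBc (fun F hF c => by
    obtain ⟨c', hc', h⟩ := hBd F hF c
    exact ⟨c', hc', h.mono (bot_le)⟩)
  have hSB : BFR S (pl S f) univ univ δ ∅ := by
    have h4 : BFR S S univ B δ ∅ := closed_rel hBd δ le_rfl ∅ finite_empty
      (fun a ha => absurd ha (notMem_empty a))
      (BFR.refl S univ δ fun a ha => absurd ha (notMem_empty a))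
    rw [← hfB] at h4
    exact BFR_pl' hf h4 fun a ha => absurd ha (notMem_empty a)
  obtain ⟨S1, hS1, h5⟩ := hV.lev δ hV.lt
  have hfK : pl S f ∈ K := hV.clos S1 hS1 _ (by
    refine BFR.trans (h5.symm (q := ∅) fun a ha => absurd ha (notMem_empty a)) hSB ?_
    exact fun a ha => absurd ha (notMem_empty a))
  obtain ⟨F', hF', hF'K⟩ := (hK _ hfK).2
  have hFB : ((hF'.toFinset.image f : Finset M) : Set M) ⊆ B := by
    rw [← hfB, Finset.coe_image]
    exact image_subset_range f _
  have hr : range (g (hF'.toFinset.image f)) ⊆ B := fun x hx => hB _ hFB (Or.inr hx)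
  have hch : ∀ n, ∃ m, f m = g (hF'.toFinset.image f) n := by
    intro n
    have := hr (mem_range_self n)
    rwa [← hfB] at this
  choose h hh using hch
  have hinj : Function.Injective h := by
    intro a b hab
    apply hg1 (hF'.toFinset.image f)
    rw [← hh, ← hh, hab]
  have hsub : F' ⊆ range h := by
    intro x hx
    have : f x ∈ ((hF'.toFinset.image f : Finset M) : Set M) := by
      rw [Finset.coe_image, hF'.coe_toFinset]
      exact mem_image_of_mem f hx
    obtain ⟨n, hn⟩ := hg2 _ this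
    refine ⟨n, hf ?_⟩
    rw [hh, hn]
  have hcl : Cld (pl S f) gg (range h) := by
    rintro _ ⟨n, rfl⟩ b ⟨R, hR, hs⟩
    have h6 : Stp S gg (f (h n)) (f b) := by
      refine ⟨R, hR, ?_⟩
      have h7 : S.RelMap R (fun i => f ((![h n, b] : Fin 2 → ℕ) i)) := hs
      have e1 : (fun i => f ((![h n, b] : Fin 2 → ℕ) i)) = ![f (h n), f b] := by
        funext i
        fin_cases i <;> rfl
      rwa [e1] at h7
    have h8 : f b ∈ range (g (hF'.toFinset.image f)) :=
      hgc _ (f (h n)) ⟨n, (hh n).symm⟩ (f b) h6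
    obtain ⟨m, hm⟩ := h8
    exact ⟨m, hf (by rw [hh, hm])⟩
  have hfin := hF'K h hinj hsub hcl
  apply hg3 (hF'.toFinset.image f)
  have he : g (hF'.toFinset.image f) = fun n => f (h n) := funext fun n => (hh n).symm
  rw [he]
  exact hfin

end HEC
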