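import Pool.Agent.HEC.StP
import Mathlib.GroupTheory.CosetCover
import Mathlib.GroupTheory.GroupAction.Quotient

/-!
# HEC, module NPM: P. M. Neumann's separation lemma (helper55)
-/

set_option autoImplicit false

namespace HEC

open Set
open scoped Pointwise

theorem thm_NPM : St_NPM := by
  intro G _ α _ B B' hB hB' hinf
  classical
  by_contra hcon
  push Not at hcon
  have hfin : (B ×ˢ B').Finite := hB.prod hB'
  set I : Finset (α × α) := hfin.toFinset.filter (fun p => ∃ h : G, h • p.1 = p.2) with hI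
  choose! hh hhs using fun (p : α × α) (hp : ∃ h : G, h • p.1 = p.2) => hp
  have hcov : ⋃ p ∈ I, hh p • ((MulAction.stabilizer G p.1 : Subgroup G) : Set G) = Set.univ := by
    rw [Set.eq_univ_iff_forall]
    intro h
    obtain ⟨b, hb, hbc⟩ := hcon h
    have hex : ∃ k : G, k • (b, h • b).1 = (b, h • b).2 := ⟨h, rfl⟩
    have hs := hhs _ hex
    rw [Set.mem_iUnion₂]
    refine ⟨(b, h • b), ?_, ?_⟩
    · rw [hI, Finset.mem_filter, Set.Finite.mem_toFinset]
      exact ⟨⟨hb, hbc⟩, hex⟩
    · rw [mem_leftCoset_iff, SetLike.mem_coe, MulAction.mem_stabilizer_iff]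
      show ((hh (b, h • b))⁻¹ * h) • b = b
      rw [mul_smul, inv_smul_eq_iff]
      exact hs.symm
  obtain ⟨p, hp, hpf⟩ := Subgroup.exists_finiteIndex_of_leftCoset_cover hcov
  rw [hI, Finset.mem_filter, Set.Finite.mem_toFinset] at hp
  have h1 : Finite (G ⧸ MulAction.stabilizer G p.1) := inferInstance
  have h2 : Finite (MulAction.orbit G p.1) :=
    Finite.of_equiv _ (MulAction.orbitEquivQuotientStabilizer G p.1).symm
  exact hinf p.1 hp.1.1 (Set.toFinite _)

end HEC
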