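import Pool.Agent.HEC.StP

/-!
# HEC, statements Q: quotients

Every module proves `thm_XXX : St_XXX` in `Pool/Agent/HEC/XXX.lean` (imports: this file, Mathlib
files and the files named in the docstring); statements used are taken as hypotheses.
Labels: `lab x = Sum.inl b` (`x` is in the block `b`) or `lab x = Sum.inr k` (`x` is in the
countable part, on level `k`). `Xs lab U`: the countable part and the blocks in `U`.
-/

set_option autoImplicit false
set_option linter.unusedVariables false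

namespace HEC

open Set Pool.Agent.Helper5.DU Pool.Agent.Helper6.Str Pool.Agent.Helper79.VC
  Pool.Agent.Helper97.LO Pool.Agent.Helper97.VC HER HERN

/-! ## Similar tuples of blocks -/

/-- [LFA] (0.2 h; no other module) Restriction of lifts.

Proof. `mem`: by definition. `fwd`: for `r ∈ ρ` and `lab x = r.1` take `y` from `h.fwd r (hρ hr)`;
`(lab x, lab' y) = (r.1, r.2) = r ∈ ρ`. `bwd` is similar. -/
def St_LFA : Prop := ∀ (I I' M M' : Type) (lab : M → I) (lab' : M' → I') (ρ ρ' : Set (I × I'))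
  (p : Set (M × M')), Lft lab lab' ρ' p → ρ ⊆ ρ' →
  Lft lab lab' ρ {a | a ∈ p ∧ (lab a.1, lab' a.2) ∈ ρ}

/-- [SIM] (0.6 h; uses `St_LFA`) Similarity of tuples of blocks is an equivalence relation.

Proof. Reflexivity: for `k` take `p := {a | a.1 = a.2 ∧ ∃ l, lab a.1 = l ∧ (l, l) ∈ rho k (prs b b)}`;
all members of `rho k (prs b b)` are of the form `(l, l)`; `AtEq S S p` as `a.1 = a.2` for `a ∈ p`.
Symmetry: `Prod.swap ⁻¹' p` (`AtEq` is symmetric; `rho k (prs b' b)` is the set of the exchanged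
members of `rho k (prs b b')`). Transitivity: given `p` for `b`, `b'` and `p'` for `b'`, `b''` and
`k`, the composition `q := {a | ∃ y, (a.1, y) ∈ p ∧ (y, a.2) ∈ p'}` satisfies `AtEq S S'' q` (as in
`BF.trans` / `AtEq.comp'`), and
`Lft lab lab'' {r | ∃ l, (r.1, l) ∈ rho k (prs b b') ∧ (l, r.2) ∈ rho k (prs b' b'')} q`:
`mem`: take `l = lab' y`; `fwd`: `lab x = r.1`, take `y` with `lab' y = l`, `(x, y) ∈ p`, then `z`
with `lab'' z = r.2`, `(y, z) ∈ p'`; `bwd` is similar. `rho k (prs b b'')` is contained in this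
set (for `(inl (b i), inl (b'' i))` take `l = inl (b' i)`), so restrict by `St_LFA`
(`AtEq.anti` for the restricted set). -/
def St_SIM : Prop :=
  (∀ (L : FirstOrder.Language.{0, 0}) (M Q : Type) (S : L.Structure M) (lab : M → Q ⊕ ℕ) (n : ℕ)
    (b : Fin n → Q), Sim S lab S lab b b) ∧
  (∀ (L : FirstOrder.Language.{0, 0}) (M M' Q Q' : Type) (S : L.Structure M) (lab : M → Q ⊕ ℕ)
    (S' : L.Structure M') (lab' : M' → Q' ⊕ ℕ) (n : ℕ) (b : Fin n → Q) (b' : Fin n → Q'),
    Sim S lab S' lab' b b' → Sim S' lab' S lab b' b) ∧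
  ∀ (L : FirstOrder.Language.{0, 0}) (M M' M'' Q Q' Q'' : Type) (S : L.Structure M)
    (lab : M → Q ⊕ ℕ) (S' : L.Structure M') (lab' : M' → Q' ⊕ ℕ) (S'' : L.Structure M'')
    (lab'' : M'' → Q'' ⊕ ℕ) (n : ℕ) (b : Fin n → Q) (b' : Fin n → Q') (b'' : Fin n → Q''),
    Sim S lab S' lab' b b' → Sim S' lab' S'' lab'' b' b'' → Sim S lab S'' lab'' b b''

/-- [QAA] (0.3 h; uses `St_SIM`) Atomic equivalence of tuples of blocks gives lifts.

Proof. Enumerate the finite set `pq`: `pq = range fun i : Fin n => (b i, b' i) = prs b b'`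
(`hpq.toFinset.equivFin`, or `Set.Finite.fin_param`). In `QS S lab S lab` the relation
with the symbol `b : (LQ Q).Relations n` holds for the tuple `b`: this is `Sim S lab S lab b b`
(`St_SIM`). By `AtEq` (second part, for `v i = (b i, b' i)`) it holds in `QS S lab S' lab'` for
`b'`: this is `Sim S lab S' lab' b b'`, which is the claim. -/
def St_QAA : Prop := ∀ (L : FirstOrder.Language.{0, 0}) (M M' Q Q' : Type) (S : L.Structure M)
  (lab : M → Q ⊕ ℕ) (S' : L.Structure M') (lab' : M' → Q' ⊕ ℕ) (pq : Set (Q × Q')), pq.Finite →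
  AtEq (QS S lab S lab) (QS S lab S' lab') pq →
  ∀ k : ℕ, ∃ p, AtEq S S' p ∧ Lft lab lab' (rho k pq) p

/-- [QBB] (0.5 h; uses `St_SIM`, `St_LFA`) Lifts give atomic equivalence of tuples of blocks.

Proof. Equalities: let `r, s ∈ pq`, take `p` for `k = 0`. If `r.1 = s.1`: let `x` with
`lab x = inl r.1` (`Fib.ne`); `fwd` gives `y` with `lab' y = inl r.2`, `(x, y) ∈ p` and `y'` with
`lab' y' = inl s.2`, `(x, y') ∈ p`; `y = y'` by `AtEq`, so `r.2 = s.2`. The other direction with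
`bwd` and `Fib.ne` of `lab'`. Relations: for a symbol `r : Fin n → Q0` and `v : Fin n → Q × Q'`
with values in `pq`, `b i := (v i).1`, `b' i := (v i).2`: `Sim S lab S' lab' b b'`, because
`prs b b' ⊆ pq`, so `rho k (prs b b') ⊆ rho k pq`, and `St_LFA` applies. So
`Sim S0 lab0 S lab r b ↔ Sim S0 lab0 S' lab' r b'` by transitivity and symmetry (`St_SIM`); this
is the claim by the definition of `QS`. -/
def St_QBB : Prop := ∀ (L : FirstOrder.Language.{0, 0}) (M0 M M' Q0 Q Q' : Type)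
  (S0 : L.Structure M0) (lab0 : M0 → Q0 ⊕ ℕ) (S : L.Structure M) (lab : M → Q ⊕ ℕ)
  (S' : L.Structure M') (lab' : M' → Q' ⊕ ℕ) (pq : Set (Q × Q')), Fib lab → Fib lab' →
  (∀ k : ℕ, ∃ p, AtEq S S' p ∧ Lft lab lab' (rho k pq) p) →
  AtEq (QS S0 lab0 S lab) (QS S0 lab0 S' lab') pq

/-- [MVS] (0.4 h; no other module) Finitely many moves in both directions.

Proof. Let `n = D.ncard`, `m = E.ncard`, `γ + m + n ≤ γ + ω`. Enumerate `D` by
`x : Fin n → M` (surjective onto `D`), `BFR.forth_many` gives `y`, with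
`BFR S T U V (γ + m) (p ∪ range fun i => (x i, y i))`; enumerate `E` by `y' : Fin m → N`,
`BFR.back_many` gives `x'`. Let `q := range (fun i => (x i, y i)) ∪ range fun i => (x' i, y' i)`. -/
def St_MVS : Prop := ∀ (L : FirstOrder.Language.{0, 0}) (M N : Type) (S : L.Structure M)
  (T : L.Structure N) (U : Set M) (V : Set N) (γ γ' : Ordinal.{0}) (p : Set (M × N)) (D : Set M)
  (E : Set N), D.Finite → E.Finite → D ⊆ U → E ⊆ V → γ + Ordinal.omega0 ≤ γ' →
  BFR S T U V γ' p → ∃ q : Set (M × N), q.Finite ∧ (∀ a ∈ q, a.1 ∈ U ∧ a.2 ∈ V) ∧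
    (∀ x ∈ D, ∃ y, (x, y) ∈ q) ∧ (∀ y ∈ E, ∃ x, (x, y) ∈ q) ∧ BFR S T U V γ (p ∪ q)

/-- [BQQ] (0.8 h; uses `St_QBB`, `St_MVS`) Equivalence of pieces gives equivalence of the
quotients.

Proof. Induction on `γ` (`WellFoundedLT.induction`), for all `p`, `pq`. Rewrite the goal with
`BFR.def`.
Atomic part, by `St_QBB`: let `k : ℕ`. Let `D := {x | lab x ∈ Prod.fst '' rho k pq}`,
`E := {y | lab' y ∈ Prod.snd '' rho k pq}`; they are finite (`Set.Finite.preimage`-like: a finite
union of fibers, `Fib.fin`; `rho k pq` is finite) and contained in `Xs lab U`, `Xs lab' V` (if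
`lab x = inl b` and `b = r.1`, `r ∈ pq`, then some `a ∈ p` has `lab a.1 = inl r.1`, and
`a.1 ∈ Xs lab U`, so `b ∈ U`). `St_MVS` for `γ0` and the level `γ0 + ω + γ` gives `q` with
`BFR S S' (Xs lab U) (Xs lab' V) γ0 (p ∪ q)`. By `VL` `LR lab lab' (p ∪ q)`. Let
`p' := {a | a ∈ p ∪ q ∧ (lab a.1, lab' a.2) ∈ rho k pq}`; `AtEq S S' p'` (`BFR.atEq`,
`AtEq.anti`). `Lft lab lab' (rho k pq) p'`: `fwd`: let `r ∈ rho k pq`, `lab x = r.1`; `x ∈ D`, so
`(x, y) ∈ q` for some `y`. If `r = (inr j, inr j)`: `lab' y = inr j` by `LR.1`. If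
`r = (inl s.1, inl s.2)`, `s ∈ pq`: there is `a ∈ p` with `lab a.1 = inl s.1 = lab x`,
`lab' a.2 = inl s.2`; by `LR.2` `lab' y = lab' a.2`. So `lab' y = r.2` and `(x, y) ∈ p'`. `bwd` is
similar.
Moves: let `β < γ`, `b ∈ U`. Take `x` with `lab x = inl b` (`Fib.ne`); `x ∈ Xs lab U`.
`BFR.forth` (`γ0 + ω + β < γ0 + ω + γ`) gives `y ∈ Xs lab' V` with
`BFR .. (γ0 + ω + β) (insert (x, y) p)`. By `VL` (lower the level to `γ0`) `LR`, so `lab' y` is
not of the form `inr k` (otherwise `lab x = inr k`): `lab' y = inl b'`, and `b' ∈ V`. Apply the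
induction hypothesis to `insert (x, y) p` and `insert (b, b') pq`. The other direction is
similar. -/
def St_BQQ : Prop := ∀ (L : FirstOrder.Language.{0, 0}) (M0 M M' Q0 Q Q' : Type)
  (S0 : L.Structure M0) (lab0 : M0 → Q0 ⊕ ℕ) (S : L.Structure M) (lab : M → Q ⊕ ℕ)
  (S' : L.Structure M') (lab' : M' → Q' ⊕ ℕ) (c : Set (M × M')) (γ0 : Ordinal.{0}) (U : Set Q)
  (V : Set Q'), Fib lab → Fib lab' → VL S S' lab lab' c γ0 (Xs lab U) (Xs lab' V) →
  ∀ (γ : Ordinal.{0}) (p : Set (M × M')) (pq : Set (Q × Q')), pq.Finite → c ⊆ p →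
  (∀ a ∈ p, a.1 ∈ Xs lab U ∧ a.2 ∈ Xs lab' V) →
  (∀ r ∈ pq, ∃ a ∈ p, lab a.1 = Sum.inl r.1 ∧ lab' a.2 = Sum.inl r.2) →
  BFR S S' (Xs lab U) (Xs lab' V) (γ0 + Ordinal.omega0 + γ) p →
  BFR (QS S0 lab0 S lab) (QS S0 lab0 S' lab') U V γ pq

/-- [LFF] (0.3 h; no other module) There are finitely many lifts.

Proof. Every such `p` is a subset of the finite set
`{x | lab x ∈ Prod.fst '' ρ} ×ˢ {y | lab' y ∈ Prod.snd '' ρ}` (by `Lft.mem`); both factors are
finite unions of finite fibers (`Set.Finite.biUnion`); `Set.Finite.finite_subsets` (or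
`Set.Finite.powerset`). -/
def St_LFF : Prop := ∀ (I I' M M' : Type) (lab : M → I) (lab' : M' → I') (ρ : Set (I × I')),
  (∀ l, {x | lab x = l}.Finite) → (∀ l, {x | lab' x = l}.Finite) → ρ.Finite →
  {p | Lft lab lab' ρ p}.Finite

/-- [LFT] (1 h; uses `St_LFA`, `St_QAA`, `St_MVS`, `St_LFF`) Equivalence of the quotients gives
equivalence of the pieces.

Proof. Induction on `γ` for all `pq` and `k`. Write `SQ := QS S lab S lab`. Suppose that no lift
`p` (`Lft lab lab (rho k pq) p`) satisfies `BFR S S (Xs lab U) (Xs lab V) γ p`. The set `Λ` of the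
lifts `p` with `AtEq S S p` is finite (`St_LFF`, `Fib.fin`; `rho k pq` is finite). For `p ∈ Λ` the
definition of `BFR` (`BFR.def`) gives `β p < γ` and a bad point: (a) `x ∈ Xs lab U` such that
`¬ BFR .. (β p) (insert (x, y) p)` for all `y ∈ Xs lab V`, or (b) `y ∈ Xs lab V` such that
`¬ BFR .. (β p) (insert (x, y) p)` for all `x ∈ Xs lab U`. `Λ` is not empty by `St_QAA`. Choose
the bad points; let `β < γ` be the maximum of the `β p` for `p ∈ Λ`
(`Set.Finite`/`Finset.exists_max_image`); let `Bx ⊆ Xs lab U`, `By ⊆ Xs lab V` be the finite sets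
of the bad points of kind (a), (b). Let `D := {b | ∃ x ∈ Bx, lab x = inl b}`,
`E := {b | ∃ y ∈ By, lab y = inl b}`: finite, `D ⊆ U`, `E ⊆ V`. `ω * β + ω = ω * (β + 1) ≤ ω * γ`
(`mul_add_one`, `mul_le_mul_left'`), so `St_MVS` for `SQ` gives a finite `q` with
`BFR SQ SQ U V (ω * β) (pq ∪ q)`, `D` contained in the domain and `E` in the range of `q`, and
`q ⊆ U ×ˢ V`. Let `k'` be greater than `k` and than all `j` such that `lab x = inr j` for some
`x ∈ Bx ∪ By`. The induction hypothesis for `β`, `pq ∪ q`, `k'` gives `p'` with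
`Lft lab lab (rho k' (pq ∪ q)) p'` and `BFR S S (Xs lab U) (Xs lab V) β p'`. By `St_LFA`
`p := {a | a ∈ p' ∧ (lab a.1, lab a.2) ∈ rho k pq}` is a lift for `rho k pq`, and `AtEq S S p`, so
`p ∈ Λ`. Case (a), with bad point `x ∈ Bx`: there is `l` with
`(lab x, l) ∈ rho k' (pq ∪ q)` (if `lab x = inr j`: `l = inr j`; if `lab x = inl b`: `b ∈ D`,
`(b, b') ∈ q` for some `b'`, `l = inl b'`), so by `Lft.fwd` there is `y` with `lab y = l`,
`(x, y) ∈ p'`; `y ∈ Xs lab V`, because `b' ∈ V`. As `insert (x, y) p ⊆ p'` and `β p ≤ β`,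
`BFR .. (β p) (insert (x, y) p)`, contradiction. Case (b) is similar. -/
def St_LFT : Prop := ∀ (L : FirstOrder.Language.{0, 0}) (M Q : Type) (S : L.Structure M)
  (lab : M → Q ⊕ ℕ) (U V : Set Q), Fib lab → ∀ (γ : Ordinal.{0}) (pq : Set (Q × Q)), pq.Finite →
  (∀ a ∈ pq, a.1 ∈ U ∧ a.2 ∈ V) →
  BFR (QS S lab S lab) (QS S lab S lab) U V (Ordinal.omega0 * γ) pq →
  ∀ k : ℕ, ∃ p, Lft lab lab (rho k pq) p ∧ BFR S S (Xs lab U) (Xs lab V) γ p

/-- [TMQ] (0.4 h; uses `St_LFT`; import also `Pool.Agent.Helper60.VCM.C2a`) If the quotient is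
tame then the structure is tame.

Proof. `TameX.exists_closed` (in `Helper60/VCM/C2a.lean`, with `A₀ = ∅`) gives a countable
`B ⊆ Q` which is closed for `SQ := QS S lab S lab`; for every `γ < om1`, `Clo SQ univ γ B`
(as in `tameX_of_closed` there), so `Clo.bfr` gives `BFR SQ SQ univ (B ∩ univ) γ (dg ∅)`, that is
`BFR SQ SQ univ B γ ∅`. `Ordinal.omega0 * γ < om1` for `γ < om1`: `lt_om1_iff`,
`Ordinal.card_mul`, `Cardinal.mul_le_aleph0`-like (`Cardinal.mul_le_of_le le_rfl`). `St_LFT` with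
`U = univ`, `V = B`, `pq = ∅`, `k = 0` gives `BFR S S (Xs lab univ) (Xs lab B) γ p` for some `p`,
so (`BFR.anti`) for `∅`. `Xs lab univ = univ`. `Xs lab B` is countable: it is the union of the
finite fibers over the countable set of labels `inl '' B ∪ range inr`. So `TameX S univ` with
`⟨M, S, Xs lab B, ..⟩`. -/
def St_TMQ : Prop := ∀ (L : FirstOrder.Language.{0, 0}) (M Q : Type) (S : L.Structure M)
  (lab : M → Q ⊕ ℕ), Fib lab → TameX (QS S lab S lab) univ → TameX S univ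

/-- [PGQ] (0.6 h; uses `St_BQQ`) Pigeonhole principle for quotients.

Proof. Choose `rep : Q → N` with `lab (rep b) = inl b` (`Fib.ne`). Let
`F' := {b | ∃ x ∈ F, lab x = inl b}`, finite. Given `X : (ℕ → Bool) → Set Q`, `G ⊇ F'` finite,
`β < om1` and countable infinite sets `X f ⊇ G`: let `Y f := Xs lab (X f)`; it is countable
(fibers over the countable set `inl '' X f ∪ range inr` are finite), infinite (`rep` is injective
and maps `X f` to `Y f`), closed (`Cov.cld`) and contains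
`G' := range f0 ∪ F ∪ rep '' G` (`f0` are the constants, `Cov.cst`; for `x ∈ F`: if
`lab x = inl b` then `b ∈ F' ⊆ G ⊆ X f`). `PigC` with `G'` and the level `γ + ω + β`
(`add_lt_om1`) gives `f ≠ f'` with `BFR T T (Y f) (Y f') (γ + ω + β) (dg G')`. `St_BQQ` with
`S := T`, `S' := T`, `c := prs f0 f0 ⊆ dg G'`, `U := X f`, `V := X f'`, `p := dg G'`,
`pq := dg G` (for `(b, b) ∈ dg G` take `a = (rep b, rep b)`) gives the claim. -/
def St_PGQ : Prop := ∀ (L : FirstOrder.Language.{0, 0}) (M0 N Q0 Q : Type) (S0 : L.Structure M0)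
  (lab0 : M0 → Q0 ⊕ ℕ) (T : L.Structure N) (g : Set (L.Relations 2)) (m : ℕ) (f0 : Fin m → N)
  (lab : N → Q ⊕ ℕ) (γ : Ordinal.{0}) (F : Set N), Cov T g f0 lab γ → γ < om1 → F.Finite →
  PigC T g F → ∃ F' : Set Q, F'.Finite ∧ Pig (QS S0 lab0 T lab) F'

/-! ## The labels of large structures and of members of the class -/

/-- [BKX] (0.4 h; no other module) Pieces which are unions of blocks.

Proof. (1) Closed: let `a ∈ X := Xs (lb S g A ν) U`, `Stp S g a b`. If `b ∈ A`: `lb .. b = inr _`,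
so `b ∈ X`. If `b ∉ A`: then `a ∉ A` (`A` is closed), and `Adj S g univ A a b` and
`Adj S g univ A b a`, so `bk S g univ A a = bk S g univ A b` (`Cn` is an equivalence relation on
the complement of `A`, as `Adj` is symmetric: `Relation.ReflTransGen.symmetric`). So
`lb .. a = lb .. b` and `b ∈ X`.
(2) `⊇`/`→`: let `x ∈ X \ A`, `Cn S g univ A x y`: by induction along the path all its elements
are in `X \ A` (they have the same block as `x`), so `Cn S g X A x y`; the other direction by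
`Relation.ReflTransGen.mono`.
(3) for `x, y ∉ A`: `lb .. x = lb .. y` iff `bk S g univ A x = bk S g univ A y` (`Sum.inl.injEq`,
`Subtype.mk.injEq` after `unfold lb`, `dif_neg`) iff `Cn S g univ A x y` (`y ∈ bk .. y`).
(4) `A ⊆ X` as `lb .. a = inr _` for `a ∈ A`. -/
def St_BKX : Prop := ∀ (L : FirstOrder.Language.{0, 0}) (M : Type) (S : L.Structure M)
  (g : Set (L.Relations 2)) (A : Set M) (ν : M → ℕ) (U : Set (QB S g A)), Cld S g A →
  Cld S g (Xs (lb S g A ν) U) ∧
  (∀ x ∈ Xs (lb S g A ν) U, x ∉ A → ∀ y, (Cn S g univ A x y ↔ Cn S g (Xs (lb S g A ν) U) A x y)) ∧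
  (∀ x ∉ A, ∀ y ∉ A, (lb S g A ν x = lb S g A ν y ↔ Cn S g univ A x y)) ∧
  A ⊆ Xs (lb S g A ν) U

/-- [VSP] (0.8 h; uses `St_VSA`, `St_VSC`, `St_BKX`) The labels are visible.

Proof. Write `A := AA S g n f`, `A' := AA T g n f'`, `X := Xs (lb S g A ν) U`,
`X' := Xs (lb T g A' ν') V`. `A` is closed under steps: `Hv S g n` is (if `Ge S g y x`,
`Stp S g x x'` then `Ge S g y x'`) and `range f` is (`LDat.cld`); the same for `A'`. `X`, `X'` are
closed and contain `A`, `A'` (`St_BKX`). Let `p` be given, `prs f f' ⊆ p`, `p ⊆ X ×ˢ X'`,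
`BFR S T X X' (ω + ω + 1 + κ + ω + ω) p`.
(1) If `p ⊆ q` (or only `prs f f' ⊆ q`) and `BFR S T X X' (ω + ω + 1) q`, then for `a ∈ q`:
`a.1 ∈ A ↔ a.2 ∈ A'`: `St_VSA` for `Hv`; if `a.1 = f i`, then `(f i, f' i) ∈ q` and `AtEq` gives
`a.2 = f' i`, and conversely.
(2) For `a ∈ p` with `a.1 ∈ A`: `a.2 ∈ A'` by (1); `BFR.restr` (with `κ := ω + ω + 1`,
`U' = A`, `V' = A'`) from the level `ω + ω + 1 + κ` gives
`BFR S T A A' κ (insert a (prs f f'))` (first `BFR.anti` to `insert (a.1, a.2) (prs f f')`; the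
hypothesis of `BFR.restr` is (1)). By the last hypothesis `ν a.1 = ν' a.2`.
(3) `LR`, first part: `lb S g A ν a.1 = inr k` iff `a.1 ∈ A` and `ν a.1 = k` (unfold `lb`).
(4) `LR`, second part, for `a, a' ∈ p`: if `a.1, a'.1 ∈ A`: by (2). If exactly one of them is in
`A`: both equalities are false (`Sum.inl ≠ Sum.inr`). If both are outside of `A`: by (1) `a.2`,
`a'.2 ∉ A'`; the equalities mean `Cn S g univ A a.1 a'.1`, `Cn T g univ A' a.2 a'.2`, equivalently
`Cn S g X A ..`, `Cn T g X' A' ..` (`St_BKX`), and these are equivalent by `St_VSC` with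
`κ := ω + ω + 1` and (1) (`ω + ω + 1 + ω + ω ≤ ω + ω + 1 + κ + ω + ω`). -/
def St_VSP : Prop := ∀ (L : FirstOrder.Language.{0, 0}) (M N : Type) (S : L.Structure M)
  (T : L.Structure N) (g : Set (L.Relations 2)) (n m : ℕ) (f : Fin m → M) (f' : Fin m → N)
  (ν : M → ℕ) (ν' : N → ℕ) (κ : Ordinal.{0}), LDat S g n f ν κ → LDat T g n f' ν' κ →
  (∀ x ∈ AA S g n f, ∀ y ∈ AA T g n f',
    BFR S T (AA S g n f) (AA T g n f') κ (insert (x, y) (prs f f')) → ν x = ν' y) →
  ∀ (U : Set (QB S g (AA S g n f))) (V : Set (QB T g (AA T g n f'))),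
    VL S T (lb S g (AA S g n f) ν) (lb T g (AA T g n f') ν') (prs f f')
      (Ordinal.omega0 + Ordinal.omega0 + 1 + κ + Ordinal.omega0 + Ordinal.omega0)
      (Xs (lb S g (AA S g n f) ν) U) (Xs (lb T g (AA T g n f') ν') V)

/-- [COV] (0.5 h; uses `St_BKX`, `St_VSP`) Labelled structures are covers.

Proof. Let `A := AA T g n f`, `lab := lb T g A ν`. `A` is closed (see `St_VSP`). `Fib.fin`: the
fiber over `inr k` is `{x | x ∈ A ∧ ν x = k}` (`LDat.nuf`); the fiber over `inl ⟨B, x, hx, hB⟩`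
is contained in `{y | y ∉ A ∧ bk T g univ A y = B}`, which is contained in `B = bk T g univ A x`
(`y ∈ bk .. y`), finite by `LDat.bkf`. `Fib.ne`: for `b = ⟨B, x, hx, hB⟩` take `x` (`dif_neg`,
`Subtype.ext`). `Cov.cld`: `St_BKX`. `Cov.cst`: `f i ∈ A`, `k = ν (f i)`. `Cov.vis`: `St_VSP` with
`S = T`, the last hypothesis there is `LDat.inv`. -/
def St_COV : Prop := ∀ (L : FirstOrder.Language.{0, 0}) (N : Type) (T : L.Structure N)
  (g : Set (L.Relations 2)) (n m : ℕ) (f : Fin m → N) (ν : N → ℕ) (κ : Ordinal.{0}),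
  LDat T g n f ν κ → Cov T g f (lb T g (AA T g n f) ν)
    (Ordinal.omega0 + Ordinal.omega0 + 1 + κ + Ordinal.omega0 + Ordinal.omega0)

/-- [TRS] (1 h; uses `St_VSA`, `St_VSC`) Transfer of the labels.

Proof. Write `A := AA S g n f`, `A' := AA T g n f'`, `κ0 := ω + ω + 1`; the level of the hypothesis
is `κ0 + κ + ω + ω + ω`. `A` is closed under steps (see `St_VSP`).
(0) `range f'` is closed: let `Stp T g (f' i) b`; `BFR.back` gives `a` with `(a, b)` and
`(f i, f' i)` in a set of pairs with `AtEq`, so `Stp S g (f i) a`, `a = f j` (`LDat.cld`), and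
`b = f' j` by `AtEq`.
(1) If `prs f f' ⊆ q`, `BFR S T univ univ κ0 q`, `a ∈ q`, then `a.1 ∈ A ↔ a.2 ∈ A'` (`St_VSA` with
`X = univ`, `X' = univ`, and `AtEq` for the constants).
(2) `BFR.restr`: if `prs f f' ⊆ q` and `BFR S T univ univ (κ0 + κ) q` then `BFR S T A A' κ q`.
(3) For `y ∈ A'` there is `x ∈ A` with `BFR S T A A' κ (insert (x, y) (prs f f'))`: `BFR.back` at
the level `κ0 + κ`, (1), (2). Choose `x =: h y` and let `ν' y := ν (h y)` (and `0` for
`y ∉ A'`).
(4) If `x ∈ A`, `y ∈ A'`, `BFR S T A A' κ (insert (x, y) (prs f f'))` then `ν x = ν' y`: by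
`BFR.symm` and `BFR.trans` `BFR S S A A κ (insert (x, h y) (prs f f))`, so `ν x = ν (h y)` by
`LDat.inv`.
(5) `LDat.inv` for `T`: if `BFR T T A' A' κ (insert (y, y') (prs f' f'))`, then by `BFR.trans`
`BFR S T A A' κ (insert (h y, y') (prs f f'))`, so `ν (h y) = ν' y'` by (4).
(6) `LDat.nuf` for `T`: let `s := {x | x ∈ A ∧ ν x = k}.ncard` and suppose that there are `s + 1`
different elements `y i ∈ A'` with `ν' (y i) = k`. `BFR.back_many` gives `x i` with
`BFR S T univ univ (κ0 + κ) (prs f f' ∪ range fun i => (x i, y i))`; the `x i` are different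
(`AtEq`), in `A` by (1), and `ν (x i) = ν' (y i) = k` by (2), `BFR.anti` and (4). Contradiction.
(7) `LDat.bkf` for `T`: let `y ∉ A'`. `BFR.back` gives `x` with
`BFR S T univ univ (κ0 + ω + ω + ω) (insert (x, y) (prs f f'))` (as
`κ0 + ω + ω + ω + 1 ≤ κ0 + κ + ω + ω + ω + 1`, because `ω ≤ κ + ω`), and `x ∉ A` by (1). Let `s` be
the size of `bk S g univ A x`, which is finite by `LDat.bkf`. Suppose that there are `s + 1`
different elements `y i` in `bk T g univ A' y`. `BFR.back_many` gives `x i` with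
`BFR S T univ univ (κ0 + ω + ω) (insert (x, y) (prs f f') ∪ range fun i => (x i, y i))`, they are
different by `AtEq`, and `x i ∈ bk S g univ A x` by `St_VSC` (with `κ := κ0`, `X = univ`,
`X' = univ` and (1)). Contradiction. -/
def St_TRS : Prop := ∀ (L : FirstOrder.Language.{0, 0}) (M N : Type) (S : L.Structure M)
  (T : L.Structure N) (g : Set (L.Relations 2)) (n m : ℕ) (f : Fin m → M) (f' : Fin m → N)
  (ν : M → ℕ) (κ : Ordinal.{0}), LDat S g n f ν κ → LF T g →
  BFR S T univ univ (Ordinal.omega0 + Ordinal.omega0 + 1 + κ + Ordinal.omega0 +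
    Ordinal.omega0 + Ordinal.omega0 + 1) (prs f f') →
  ∃ ν' : N → ℕ, LDat T g n f' ν' κ ∧ ∀ x ∈ AA S g n f, ∀ y ∈ AA T g n f',
    BFR S T (AA S g n f) (AA T g n f') κ (insert (x, y) (prs f f')) → ν x = ν' y

/-- [VQQ] (1 h; uses `St_VQC`, `St_PGC`, `St_TRS`, `St_COV`, `St_VSP`, `St_BQQ`, `St_PGQ`) Copies
along the rationals for the quotient.

Proof. Write `A := AA S g n f`, `lab := lb S g A ν`, `κ1 := ω + ω + 1 + κ + ω + ω` (the level of
`St_VSP`). By `VSt.mono` (in `Helper22/VCM/C2b.lean`) we may assume `κ1 + ω + 1 ≤ δ`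
(replace `δ` by `max δ (κ1 + ω + 1)`). `Fib lab` by `St_COV`; choose `rep : QB S g A → M` with
`lab (rep b) = inl b`; it is injective. Given `β`, `k` (for `m`), `W : Om → β → QB S g A` and
`c : Fin k → QB S g A`: apply `St_VQC` to `fun a p => rep (W a p)` and the constants
`Fin.append f (fun i => rep (c i)) : Fin (m + k) → M`; it gives `T ∈ K`, `c' : Fin (m + k) → ℕ`
and `u : ℚ → β → ℕ`. Let `f' i := c' (Fin.castAdd k i)`. For `s = 0` we get
`BFR S T univ univ δ (prs f f')`. `LF T g` and `F0` finite with `HerCS g K T F0` by `HerC g K`;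
`PigC T g F0` by `St_PGC`. `St_TRS` gives `ν'`; `Cov T g f' lab' κ1` for
`lab' := lb T g (AA T g n f') ν'` by `St_COV`; `St_PGQ` gives `F'` finite with
`Pig (QS S lab T lab') F'`. `St_VSP` with `U = univ`, `V = univ` (`Xs _ univ = univ`) gives
`VL S T lab lab' (prs f f') κ1 univ univ`. So if `p ⊇ prs f f'`, `BFR S T univ univ δ p`, `a ∈ p`
and `lab a.1 = inl b`, then `lab' a.2 = inl b'` for some `b'`. Let `g' i` be this `b'` for
`a = (rep (c i), c' (Fin.natAdd m i))` and `u' x p` that for the element `u x p`: for every `x`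
take `s = 1`, `q = ![x]` (or `fun _ => x`) in the property of `u`, it gives
`(rep (W a p), u x p)` in a set of pairs with `BFR S T univ univ δ`.
Now let `q : Fin s → ℚ` be strictly monotone, `a` given by `St_VQC`, and
`p := prs (Fin.append f ..) c' ∪ ⋃ j, prs (fun i => rep (W (a j) i)) (u (q j))`. `St_BQQ` with
`γ0 := κ1`, `γ := 0`, `c := prs f f'`, `U = V = univ` and
`pq := prs c g' ∪ ⋃ j, prs (W (a j)) (u' (q j))` (finite, `Finite β`; every pair of blocks is
represented by the corresponding pair in `p`) gives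
`BFR (QS S lab S lab) (QS S lab T lab') univ univ 0 pq`, so `AtEq` (`BFR.atEq`). The result is
`⟨QB T g (AA T g n f'), QS S lab T lab', F', g', u', ..⟩`. -/
def St_VQQ : Prop := ∀ (L : FirstOrder.Language.{0, 0}) [∀ n, IsEmpty (L.Functions n)]
  [∀ n, Countable (L.Relations n)] (g : Set (L.Relations 2)) (K : Set (L.Structure ℕ))
  (δ : Ordinal.{0}) (M : Type) (S : L.Structure M), VSt K δ S → HerC g K →
  ∀ (n m : ℕ) (f : Fin m → M) (ν : M → ℕ) (κ : Ordinal.{0}), κ < om1 → LDat S g n f ν κ →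
  VQp (QS S (lb S g (AA S g n f) ν) S (lb S g (AA S g n f) ν))

/-- [CXQ] (0.5 h; uses `St_HFC`, `St_PGC`, `St_DTS`, `St_COV`, `St_PGQ`, `St_VQQ`; import also
`Pool.Agent.HERN.ALL`) The general properties of the quotient.

Proof. `St_HFC` gives `LF S g` and `F` finite with `HerCS g K S F`; `PigC S g F` by `St_PGC`;
`St_DTS` gives `n m f ν κ`. `Cov` by `St_COV` (its level is `< om1` by `add_lt_om1`), `F'` and
`Pig SQ F'` by `St_PGQ` (with `S0 = S`), `VQp SQ` by `St_VQQ`, where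
`SQ := QS S lab S lab`, `lab := lb S g (AA S g n f) ν`. `QB ..` is uncountable: otherwise `M` is
the union of the finite fibers of `lab` over the countable type `QB .. ⊕ ℕ`. The rest as in
`HERN/CX.lean` (`thm_CX`): `fin`, `unc`, `pig`, `vq`, `ft` (by `St_FTN`, `Infinite` because it is
uncountable, `Pig SQ G` for finite `G ⊇ F'`), `rows` (`St_ROWS`), `ord` (`St_ORDB`), `sym`
(`St_SYM`). These four statements are proved in `HERN/ALL.lean`: `HERN.thm_FTN HERN.thm_RAMN`,
`HERN.all_ROWS`, `HERN.thm_ORDB`, `HERN.all_SYM` (see `HERN.all_CX` there). -/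
def St_CXQ : Prop := ∀ (L : FirstOrder.Language.{0, 0}) [∀ n, IsEmpty (L.Functions n)]
  [∀ n, Countable (L.Relations n)] (g : Set (L.Relations 2)) (K : Set (L.Structure ℕ))
  (δ : Ordinal.{0}) (M : Type) (S : L.Structure M), VSt K δ S → HerC g K →
  ¬ (univ : Set M).Countable →
  ∃ (Q : Type) (lab : M → Q ⊕ ℕ) (F : Set Q), Fib lab ∧ Cx (QS S lab S lab) F

end HEC
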