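import Pool.Agent.HEC.StQ
import Pool.Agent.Helper22.VCM.C2b

/-!
# HEC [VQQ]: copies along the rationals for the quotient
-/

set_option autoImplicit false
set_option linter.unusedVariables false

namespace HEC

open Set Pool.Agent.Helper5.DU Pool.Agent.Helper6.Str Pool.Agent.Helper79.VC
  Pool.Agent.Helper97.LO Pool.Agent.Helper97.VC HER HERN

/-- the level of the hypothesis of `St_TRS` is countable -/
theorem VQQ_lev {κ : Ordinal.{0}} (hκ : κ < om1) :
    Ordinal.omega0 + Ordinal.omega0 + 1 + κ + Ordinal.omega0 + Ordinal.omega0 < om1 :=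
  add_lt_om1 (add_lt_om1 (add_lt_om1 (add_one_lt_om1 (add_lt_om1 omega_lt_om1 omega_lt_om1))
    hκ) omega_lt_om1) omega_lt_om1

/-- all elements are in the piece given by all blocks -/
theorem VQQ_univ {M Q : Type} (lab : M → Q ⊕ ℕ) : Xs lab univ = univ :=
  eq_univ_of_forall fun _ _ _ => mem_univ _

/-- the constants among the extended constants -/
theorem VQQ_left {M N : Type} {m k : ℕ} (f : Fin m → M) (d : Fin k → M) (c' : Fin (m + k) → N) :
    prs f (fun i => c' (Fin.castAdd k i)) ⊆ prs (Fin.append f d) c' := by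
  rintro _ ⟨i, rfl⟩
  exact ⟨Fin.castAdd k i, by simp only [Fin.append_left]⟩

/-- the new constants among the extended constants -/
theorem VQQ_right {M N : Type} {m k : ℕ} (f : Fin m → M) (d : Fin k → M) (c' : Fin (m + k) → N)
    (i : Fin k) : (d i, c' (Fin.natAdd m i)) ∈ prs (Fin.append f d) c' :=
  ⟨Fin.natAdd m i, by simp only [Fin.append_right]⟩

theorem thm_VQQ (hVQC : St_VQC) (hPGC : St_PGC) (hTRS : St_TRS) (hCOV : St_COV) (hVSP : St_VSP)
    (hBQQ : St_BQQ) (hPGQ : St_PGQ) : St_VQQ := by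
  intro L _ _ g K δ0 M S hS0 hK n m f ν κ hκ hL β _ k W c hW
  obtain ⟨δ, hS, hδ⟩ : ∃ δ : Ordinal.{0}, VSt K δ S ∧
      Ordinal.omega0 + Ordinal.omega0 + 1 + κ + Ordinal.omega0 + Ordinal.omega0 +
        Ordinal.omega0 + 1 ≤ δ :=
    ⟨max δ0 (Ordinal.omega0 + Ordinal.omega0 + 1 + κ + Ordinal.omega0 + Ordinal.omega0 +
      Ordinal.omega0 + 1), hS0.mono (le_max_left _ _)
        (max_lt hS0.lt (add_one_lt_om1 (add_lt_om1 (VQQ_lev hκ) omega_lt_om1))),
      le_max_right _ _⟩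
  have hcov := hCOV L M S g n m f ν κ hL
  choose rep hrep using hcov.fib.ne
  have hinj : Function.Injective rep := by
    intro b b' hb
    have h1 := hrep b
    rw [hb, hrep b'] at h1
    exact (Sum.inl_injective h1).symm
  obtain ⟨T, hTK, c', u, hu⟩ := hVQC L K δ M S hS β (m + k) (fun a p => rep (W a p))
    (Fin.append f (fun i => rep (c i))) (fun a p a' p' h => hW a p a' p' (hinj h))
  obtain ⟨hLF, F0, hF0, hHer⟩ := hK T hTK
  have hP : PigC T g F0 := hPGC L g K ℕ T F0 hS.scat hHer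
  have hsub : ∀ X : Set (M × ℕ), prs f (fun i => c' (Fin.castAdd k i)) ⊆
      prs (Fin.append f (fun i => rep (c i))) c' ∪ X := fun X =>
    (VQQ_left f (fun i => rep (c i)) c').trans subset_union_left
  obtain ⟨a0, -, h0⟩ := hu 0 Fin.elim0 (fun i => i.elim0)
  obtain ⟨ν', hL', hνν'⟩ := hTRS L M ℕ S T g n m f (fun i => c' (Fin.castAdd k i)) ν κ hL hLF
    ((h0.anti (hsub _)).mono hδ)
  have hcov' := hCOV L ℕ T g n m (fun i => c' (Fin.castAdd k i)) ν' κ hL'
  obtain ⟨F', hF', hPig⟩ := hPGQ L M ℕ _ _ S (lb S g (AA S g n f) ν) T g m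
    (fun i => c' (Fin.castAdd k i)) (lb T g (AA T g n fun i => c' (Fin.castAdd k i)) ν') _ F0
    hcov' (VQQ_lev hκ) hF0 hP
  have hVL := hVSP L M ℕ S T g n m f (fun i => c' (Fin.castAdd k i)) ν ν' κ hL hL' hνν' univ univ
  have hδ1 : Ordinal.omega0 + Ordinal.omega0 + 1 + κ + Ordinal.omega0 + Ordinal.omega0 +
      Ordinal.omega0 ≤ δ := (le_self_add).trans hδ
  have hδ0 : Ordinal.omega0 + Ordinal.omega0 + 1 + κ + Ordinal.omega0 + Ordinal.omega0 ≤ δ :=
    (le_self_add).trans hδ1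
  have hblk : ∀ p : Set (M × ℕ), prs f (fun i => c' (Fin.castAdd k i)) ⊆ p →
      BFR S T univ univ δ p → ∀ a ∈ p, ∀ b, lb S g (AA S g n f) ν a.1 = Sum.inl b →
      ∃ b', lb T g (AA T g n fun i => c' (Fin.castAdd k i)) ν' a.2 = Sum.inl b' := by
    intro p hp hB a ha b hb
    have hLR : LR _ _ p := hVL p hp (fun a _ => by
      rw [VQQ_univ, VQQ_univ]
      exact ⟨mem_univ _, mem_univ _⟩) (by
      rw [VQQ_univ, VQQ_univ]
      exact hB.mono hδ0)
    rcases hl : lb T g (AA T g n fun i => c' (Fin.castAdd k i)) ν' a.2 with b' | j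
    · exact ⟨b', rfl⟩
    · have h1 := (hLR.1 a ha j).mpr hl
      rw [hb] at h1
      exact absurd h1 (by simp)
  have hg : ∀ i : Fin k, ∃ b', lb T g (AA T g n fun i => c' (Fin.castAdd k i)) ν'
      (c' (Fin.natAdd m i)) = Sum.inl b' := fun i =>
    hblk _ (hsub _) h0 (rep (c i), c' (Fin.natAdd m i))
      (Or.inl (VQQ_right f (fun i => rep (c i)) c' i)) (c i) (hrep _)
  have hu1 : ∀ (x : ℚ) (p : β), ∃ b', lb T g (AA T g n fun i => c' (Fin.castAdd k i)) ν'
      (u x p) = Sum.inl b' := by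
    intro x p
    obtain ⟨a, -, hB⟩ := hu 1 (fun _ => x) (fun i j hij => by omega)
    exact hblk _ (hsub _) hB (rep (W (a 0) p), u x p)
      (Or.inr (mem_iUnion.mpr ⟨0, p, rfl⟩)) (W (a 0) p) (hrep _)
  choose g' hg' using hg
  choose u' hu' using hu1
  refine ⟨_, QS S (lb S g (AA S g n f) ν) T
    (lb T g (AA T g n fun i => c' (Fin.castAdd k i)) ν'), F', g', u', hF', hPig, ?_⟩
  intro s q hq
  obtain ⟨a, ha, hB⟩ := hu s q hq
  refine ⟨a, ha, ?_⟩
  have h := hBQQ L M M ℕ _ _ _ S (lb S g (AA S g n f) ν) S (lb S g (AA S g n f) ν) T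
    (lb T g (AA T g n fun i => c' (Fin.castAdd k i)) ν') (prs f fun i => c' (Fin.castAdd k i)) _
    univ univ hcov.fib hcov'.fib hVL 0
    (prs (Fin.append f fun i => rep (c i)) c' ∪ ⋃ j, prs (fun i => rep (W (a j) i)) (u (q j)))
    (prs c g' ∪ ⋃ j, prs (W (a j)) (u' (q j)))
    ((finite_range _).union (finite_iUnion fun j => finite_range _)) (hsub _)
    (fun x _ => by
      rw [VQQ_univ, VQQ_univ]
      exact ⟨mem_univ _, mem_univ _⟩)
    (by
      rintro r (⟨i, rfl⟩ | hr)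
      · exact ⟨(rep (c i), c' (Fin.natAdd m i)),
          Or.inl (VQQ_right f (fun i => rep (c i)) c' i), hrep _, hg' i⟩
      · obtain ⟨j, i, rfl⟩ := mem_iUnion.mp hr
        exact ⟨(rep (W (a j) i), u (q j) i), Or.inr (mem_iUnion.mpr ⟨j, i, rfl⟩), hrep _,
          hu' _ _⟩)
    (by
      rw [VQQ_univ, VQQ_univ, add_zero]
      exact hB.mono hδ1)
  exact h.atEq

end HEC
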